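import Pool.Agent.Lib.MP_48b749_nt.Odd.LocAbs
import Pool.Agent.Lib.MP_48b749_nt.Places

/-!
Module LC. The valuation of the completion at a closed point, and its values on polynomials.
-/

set_option autoImplicit false

open Polynomial

namespace Pool.Agent.BSDFF.Odd

variable {k K : Type} [Field k] [Field K] [Algebra k K]

theorem valuation_toCompletion (v : Place k K) (a : K) :
    (Valued.v : Valuation v.ring.valuation.Completion _) (v.toCompletion a) =
      v.ring.valuation a := by
  exact Valued.valuedCompletion_apply _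

theorem close_toCompletion (v : Place k K) :
    Close (Valued.v : Valuation v.ring.valuation.Completion _) v.toCompletion := by
  intro x hx
  have hopen : IsOpen {y : v.ring.valuation.Completion |
      (Valued.v : Valuation v.ring.valuation.Completion _).restrict (x - y) <
      (Valued.v : Valuation v.ring.valuation.Completion _).restrict x} := by
    have h := Valued.isOpen_ball v.ring.valuation.Completion
      ((Valued.v : Valuation v.ring.valuation.Completion _).restrict x)
    exact h.preimage (continuous_const.sub continuous_id)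
  obtain ⟨y, hy1, a, ha⟩ := (UniformSpace.Completion.denseRange_coe
    (α := WithVal v.ring.valuation)).inter_open_nonempty _ hopen ⟨x, by
      simp only [Set.mem_ofPred_eq, sub_self, map_zero]
      rw [Valuation.pos_iff]
      exact hx⟩
  refine ⟨WithVal.equiv v.ring.valuation a, ?_⟩
  have h2 : v.toCompletion (WithVal.equiv v.ring.valuation a) = y := by
    rw [← ha]
    rfl
  rw [h2]
  simpa using hy1

theorem exists_valuation_eq (v : Place k K) (x : v.ring.valuation.Completion) :
    ∃ a : K, (Valued.v : Valuation v.ring.valuation.Completion _) x = v.ring.valuation a := by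
  rcases eq_or_ne x 0 with rfl | hx
  · exact ⟨0, by simp⟩
  · obtain ⟨a, ha⟩ := close_toCompletion v x hx
    refine ⟨a, ?_⟩
    rw [← valuation_toCompletion]
    have h1 := Valuation.map_sub_eq_of_lt_left _ ha
    rw [sub_sub_cancel] at h1
    exact h1.symm

/-- a polynomial prime to `π` is a unit at `π` -/
theorem valuation_eq_one {π : k[X]} (hπ : Irreducible π) {f : k[X]} (hf : ¬ π ∣ f) :
    (placeOf π hπ).ring.valuation (algebraMap k[X] (RatFunc k) f) = 1 := by
  have h := (polyHom_unit_iff _ (X_mem_placeOf π hπ) hπ (nonunit_placeOf π hπ) f).mpr hf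
  exact ((placeOf π hπ).ring.valuation_eq_one_iff _).mp h

theorem valuation_lt_one {π : k[X]} (hπ : Irreducible π) {f : k[X]} (hf : π ∣ f) :
    (placeOf π hπ).ring.valuation (algebraMap k[X] (RatFunc k) f) < 1 := by
  have h := mt (polyHom_unit_iff _ (X_mem_placeOf π hπ) hπ (nonunit_placeOf π hπ) f).mp
    (not_not.mpr hf)
  exact ((placeOf π hπ).ring.valuation_lt_one_iff _).mp ((IsLocalRing.mem_maximalIdeal _).mpr h)

lemma dvd_iff_valuation_lt_one {π : k[X]} (hπ : Irreducible π) (f : k[X]) :
    π ∣ f ↔ (placeOf π hπ).ring.valuation (algebraMap k[X] (RatFunc k) f) < 1 := by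
  refine ⟨valuation_lt_one hπ, fun h => ?_⟩
  by_contra hf
  rw [valuation_eq_one hπ hf] at h
  exact lt_irrefl _ h

lemma valuation_ne_zero' {π : k[X]} (hπ : Irreducible π) {f : k[X]} (hf : f ≠ 0) :
    (placeOf π hπ).ring.valuation (algebraMap k[X] (RatFunc k) f) ≠ 0 := by
  rw [Valuation.ne_zero_iff]
  simpa using hf

/-- the value of a nonzero polynomial is the power of the value of `π` given by the
multiplicity -/
lemma valuation_eq_pow {π : k[X]} (hπ : Irreducible π) {f : k[X]} (hf : f ≠ 0) :
    (placeOf π hπ).ring.valuation (algebraMap k[X] (RatFunc k) f) =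
      (placeOf π hπ).ring.valuation (algebraMap k[X] (RatFunc k) π) ^ multiplicity π f := by
  have hfin : FiniteMultiplicity π f := FiniteMultiplicity.of_prime_left hπ.prime hf
  obtain ⟨g, hg, hgn⟩ := hfin.exists_eq_pow_mul_and_not_dvd
  conv_lhs => rw [hg, map_mul, map_mul, map_pow, map_pow, valuation_eq_one hπ hgn, mul_one]

lemma valuation_num_denom {π : k[X]} (hπ : Irreducible π) (a : RatFunc k) :
    (placeOf π hπ).ring.valuation a *
      (placeOf π hπ).ring.valuation (algebraMap k[X] (RatFunc k) a.denom) =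
      (placeOf π hπ).ring.valuation (algebraMap k[X] (RatFunc k) a.num) := by
  have hd0 : algebraMap k[X] (RatFunc k) a.denom ≠ 0 := by
    simpa using RatFunc.denom_ne_zero a
  rw [← map_mul, (eq_div_iff hd0).mp (RatFunc.num_div_denom a).symm]

/-- the valuation is a square if and only if the multiplicity is even -/
theorem isSquare_valuation_iff {π : k[X]} (hπ : Irreducible π) {f : k[X]} (hf : f ≠ 0) :
    IsSquare ((placeOf π hπ).ring.valuation (algebraMap k[X] (RatFunc k) f)) ↔
      Even (multiplicity π f) := by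
  constructor
  · rintro ⟨y, hy⟩
    obtain ⟨a, rfl⟩ := (placeOf π hπ).ring.valuation_surjective y
    have ha : a ≠ 0 := by
      rintro rfl
      rw [map_zero, mul_zero] at hy
      exact valuation_ne_zero' hπ hf hy
    have h1 := valuation_num_denom hπ a
    have h2 := valuation_eq_pow hπ (RatFunc.num_ne_zero ha)
    have h3 := valuation_eq_pow hπ (RatFunc.denom_ne_zero a)
    have h4 := valuation_eq_pow hπ hf
    set c := (placeOf π hπ).ring.valuation (algebraMap k[X] (RatFunc k) π) with hc
    have hc0 : c ≠ 0 := valuation_ne_zero' hπ hπ.ne_zero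
    have hc1 : c < 1 := valuation_lt_one hπ dvd_rfl
    rw [h2, h3] at h1
    rw [h4] at hy
    have h5 : c ^ (multiplicity π f + 2 * multiplicity π a.denom) =
        c ^ (2 * multiplicity π a.num) := by
      calc c ^ (multiplicity π f + 2 * multiplicity π a.denom)
          = ((placeOf π hπ).ring.valuation a * c ^ multiplicity π a.denom) ^ 2 := by
            rw [pow_add, hy, pow_mul', mul_pow, pow_two ((placeOf π hπ).ring.valuation a)]
        _ = c ^ (2 * multiplicity π a.num) := by rw [h1, pow_mul']
    have h6 := (pow_right_strictAnti₀ (zero_lt_iff.mpr hc0) hc1).injective h5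
    rw [Nat.even_iff]
    omega
  · rintro ⟨m, hm⟩
    rw [valuation_eq_pow hπ hf, hm, pow_add]
    exact ⟨_, rfl⟩

/-- a polynomial divisible by `π` exactly once has the value of `π` -/
lemma valuation_eq_uniformizer {π : k[X]} (hπ : Irreducible π) {g : k[X]} (hg : π ∣ g)
    (hg2 : ¬ π ^ 2 ∣ g) :
    (placeOf π hπ).ring.valuation (algebraMap k[X] (RatFunc k) g) =
      (placeOf π hπ).ring.valuation (algebraMap k[X] (RatFunc k) π) := by
  obtain ⟨h, rfl⟩ := hg
  have hh : ¬ π ∣ h := by
    rintro ⟨h', rfl⟩
    exact hg2 ⟨h', by ring⟩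
  rw [map_mul, map_mul, valuation_eq_one hπ hh, mul_one]

/-- a polynomial divisible by `π` exactly once is a uniformizer at `π` -/
theorem valuation_le_of_lt_one {π : k[X]} (hπ : Irreducible π) {g : k[X]} (hg : π ∣ g)
    (hg2 : ¬ π ^ 2 ∣ g) (a : RatFunc k) (ha : (placeOf π hπ).ring.valuation a < 1) :
    (placeOf π hπ).ring.valuation a ≤
      (placeOf π hπ).ring.valuation (algebraMap k[X] (RatFunc k) g) := by
  rw [valuation_eq_uniformizer hπ hg hg2]
  have hmem : a ∈ (placeOf π hπ).ring := ((placeOf π hπ).ring.valuation_le_one_iff a).mp ha.le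
  have hd : ¬ π ∣ a.denom :=
    (ring_mem_iff _ (X_mem_placeOf π hπ) hπ (nonunit_placeOf π hπ) a).mp hmem
  have h1 := valuation_num_denom hπ a
  rw [valuation_eq_one hπ hd, mul_one] at h1
  rw [h1] at ha ⊢
  obtain ⟨n, hn⟩ := (dvd_iff_valuation_lt_one hπ _).mpr ha
  rw [hn, map_mul, map_mul]
  refine mul_le_of_le_one_right' ?_
  by_cases h : π ∣ n
  · exact (valuation_lt_one hπ h).le
  · exact (valuation_eq_one hπ h).le

/-- closeness to a square in terms of the residue field -/
theorem isSquare_mk_of_near {π : k[X]} (hπ : Irreducible π) {B : k[X]} (hB : B ≠ 0)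
    (h : ∃ c : RatFunc k, (placeOf π hπ).ring.valuation (algebraMap k[X] (RatFunc k) B - c ^ 2) <
      (placeOf π hπ).ring.valuation (algebraMap k[X] (RatFunc k) B))
    (G M : k[X]) (hGM : B = G * M ^ 2) (hG : ¬ π ∣ G) : IsSquare (AdjoinRoot.mk π G) := by
  obtain ⟨c, hc⟩ := h
  have hM : M ≠ 0 := by
    rintro rfl
    exact hB (by rw [hGM]; ring)
  have hM0 : algebraMap k[X] (RatFunc k) M ≠ 0 := by simpa using hM
  have hVM := valuation_ne_zero' hπ hM
  have hVG := valuation_eq_one hπ hG
  obtain ⟨e, rfl⟩ : ∃ e, c = e * algebraMap k[X] (RatFunc k) M :=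
    ⟨c / algebraMap k[X] (RatFunc k) M, by field_simp⟩
  have h1 : (placeOf π hπ).ring.valuation (algebraMap k[X] (RatFunc k) G - e ^ 2) < 1 := by
    have h2 : algebraMap k[X] (RatFunc k) B - (e * algebraMap k[X] (RatFunc k) M) ^ 2 =
        (algebraMap k[X] (RatFunc k) G - e ^ 2) * algebraMap k[X] (RatFunc k) M ^ 2 := by
      rw [hGM, map_mul, map_pow]
      ring
    rw [h2, hGM, map_mul, map_mul, map_pow, map_mul, hVG, map_pow, map_pow] at hc
    exact lt_of_mul_lt_mul_right' hc
  have he2 : (placeOf π hπ).ring.valuation (e ^ 2) ≤ 1 := by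
    have h3 : e ^ 2 = algebraMap k[X] (RatFunc k) G -
        (algebraMap k[X] (RatFunc k) G - e ^ 2) := by ring
    rw [h3]
    exact (Valuation.map_sub _ _ _).trans (max_le hVG.le h1.le)
  have he : (placeOf π hπ).ring.valuation e ≤ 1 := by
    rw [map_pow] at he2
    exact (pow_le_one_iff (by norm_num)).mp he2
  have hmem : e ∈ (placeOf π hπ).ring := ((placeOf π hπ).ring.valuation_le_one_iff e).mp he
  have hd : ¬ π ∣ e.denom :=
    (ring_mem_iff _ (X_mem_placeOf π hπ) hπ (nonunit_placeOf π hπ) e).mp hmem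
  have hd0 : algebraMap k[X] (RatFunc k) e.denom ≠ 0 := by
    simpa using RatFunc.denom_ne_zero e
  have hnd : e * algebraMap k[X] (RatFunc k) e.denom = algebraMap k[X] (RatFunc k) e.num :=
    (eq_div_iff hd0).mp (RatFunc.num_div_denom e).symm
  have h4 : π ∣ G * e.denom ^ 2 - e.num ^ 2 := by
    rw [dvd_iff_valuation_lt_one hπ]
    have h5 : algebraMap k[X] (RatFunc k) (G * e.denom ^ 2 - e.num ^ 2) =
        (algebraMap k[X] (RatFunc k) G - e ^ 2) * algebraMap k[X] (RatFunc k) e.denom ^ 2 := by
      rw [map_sub, map_mul, map_pow, map_pow, ← hnd]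
      ring
    rw [h5, map_mul, map_pow, valuation_eq_one hπ hd, one_pow, mul_one]
    exact h1
  have : Fact (Irreducible π) := ⟨hπ⟩
  have hmk : AdjoinRoot.mk π e.denom ≠ 0 := by
    rw [Ne, AdjoinRoot.mk_eq_zero]
    exact hd
  refine ⟨AdjoinRoot.mk π e.num / AdjoinRoot.mk π e.denom, ?_⟩
  have h6 : AdjoinRoot.mk π G * AdjoinRoot.mk π e.denom ^ 2 = AdjoinRoot.mk π e.num ^ 2 := by
    rw [← map_pow, ← map_pow, ← map_mul]
    exact AdjoinRoot.mk_eq_mk.mpr h4
  field_simp
  exact h6

end Pool.Agent.BSDFF.Odd
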