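import Pool.Agent.Lib.MP_48b749_nt.Defs

/-!
The `2`-coverings of the elliptic curve `y ^ 2 = x (x + 1) (x + w)` over a function field, their
solubility over the field and over its completions, and the condition on a polynomial `u` under
which the curve `y ^ 2 = x (x + 1) (x + u ^ d)` is studied.
-/

set_option autoImplicit false

open Polynomial

namespace Pool.Agent.BSDFF

/-- The curve `b₁ z₁ ^ 2 + z₀ ^ 2 = b₂ z₂ ^ 2`, `b₁ z₁ ^ 2 + w z₀ ^ 2 = b₁ b₂ z₃ ^ 2` in the
projective space `P ^ 3` has a point over the field `F`. For `b₁, b₂ ≠ 0` these curves are the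
`2`-coverings of the elliptic curve `y ^ 2 = x (x + 1) (x + w)`, by
`x = b₁ (z₁ / z₀) ^ 2`, `x + 1 = b₂ (z₂ / z₀) ^ 2`, `x + w = b₁ b₂ (z₃ / z₀) ^ 2`. -/
def CoveringHasPoint {F : Type} [Field F] (w b₁ b₂ : F) : Prop :=
  ∃ z₀ z₁ z₂ z₃ : F, (z₀ ≠ 0 ∨ z₁ ≠ 0 ∨ z₂ ≠ 0 ∨ z₃ ≠ 0) ∧
    b₁ * z₁ ^ 2 + z₀ ^ 2 = b₂ * z₂ ^ 2 ∧ b₁ * z₁ ^ 2 + w * z₀ ^ 2 = b₁ * b₂ * z₃ ^ 2

variable {k K : Type} [Field k] [Field K] [Algebra k K]

/-- The embedding of `K` in its completion at the closed point `v`. -/
noncomputable def Place.toCompletion (v : Place k K) : K →+* v.ring.valuation.Completion :=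
  (UniformSpace.Completion.coeRingHom (α := WithVal v.ring.valuation)).comp
    (WithVal.equiv v.ring.valuation).symm.toRingHom

/-- The `2`-torsion of the Tate-Shafarevich group of `E : y ^ 2 = x (x + 1) (x + w)` over `K` is
trivial: every `2`-covering of `E` with a point over the completion of `K` at each closed point has
a point over `K`. -/
def ShaTwoTrivial (k : Type) {K : Type} [Field k] [Field K] [Algebra k K] (w : K) : Prop :=
  ∀ b₁ b₂ : K, b₁ ≠ 0 → b₂ ≠ 0 →
    (∀ v : Place k K, CoveringHasPoint (v.toCompletion w) (v.toCompletion b₁) (v.toCompletion b₂)) →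
      CoveringHasPoint w b₁ b₂

/-- `u = c v ^ e` with `v` irreducible of odd degree and `e` odd, and `m (u)` is irreducible for
every irreducible factor `m` of `X ^ d - 1` over `k`: the map `u` from the projective line to itself
has odd degree, and just one closed point lies above each closed point of `0`, `∞` and `μ_d`. -/
structure OddNonsplit {k : Type} [Field k] (d : ℕ) (u : k[X]) : Prop where
  /-- above `0` -/
  at_zero : ∃ (c : k) (v : k[X]) (e : ℕ), c ≠ 0 ∧ Irreducible v ∧ Odd v.natDegree ∧ Odd e ∧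
    u = C c * v ^ e
  /-- above the `d`-th roots of unity -/
  at_roots : ∀ m : k[X], Irreducible m → m ∣ X ^ d - 1 → Irreducible (m.comp u)

/-- The number of monic irreducible factors of `X ^ d - 1` over `k`. -/
noncomputable def numFactors (k : Type) [Field k] (d : ℕ) : ℕ :=
  Nat.card {m : k[X] // m.Monic ∧ Irreducible m ∧ m ∣ X ^ d - 1}

end Pool.Agent.BSDFF
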