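import Pool.Agent.Lib.MP_48b749_nt.Odd.SelBound
import Pool.Agent.Lib.MP_48b749_nt.LegExact

/-!
Module DE. The complete `2`-descent homomorphism `P ↦ (x(P), x(P) + 1)` modulo squares, its kernel
`2 E(K)`, and the coverings attached to points.
-/

set_option autoImplicit false

open Polynomial

namespace Pool.Agent.BSDFF.Odd

variable {k : Type} [Field k]

open Classical in
/-- the descent map `P ↦ x(P)` -/
noncomputable def legBeta (w : k[X]) (hw0 : w ≠ 0) :
    (legendre w).toAffine.Point →+ SqGrp (RatFunc k) :=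
  alphaHom (legendre w) 0 (algebraMap k[X] (RatFunc k) w) rfl rfl
    (by simp only [legendre]; ring)
    (by simp only [legendre]; ring)
    (algebraMap_ne_zero' hw0)

open Classical in
/-- the complete descent map -/
noncomputable def legDelta (w : k[X]) (hw0 : w ≠ 0) (hw1 : w ≠ 1) :
    (legendre w).toAffine.Point →+ SqGrp (RatFunc k) × SqGrp (RatFunc k) :=
  (legBeta w hw0).prod (legAlpha w hw1)

private lemma de_one_sub_ne {w : k[X]} (hw1 : w ≠ 1) :
    (1 : RatFunc k) - algebraMap k[X] (RatFunc k) w ≠ 0 := by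
  rw [← map_one (algebraMap k[X] (RatFunc k)), ← map_sub]
  exact algebraMap_ne_zero' (sub_ne_zero.mpr (Ne.symm hw1))

private lemma de_zero_ne_neg_one : (0 : RatFunc k) ≠ -1 := by
  intro h5
  exact one_ne_zero (α := RatFunc k) (by linear_combination h5)

private lemma de_eq {w : k[X]} {x y : RatFunc k}
    (h : (legendre w).toAffine.Nonsingular x y) :
    y ^ 2 = x * (x + 1) * (x + algebraMap k[X] (RatFunc k) w) := by
  have hE := h.1
  rw [WeierstrassCurve.Affine.equation_iff] at hE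
  simp only [legendre, map_add, map_one] at hE
  linear_combination hE

open Classical in
private lemma de_apply (w : k[X]) (hw0 : w ≠ 0) (hw1 : w ≠ 1)
    (P : (legendre w).toAffine.Point) :
    legDelta w hw0 hw1 P =
      (sqClass (alpha (legendre w) 0 (algebraMap k[X] (RatFunc k) w) P),
        sqClass (alpha (legendre w) (-1) (1 - algebraMap k[X] (RatFunc k) w) P)) := rfl

private lemma de_class_eq {F : Type} [Field F] {x y : F} (hx : x ≠ 0) (hy : y ≠ 0)
    (h : sqClass x = sqClass y) : ∃ r : F, r ≠ 0 ∧ y = x * r ^ 2 := by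
  have h1 : sqClass (x * y) = 0 := by rw [sqClass_mul hx hy, h, modSq_two]
  rw [sqClass_eq_zero_iff (mul_ne_zero hx hy)] at h1
  obtain ⟨s, hs⟩ := h1
  have hs0 : s ≠ 0 := by
    rintro rfl
    exact mul_ne_zero hx hy (by rw [hs, mul_zero])
  refine ⟨s / x, div_ne_zero hs0 hx, ?_⟩
  field_simp
  linear_combination hs

open Classical in
theorem legDelta_ker (h2 : (2 : k) ≠ 0) (w : k[X]) (hw0 : w ≠ 0) (hw1 : w ≠ 1) :
    (legDelta w hw0 hw1).ker = MW.nG (legendre w).toAffine.Point 2 := by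
  ext P
  rw [AddMonoidHom.mem_ker, MW.mem_nG]
  have hone := de_one_sub_ne hw1
  have hw' := algebraMap_ne_zero' hw0
  constructor
  · intro hP
    rcases P with _ | ⟨x, y, h⟩
    · exact ⟨0, (nsmul_zero 2 : (2 : ℕ) • (0 : (legendre w).toAffine.Point) = 0)⟩
    have hE := de_eq h
    rw [de_apply, Prod.mk_eq_zero, sqClass_eq_zero_iff (alpha_ne_zero hw' _),
      sqClass_eq_zero_iff (alpha_ne_zero hone _), alpha_some, alpha_some] at hP
    obtain ⟨hP1, hP2⟩ := hP
    have key : ∃ r₁ r₂ r₃ : RatFunc k, x - 0 = r₁ ^ 2 ∧ x - (-1) = r₂ ^ 2 ∧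
        x - (-algebraMap k[X] (RatFunc k) w) = r₃ ^ 2 := by
      by_cases hx0 : x = 0
      · subst hx0
        rw [if_pos rfl] at hP1
        obtain ⟨r, hr⟩ := hP1
        exact ⟨0, 1, r, by ring, by ring, by rw [hr]; ring⟩
      by_cases hx1 : x = -1
      · subst hx1
        rw [if_neg hx0] at hP1
        rw [if_pos rfl] at hP2
        obtain ⟨r, hr⟩ := hP1
        obtain ⟨s, hs⟩ := hP2
        exact ⟨r, 0, r * s, by rw [hr]; ring, by ring, by
          linear_combination (s ^ 2) * hr + (-1 : RatFunc k) * hs⟩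
      rw [if_neg hx0] at hP1
      rw [if_neg hx1] at hP2
      obtain ⟨r, hr⟩ := hP1
      obtain ⟨s, hs⟩ := hP2
      have hr0 : r ≠ 0 := by
        rintro rfl
        exact hx0 (by linear_combination hr)
      have hs0 : s ≠ 0 := by
        rintro rfl
        exact hx1 (by linear_combination hs)
      refine ⟨r, s, y / (r * s), by rw [hr]; ring, by rw [hs]; ring, ?_⟩
      have h5 : y ^ 2 = (r * s) ^ 2 * (x + algebraMap k[X] (RatFunc k) w) := by
        rw [hE]
        have e1 : x = r ^ 2 := by linear_combination hr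
        have e2 : x + 1 = s ^ 2 := by linear_combination hs
        rw [e2]
        linear_combination (s ^ 2 * (x + algebraMap k[X] (RatFunc k) w)) * e1
      rw [div_pow, h5, sub_neg_eq_add, mul_comm, mul_div_assoc, 
        div_self (pow_ne_zero 2 (mul_ne_zero hr0 hs0)), mul_one]
    obtain ⟨r₁, r₂, r₃, e1, e2, e3⟩ := key
    have e13 : (0 : RatFunc k) ≠ -algebraMap k[X] (RatFunc k) w := fun h5 =>
      hw' (by linear_combination h5)
    have e23 : (-1 : RatFunc k) ≠ -algebraMap k[X] (RatFunc k) w := fun h5 =>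
      hone (by linear_combination -h5)
    obtain ⟨Q, hQ⟩ := exists_half (legendre w) (algebraMap_ratfunc_two h2) rfl rfl
      (e₁ := 0) (e₂ := -1) (e₃ := -algebraMap k[X] (RatFunc k) w)
      (by simp only [legendre, map_add, map_one]; ring) (by simp only [legendre]; ring)
      (by simp only [legendre]; ring) de_zero_ne_neg_one e13 e23 h e1 e2 e3
    exact ⟨Q, by rw [hQ, two_nsmul]⟩
  · rintro ⟨Q, rfl⟩
    rw [two_nsmul, map_add]
    exact Prod.ext (modSq_two _) (modSq_two _)

open Classical in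
/-- the covering attached to a point has a rational point -/
theorem covering_of_point (w : k[X]) (hw0 : w ≠ 0) (hw1 : w ≠ 1)
    (P : (legendre w).toAffine.Point) {b₁ b₂ : RatFunc k} (hb₁ : b₁ ≠ 0) (hb₂ : b₂ ≠ 0)
    (h : legDelta w hw0 hw1 P = (sqClass b₁, sqClass b₂)) :
    CoveringHasPoint (algebraMap k[X] (RatFunc k) w) b₁ b₂ := by
  have hone := de_one_sub_ne hw1
  have hw' := algebraMap_ne_zero' hw0
  rw [de_apply, Prod.mk.injEq] at h
  obtain ⟨h1, h2⟩ := h
  obtain ⟨r, hr, rfl⟩ := de_class_eq (alpha_ne_zero hw' P) hb₁ h1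
  obtain ⟨s, hs, rfl⟩ := de_class_eq (alpha_ne_zero hone P) hb₂ h2
  refine covering_mul_sq hr hs ?_
  rcases P with _ | ⟨x, y, hP⟩
  · refine ⟨0, 1, 1, 1, Or.inr (Or.inl one_ne_zero), ?_, ?_⟩
    · change (1 : RatFunc k) * 1 ^ 2 + 0 ^ 2 = 1 * 1 ^ 2
      ring
    · change (1 : RatFunc k) * 1 ^ 2 + algebraMap k[X] (RatFunc k) w * 0 ^ 2 = 1 * 1 * 1 ^ 2
      ring
  have hE := de_eq hP
  rw [alpha_some, alpha_some]
  by_cases hx0 : x = 0
  · subst hx0
    rw [if_pos rfl, if_neg de_zero_ne_neg_one]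
    exact ⟨1, 0, 1, 1, Or.inl one_ne_zero, by ring, by ring⟩
  by_cases hx1 : x = -1
  · subst hx1
    rw [if_neg hx0, if_pos rfl]
    exact ⟨1, 1, 0, 1, Or.inl one_ne_zero, by ring, by ring⟩
  rw [if_neg hx0, if_neg hx1]
  have hx2 : x + 1 ≠ 0 := fun h5 => hx1 (by linear_combination h5)
  refine ⟨1, 1, 1, y / (x * (x + 1)), Or.inl one_ne_zero, by ring, ?_⟩
  rw [div_pow, hE]
  field_simp
  ring

/-- rational points give local points -/
theorem covering_map {F F' : Type} [Field F] [Field F'] (φ : F →+* F') {w b₁ b₂ : F}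
    (h : CoveringHasPoint w b₁ b₂) : CoveringHasPoint (φ w) (φ b₁) (φ b₂) := by
  obtain ⟨z₀, z₁, z₂, z₃, hz, e1, e2⟩ := h
  refine ⟨φ z₀, φ z₁, φ z₂, φ z₃, ?_, ?_, ?_⟩
  · simpa using hz
  · simpa only [map_add, map_mul, map_pow] using congrArg φ e1
  · simpa only [map_add, map_mul, map_pow] using congrArg φ e2

open Classical in
theorem legDelta_mem (w : k[X]) (hw0 : w ≠ 0) (hw1 : w ≠ 1) (P : (legendre w).toAffine.Point) :
    legDelta w hw0 hw1 P ∈ SelSet (algebraMap k[X] (RatFunc k) w) := by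
  have hone := de_one_sub_ne hw1
  have hw' := algebraMap_ne_zero' hw0
  refine ⟨_, _, alpha_ne_zero hw' P, alpha_ne_zero hone P, de_apply w hw0 hw1 P, fun v => ?_⟩
  exact covering_map v.toCompletion (covering_of_point w hw0 hw1 P (alpha_ne_zero hw' P)
    (alpha_ne_zero hone P) (de_apply w hw0 hw1 P))

end Pool.Agent.BSDFF.Odd
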