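import Mathlib

/-!
Module EXA. Artin-Schreier substitutions in irreducible polynomials over finite fields.
-/

set_option autoImplicit false

open Polynomial

namespace Pool.Agent.BSDFF.Odd

variable {k : Type} [Field k] [Finite k]

private lemma exas_trace_pow (p : ℕ) [Fact p.Prime] {K L : Type} [Field K] [Field L]
    [Algebra K L] [CharP L p] [Finite L] (x : L) :
    Algebra.trace K L (x ^ p) = Algebra.trace K L x ^ p := by
  have : FiniteDimensional K L := Module.Finite.of_finite
  apply (algebraMap K L).injective
  rw [RingHom.map_pow, trace_eq_sum_automorphisms, trace_eq_sum_automorphisms, sum_pow_char]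
  exact Finset.sum_congr rfl fun σ _ => by rw [map_pow]

private lemma exas_natDegree (p : ℕ) [Fact p.Prime] {K : Type} [Field K] (a : K) :
    (X ^ p - X - C a : K[X]).natDegree = p := by
  have hp : 1 < p := (Fact.out : p.Prime).one_lt
  have h1 : (X ^ p - X : K[X]).natDegree = p := FiniteField.X_pow_card_sub_X_natDegree_eq K hp
  rw [natDegree_sub_C, h1]

private lemma exas_monic (p : ℕ) [Fact p.Prime] {K : Type} [Field K] (a : K) :
    (X ^ p - X - C a : K[X]).Monic := by
  have hp : 1 < p := (Fact.out : p.Prime).one_lt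
  have h2 : (X ^ p - X - C a : K[X]) = X ^ p - (X + C a) := by ring
  rw [h2]
  apply (monic_X_pow p).sub_of_left
  rw [degree_X_pow]
  refine lt_of_le_of_lt (degree_X_add_C a).le ?_
  exact_mod_cast hp

/-- `X ^ p - X - a` is irreducible over a finite field of characteristic `p` in which it has no
root -/
private lemma exas_irreducible (p : ℕ) [Fact p.Prime] {K : Type} [Field K] [Finite K] [CharP K p]
    {a : K} (ha : ∀ x : K, x ^ p - x ≠ a) : Irreducible (X ^ p - X - C a : K[X]) := by
  have hpp : p.Prime := Fact.out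
  set f : K[X] := X ^ p - X - C a with hf
  have hfdeg : f.natDegree = p := exas_natDegree p a
  have hf0 : f ≠ 0 := (exas_monic p a).ne_zero
  have hfu : ¬ IsUnit f := by
    intro h
    have := natDegree_eq_zero_of_isUnit h
    rw [hfdeg] at this
    exact hpp.ne_zero this
  obtain ⟨g, hg, hgf⟩ := WfDvdMonoid.exists_irreducible_factor hfu hf0
  suffices hgd : natDegree g = p from (associated_of_dvd_of_natDegree_le hgf hf0
    (hgd.trans hfdeg.symm).ge).irreducible hg
  by_contra hne
  have hle : g.natDegree ≤ p := hfdeg ▸ natDegree_le_of_dvd hgf hf0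
  have hpos : 0 < g.natDegree := hg.natDegree_pos
  have hlt : g.natDegree < p := lt_of_le_of_ne hle hne
  have : Fact (Irreducible g) := ⟨hg⟩
  have : FiniteDimensional K (AdjoinRoot g) := (AdjoinRoot.powerBasis hg.ne_zero).finite
  have : Finite (AdjoinRoot g) := Module.finite_of_finite K
  have : CharP (AdjoinRoot g) p := charP_of_injective_algebraMap' K p
  have hroot : (AdjoinRoot.root g) ^ p - AdjoinRoot.root g = algebraMap K (AdjoinRoot g) a := by
    have h := eval₂_eq_zero_of_dvd_of_eval₂_eq_zero _ _ hgf (AdjoinRoot.eval₂_root g)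
    rw [hf, eval₂_sub, eval₂_sub, eval₂_pow, eval₂_C, eval₂_X, sub_eq_zero] at h
    exact h
  set T := Algebra.trace K (AdjoinRoot g) (AdjoinRoot.root g) with hT
  have key : T ^ p - T = (g.natDegree : K) * a := by
    rw [hT, ← exas_trace_pow p, ← map_sub, hroot, Algebra.trace_algebraMap,
      (AdjoinRoot.powerBasis hg.ne_zero).finrank, AdjoinRoot.powerBasis_dim hg.ne_zero,
      nsmul_eq_mul]
  have hn : (g.natDegree : K) ≠ 0 := by
    intro h
    rw [CharP.cast_eq_zero_iff K p] at h
    exact absurd (Nat.le_of_dvd hpos h) (not_le.mpr hlt)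
  have hnp : (g.natDegree : K) ^ p = (g.natDegree : K) := by
    have h := map_natCast (frobenius K p) g.natDegree
    rwa [frobenius_def] at h
  apply ha (T / (g.natDegree : K))
  rw [div_pow, hnp, ← sub_div, key]
  field_simp

/-- an irreducible `m` remains irreducible after the substitution of `X ^ p - X + c` if no element
of `k[X] / m` is a solution of `x ^ p - x + c = root` -/
theorem irreducible_comp_as (p : ℕ) [Fact p.Prime] [CharP k p] {c : k} {m : k[X]}
    (hm : Irreducible m)
    (h : ∀ x : AdjoinRoot m, x ^ p - x + AdjoinRoot.of m c ≠ AdjoinRoot.root m) :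
    Irreducible (m.comp (X ^ p - X + C c)) := by
  have hm0 : m ≠ 0 := hm.ne_zero
  have hlc : m.leadingCoeff ≠ 0 := leadingCoeff_ne_zero.mpr hm0
  set m' : k[X] := m * C m.leadingCoeff⁻¹ with hm'
  have hmon : m'.Monic := monic_mul_leadingCoeff_inv hm0
  have hu : IsUnit (C m.leadingCoeff⁻¹ : k[X]) := isUnit_C.mpr (isUnit_iff_ne_zero.mpr
    (inv_ne_zero hlc))
  have hass : Associated m m' := associated_mul_unit_right m _ hu
  have hirr : Irreducible m' := hass.irreducible hm
  have hcomp : m'.comp (X ^ p - X + C c) = m.comp (X ^ p - X + C c) * C m.leadingCoeff⁻¹ := by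
    rw [hm', mul_comp, C_comp]
  have hass2 : Associated (m.comp (X ^ p - X + C c)) (m'.comp (X ^ p - X + C c)) := by
    rw [hcomp]
    exact associated_mul_unit_right _ _ hu
  apply hass2.symm.irreducible
  have hmonic : (X ^ p - X + C c : k[X]).Monic := by
    have := exas_monic p (-c)
    rwa [C_neg, sub_neg_eq_add] at this
  apply Polynomial.irreducible_comp hmon hmonic hirr
  intro E _ _ x hx
  have hint : IsIntegral k x := by
    by_contra hni
    rw [minpoly.eq_zero hni] at hx
    exact hirr.ne_zero hx.symm
  have : FiniteDimensional k (IntermediateField.adjoin k {x}) :=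
    IntermediateField.adjoin.finiteDimensional hint
  have : Finite (IntermediateField.adjoin k {x}) := Module.finite_of_finite k
  have : CharP (IntermediateField.adjoin k {x}) p := charP_of_injective_algebraMap' k p
  have e : AdjoinRoot m' ≃ₐ[k] AdjoinRoot (minpoly k x) := AdjoinRoot.algEquivOfEq k _ _ hx.symm
  have hgoal : (X ^ p - X + C c : k[X]).map (algebraMap k (IntermediateField.adjoin k {x})) -
      C (IntermediateField.AdjoinSimple.gen k x) =
      X ^ p - X - C (IntermediateField.AdjoinSimple.gen k x -
        algebraMap k (IntermediateField.adjoin k {x}) c) := by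
    rw [Polynomial.map_add, Polynomial.map_sub, Polynomial.map_pow, map_X, map_C, C_sub]
    ring
  rw [hgoal]
  apply exas_irreducible
  intro y hy
  set φ : IntermediateField.adjoin k {x} ≃ₐ[k] AdjoinRoot m :=
    ((IntermediateField.adjoinRootEquivAdjoin k hint).symm.trans
      (AdjoinRoot.algEquivOfEq k _ _ hx)).trans
      (AdjoinRoot.algEquivOfAssociated k _ _ hass.symm) with hφ
  have hgen : φ (IntermediateField.AdjoinSimple.gen k x) = AdjoinRoot.root m := by
    rw [hφ, AlgEquiv.trans_apply, AlgEquiv.trans_apply,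
      IntermediateField.adjoinRootEquivAdjoin_symm_apply_gen, AdjoinRoot.algEquivOfEq_root,
      AdjoinRoot.algEquivOfAssociated_root]
  apply h (φ y)
  have h2 := congrArg φ hy
  rw [map_sub, map_pow, map_sub, hgen, AlgEquiv.commutes, AdjoinRoot.algebraMap_eq] at h2
  rw [h2]
  ring

private lemma exas_trace_eq (p : ℕ) [Fact p.Prime] [CharP k p] {c : k} {m : k[X]}
    (hm : Irreducible m) (hmm : m.Monic) {x : AdjoinRoot m}
    (hx : x ^ p - x + AdjoinRoot.of m c = AdjoinRoot.root m) :
    ∃ T : k, T ^ p - T + (m.natDegree : k) * c = - m.nextCoeff := by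
  have : Fact (Irreducible m) := ⟨hm⟩
  have : FiniteDimensional k (AdjoinRoot m) := (AdjoinRoot.powerBasis hm.ne_zero).finite
  have : Finite (AdjoinRoot m) := Module.finite_of_finite k
  have : CharP (AdjoinRoot m) p := charP_of_injective_algebraMap' k p
  refine ⟨Algebra.trace k (AdjoinRoot m) x, ?_⟩
  have h1 := congrArg (Algebra.trace k (AdjoinRoot m)) hx
  have h2 : Algebra.trace k (AdjoinRoot m) (AdjoinRoot.root m) = - m.nextCoeff := by
    have h3 := PowerBasis.trace_gen_eq_nextCoeff_minpoly (AdjoinRoot.powerBasis hm.ne_zero)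
    rw [AdjoinRoot.powerBasis_gen, AdjoinRoot.minpoly_root hm.ne_zero, hmm.leadingCoeff, inv_one,
      C_1, mul_one] at h3
    exact h3
  rw [map_add, map_sub, exas_trace_pow p, h2, ← AdjoinRoot.algebraMap_eq,
    Algebra.trace_algebraMap, (AdjoinRoot.powerBasis hm.ne_zero).finrank,
    AdjoinRoot.powerBasis_dim hm.ne_zero, nsmul_eq_mul] at h1
  exact h1

/-- the trace argument: in an extension of degree prime to `p`, with the root of trace zero -/
theorem irreducible_comp_as_of_trace (p : ℕ) [Fact p.Prime] [CharP k p] {c : k}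
    (hc : ∀ x : k, x ^ p - x ≠ c) {m : k[X]} (hm : Irreducible m) (hmm : m.Monic)
    (hdeg : ¬ p ∣ m.natDegree) (htr : m.nextCoeff = 0) :
    Irreducible (m.comp (X ^ p - X + C c)) := by
  apply irreducible_comp_as p hm
  intro x hx
  obtain ⟨T, hT⟩ := exas_trace_eq p hm hmm hx
  rw [htr, neg_zero] at hT
  have hn : (m.natDegree : k) ≠ 0 := by
    intro h
    rw [CharP.cast_eq_zero_iff k p] at h
    exact hdeg h
  have hnp : (m.natDegree : k) ^ p = (m.natDegree : k) := by
    have h := map_natCast (frobenius k p) m.natDegree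
    rwa [frobenius_def] at h
  have hneg : (-T) ^ p = -(T ^ p) := by
    have h := map_neg (frobenius k p) T
    rwa [frobenius_def, frobenius_def] at h
  apply hc ((-T) / (m.natDegree : k))
  rw [div_pow, hnp, ← sub_div, hneg, div_eq_iff hn]
  linear_combination -hT

/-- over the prime field -/
theorem irreducible_comp_as_prime (p : ℕ) [Fact p.Prime] [CharP k p] (hcard : Nat.card k = p)
    {c : k} {m : k[X]} (hm : Irreducible m) (hmm : m.Monic)
    (htr : (m.natDegree : k) * c + m.nextCoeff ≠ 0) :
    Irreducible (m.comp (X ^ p - X + C c)) := by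
  apply irreducible_comp_as p hm
  intro x hx
  obtain ⟨T, hT⟩ := exas_trace_eq p hm hmm hx
  have hTp : T ^ p = T := by
    have := Fintype.ofFinite k
    have h := FiniteField.pow_card T
    rw [← Nat.card_eq_fintype_card, hcard] at h
    exact h
  apply htr
  rw [hTp] at hT
  linear_combination hT

end Pool.Agent.BSDFF.Odd
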