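import Mathlib

/-!
Module EXK. Kummer substitutions in irreducible polynomials over finite fields.
-/

set_option autoImplicit false

open Polynomial IntermediateField

namespace Pool.Agent.BSDFF.Odd

variable {k : Type} [Field k] [Finite k]

/-- no `l`-th root of an element `ξ` such that `γ ξ` is a root of unity of order prime to `l` -/
private lemma exk_no_root {l : ℕ} (hl : l.Prime) {γ : k} (hγ0 : γ ≠ 0)
    (hγ : ∀ x : k, x ^ l ≠ γ) {L : Type} [Field L] [Algebra k L] [FiniteDimensional k L]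
    (hdeg : (Module.finrank k L).Coprime l) {r : ℕ} (hr : r.Coprime l) {ξ : L}
    (hξ : (algebraMap k L γ * ξ) ^ r = 1) (b : L) : b ^ l ≠ ξ := by
  intro hb
  set β : L := algebraMap k L γ * ξ with hβ
  have hγL : algebraMap k L γ ≠ 0 := by simpa using hγ0
  have hr0 : r ≠ 0 := by
    rintro rfl
    rw [Nat.coprime_zero_left] at hr
    exact hl.one_lt.ne' hr
  have hβ0 : β ≠ 0 := by
    intro h
    rw [h, zero_pow hr0] at hξ
    exact zero_ne_one hξ
  have hξ0 : ξ ≠ 0 := by
    intro h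
    rw [hβ, h, mul_zero] at hβ0
    exact hβ0 rfl
  have hb0 : b ≠ 0 := by
    intro h
    rw [h, zero_pow hl.ne_zero] at hb
    exact hξ0 hb.symm
  -- `β` is an `l`-th power
  obtain ⟨y, hy⟩ : ∃ y : L, y ^ l = β := by
    obtain ⟨s, t, ht⟩ := Nat.isCoprime_iff_coprime.mpr hr
    refine ⟨β ^ t, ?_⟩
    have h1 : β ^ (s * (r : ℤ) + t * (l : ℤ)) = β := by rw [ht, zpow_one]
    rw [zpow_add₀ hβ0, mul_comm s, zpow_mul, zpow_natCast, hξ, one_zpow, one_mul] at h1
    rw [← zpow_natCast, ← zpow_mul]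
    exact h1
  have hγp : (y / b) ^ l = algebraMap k L γ := by
    rw [div_pow, hy, hb, hβ, mul_div_assoc, div_self hξ0, mul_one]
  have hN := congrArg (Algebra.norm k) hγp
  rw [map_pow, Algebra.norm_algebraMap] at hN
  -- Bezout
  obtain ⟨s, t, hst⟩ := Nat.isCoprime_iff_coprime.mpr hdeg
  have h1 : γ ^ (s * (Module.finrank k L : ℤ) + t * (l : ℤ)) = γ := by rw [hst, zpow_one]
  rw [zpow_add₀ hγ0, mul_comm s, zpow_mul, zpow_natCast, ← hN, mul_comm t, zpow_mul,
    zpow_natCast] at h1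
  apply hγ ((Algebra.norm k (y / b)) ^ s * γ ^ t)
  rw [mul_pow]
  refine Eq.trans ?_ h1
  congr 1
  · rw [← zpow_natCast, ← zpow_natCast, ← zpow_mul, ← zpow_mul, mul_comm]
  · rw [← zpow_natCast, ← zpow_natCast, ← zpow_mul, ← zpow_mul, mul_comm]

/-- the Kummer step -/
theorem irreducible_comp_kummer {l : ℕ} (hl : l.Prime) (hl2 : l ≠ 2) {γ : k} (hγ0 : γ ≠ 0)
    (hγ : ∀ x : k, x ^ l ≠ γ) {m : k[X]} (hm : Irreducible m) {r : ℕ} (hr : r.Coprime l)
    (hmr : m ∣ X ^ r - 1) (hdeg : m.natDegree.Coprime l) (N : ℕ) :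
    Irreducible (m.comp (C γ * X ^ (l ^ N))) := by
  classical
  have hm0 : m ≠ 0 := hm.ne_zero
  -- the linear substitution
  let _ : Invertible γ := invertibleOfNonzero hγ0
  have hlin : Irreducible (m.comp (C γ * X)) := by
    have h1 := (MulEquiv.irreducible_iff (algEquivCMulXAddC γ (0 : k))).mpr hm
    have h2 : algEquivCMulXAddC γ (0 : k) m = m.comp (C γ * X) := by
      rw [algEquivCMulXAddC_apply, C_0, add_zero, comp_eq_aeval]
    rwa [h2] at h1
  have hdl : (m.comp (C γ * X)).natDegree = m.natDegree := by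
    rw [natDegree_comp, natDegree_C_mul_X _ hγ0, mul_one]
  set f₀ : k[X] := m.comp (C γ * X) with hf₀
  have hf₀0 : f₀ ≠ 0 := hlin.ne_zero
  set c : k := f₀.leadingCoeff with hc
  have hc0 : c ≠ 0 := leadingCoeff_ne_zero.mpr hf₀0
  set f : k[X] := f₀ * C c⁻¹ with hf
  have hfm : f.Monic := monic_mul_leadingCoeff_inv hf₀0
  have hfu : IsUnit (C c⁻¹ : k[X]) := isUnit_C.mpr (isUnit_iff_ne_zero.mpr (inv_ne_zero hc0))
  have hfi : Irreducible f := (irreducible_mul_isUnit hfu).mpr hlin
  have hfd : f.natDegree = m.natDegree := by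
    rw [hf, natDegree_mul_C (inv_ne_zero hc0), hdl]
  have hcomp : Irreducible (f.comp (X ^ (l ^ N))) := by
    refine irreducible_comp hfm (monic_X_pow _) hfi ?_
    intro E _ _ x hx
    rw [Polynomial.map_pow, map_X]
    have hint : IsIntegral k x := by
      by_contra hcon
      rw [minpoly.eq_zero hcon] at hx
      exact hfm.ne_zero hx.symm
    have : FiniteDimensional k k⟮x⟯ := IntermediateField.adjoin.finiteDimensional hint
    have hfr : Module.finrank k k⟮x⟯ = m.natDegree := by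
      rw [IntermediateField.adjoin.finrank hint, hx, hfd]
    refine X_pow_sub_C_irreducible_of_prime_pow hl hl2 N (fun b => ?_)
    refine exk_no_root hl hγ0 hγ (by rw [hfr]; exact hdeg) hr ?_ b
    -- `γ ξ` is a root of `m`
    have h1 : aeval (IntermediateField.AdjoinSimple.gen k x) f = 0 := by
      rw [← hx, ← IntermediateField.minpoly_gen]
      exact minpoly.aeval _ _
    have h2 : aeval (IntermediateField.AdjoinSimple.gen k x) f₀ = 0 := by
      rw [hf, map_mul, aeval_C] at h1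
      rcases mul_eq_zero.mp h1 with h3 | h3
      · exact h3
      · exfalso
        have h4 : (algebraMap k k⟮x⟯) c⁻¹ ≠ 0 := by
          rw [Ne, map_eq_zero]; exact inv_ne_zero hc0
        exact h4 h3
    rw [hf₀, aeval_comp, map_mul, aeval_C, aeval_X] at h2
    obtain ⟨q, hq⟩ := hmr
    have h3 : aeval (algebraMap k k⟮x⟯ γ * IntermediateField.AdjoinSimple.gen k x)
        (X ^ r - 1 : k[X]) = 0 := by
      rw [hq, map_mul, h2, zero_mul]
    rw [map_sub, map_pow, aeval_X, map_one, sub_eq_zero] at h3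
    exact h3
  have hfin : f.comp (X ^ (l ^ N)) = m.comp (C γ * X ^ (l ^ N)) * C c⁻¹ := by
    rw [hf, hf₀, mul_comp, C_comp, comp_assoc, mul_comp, C_comp, X_comp]
  rw [hfin] at hcomp
  exact (irreducible_mul_isUnit hfu).mp hcomp

end Pool.Agent.BSDFF.Odd
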