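import Pool.Agent.Lib.MP_48b749_nt.Odd.Defs
import Pool.Agent.Lib.MP_48b749_nt.Odd.ExAS
import Pool.Agent.Lib.MP_48b749_nt.Odd.ExKum

/-!
Module EXG. Existence: the polynomials `γ (X ^ p - X + c) ^ m` over fields with an odd prime factor
of `q - 1`.
-/

set_option autoImplicit false

open Polynomial

namespace Pool.Agent.BSDFF.Odd

variable {k : Type} [Field k] [Finite k]

/-- if `l` divides `y + 1` and `l` is odd, then `l ^ j` divides `y ^ (l ^ j) + 1` -/
lemma pow_dvd_pow_add_one {l : ℕ} (hl : l.Prime) (hl2 : l ≠ 2) {y : ℕ} (h : l ∣ y + 1) (j : ℕ) :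
    l ^ j ∣ y ^ (l ^ j) + 1 := by
  have h1 : ((l : ℕ) : ℤ) ∣ (y : ℤ) - (-1) := by
    have : ((l : ℕ) : ℤ) ∣ ((y + 1 : ℕ) : ℤ) := Int.natCast_dvd_natCast.mpr h
    simpa using this
  have h2 := dvd_sub_pow_of_dvd_sub h1 j
  have hodd : Odd (l ^ j) := (hl.odd_of_ne_two hl2).pow
  rw [hodd.neg_one_pow, sub_neg_eq_add] at h2
  have h3 : ((l ^ j : ℕ) : ℤ) ∣ ((y ^ (l ^ j) + 1 : ℕ) : ℤ) := by
    push_cast
    exact (pow_dvd_pow _ (Nat.le_succ j)).trans h2
  exact Int.natCast_dvd_natCast.mp h3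

/-- the degree of an irreducible factor of `X ^ r - 1` divides `M` if `r` divides `q ^ M - 1` -/
lemma natDegree_dvd_of_dvd {m : k[X]} (hm : Irreducible m) {r M : ℕ} (hr : m ∣ X ^ r - 1)
    (h : r ∣ Nat.card k ^ M - 1) : m.natDegree ∣ M := by
  apply hm.natDegree_dvd_of_dvd_X_pow_card_pow_sub_X
  have hpos : 0 < Nat.card k ^ M := Nat.pow_pos Nat.card_pos
  have e : (X ^ (Nat.card k ^ M) - X : k[X]) = X * (X ^ (Nat.card k ^ M - 1) - 1) := by
    rw [mul_sub, mul_one, ← pow_succ', Nat.sub_add_cancel hpos]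
  rw [e]
  refine (hr.trans ?_).mul_left X
  obtain ⟨s, hs⟩ := h
  rw [hs, pow_mul]
  exact sub_one_dvd_pow_sub_one _ s

omit [Finite k] in
/-- irreducibility of a scalar multiple -/
lemma irreducible_C_mul_iff {c : k} (hc : c ≠ 0) {f : k[X]} :
    Irreducible (C c * f) ↔ Irreducible f :=
  irreducible_isUnit_mul (isUnit_C.mpr (isUnit_iff_ne_zero.mpr hc))

omit [Finite k] in
/-- the next coefficient of a polynomial in `X ^ s` vanishes for `s ≥ 2` -/
lemma nextCoeff_expand {s : ℕ} (hs : 2 ≤ s) (f : k[X]) : (expand k s f).nextCoeff = 0 := by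
  rcases Nat.eq_zero_or_pos (expand k s f).natDegree with h0 | h0
  · rw [nextCoeff, if_pos h0]
  · rw [nextCoeff_of_natDegree_pos h0, coeff_expand (by omega), natDegree_expand]
    rw [natDegree_expand] at h0
    rw [if_neg]
    intro h1
    have h2 : s ∣ f.natDegree * s := Dvd.intro_left _ rfl
    have h3 := Nat.dvd_sub h2 h1
    have h4 : f.natDegree * s - (f.natDegree * s - 1) = 1 := by omega
    rw [h4] at h3
    have := Nat.dvd_one.mp h3
    omega

/-- existence over fields with an odd prime factor `l'` of `q - 1` -/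
theorem exists_oddNonsplit (p : ℕ) [Fact p.Prime] [CharP k p] (hp : p ≠ 2) {a l l' : ℕ}
    (ha : 0 < a) (hl : l.Prime) (hl2 : l ≠ 2) (hla : l ∣ p ^ a + 1) (hl' : l'.Prime) (hl'2 : l' ≠ 2)
    (hq : l' ∣ Nat.card k - 1) (hll : l' ≠ l) (hl'a : ¬ l' ∣ a) (hpa : ¬ p ∣ a) (j N : ℕ) :
    (∃ f : ℕ, l ^ j ∣ p ^ f + 1) ∧ ∃ (γ c : k) (m : ℕ), N ≤ m ∧ γ ≠ 0 ∧
      OddNonsplit (l ^ j) (C γ * (X ^ p - X + C c) ^ m) := by
  have hpp : p.Prime := Fact.out
  have hfdvd : l ^ j ∣ p ^ (a * l ^ j) + 1 := by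
    rw [pow_mul]
    exact pow_dvd_pow_add_one hl hl2 hla j
  refine ⟨⟨a * l ^ j, hfdvd⟩, ?_⟩
  -- the number of elements
  obtain ⟨h, hh, hcard⟩ : ∃ h : ℕ, 0 < h ∧ Nat.card k = p ^ h := by
    have := Fintype.ofFinite k
    obtain ⟨n, -, hn⟩ := FiniteField.card k p
    exact ⟨n, n.pos, by rw [Nat.card_eq_fintype_card, hn]⟩
  have hpl : p ≠ l := by
    rintro rfl
    have h1 : p ∣ 1 := (Nat.dvd_add_right (dvd_pow_self p ha.ne')).mp hla
    exact hpp.one_lt.ne' (Nat.dvd_one.mp h1)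
  have hpl' : p ≠ l' := by
    rintro rfl
    have h1 : p ∣ Nat.card k := by rw [hcard]; exact dvd_pow_self p hh.ne'
    have h2 := Nat.dvd_sub h1 hq
    have h3 : 0 < Nat.card k := Nat.card_pos
    have h4 : Nat.card k - (Nat.card k - 1) = 1 := by omega
    rw [h4] at h2
    exact hpp.one_lt.ne' (Nat.dvd_one.mp h2)
  -- `γ` is not an `l'`-th power
  obtain ⟨γ, hγ⟩ : ∃ γ : k, ∀ x : k, x ^ l' ≠ γ := by
    classical
    by_contra hcon
    push Not at hcon
    have hsurj : Function.Surjective (fun x : k => x ^ l') := fun y => hcon y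
    have hinj := Finite.injective_iff_surjective.mpr hsurj
    have := Fintype.ofFinite k
    have hcardu : l' ∣ Fintype.card kˣ := by
      rw [Fintype.card_units, ← Nat.card_eq_fintype_card]
      exact hq
    have : Fact l'.Prime := ⟨hl'⟩
    obtain ⟨ζ, hζ⟩ := exists_prime_orderOf_dvd_card l' hcardu
    have h1 : ζ ^ l' = 1 := by rw [← hζ]; exact pow_orderOf_eq_one ζ
    have h2 : (ζ : k) ^ l' = (1 : k) ^ l' := by
      rw [one_pow, ← Units.val_pow_eq_pow_val, h1, Units.val_one]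
    have h3 : (ζ : k) = 1 := hinj h2
    have h4 : ζ = 1 := Units.ext h3
    rw [h4, orderOf_one] at hζ
    exact hl'.one_lt.ne hζ
  have hγ0 : γ ≠ 0 := by
    rintro rfl
    exact hγ 0 (zero_pow hl'.ne_zero)
  -- `c` is not of the form `x ^ p - x`
  obtain ⟨c, hc⟩ : ∃ c : k, ∀ x : k, x ^ p - x ≠ c := by
    by_contra hcon
    push Not at hcon
    have hsurj : Function.Surjective (fun x : k => x ^ p - x) := fun y => hcon y
    have hinj := Finite.injective_iff_surjective.mpr hsurj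
    have h1 : (0 : k) = 1 := hinj (by simp [hpp.ne_zero])
    exact zero_ne_one h1
  refine ⟨γ, c, l' ^ (N + 1), ?_, hγ0, ?_⟩
  · exact (Nat.le_succ N).trans (Nat.lt_pow_self hl'.one_lt).le
  have hpodd : Odd p := hpp.odd_of_ne_two hp
  have hcomp : (C γ * (X ^ p - X + C c) ^ (l' ^ (N + 1)) : k[X]) =
      (C γ * X ^ (l' ^ (N + 1))).comp (X ^ p - X + C c) := by
    simp
  have hASdeg : (X ^ p - X + C c : k[X]).natDegree = p := by
    have e : (X ^ p - X + C c : k[X]) = X ^ p - (X - C c) := by ring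
    rw [e, natDegree_sub_eq_left_of_natDegree_lt, natDegree_X_pow]
    rw [natDegree_X_sub_C, natDegree_X_pow]
    exact hpp.one_lt
  constructor
  · refine ⟨γ, X ^ p - X + C c, l' ^ (N + 1), hγ0, ?_, ?_, (hl'.odd_of_ne_two hl'2).pow, rfl⟩
    · have h1 := irreducible_comp_as_of_trace p hc (irreducible_X : Irreducible (X : k[X])) monic_X
        (by rw [natDegree_X]; exact fun h5 => hpp.one_lt.ne' (Nat.dvd_one.mp h5))
        (by
          rw [nextCoeff_of_natDegree_pos (by rw [natDegree_X]; norm_num), natDegree_X]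
          simp)
      rwa [X_comp] at h1
    · rw [hASdeg]
      exact hpodd
  · intro m hm hmd
    -- the degree of `m`
    have hdeg : m.natDegree ∣ a * l ^ j * 2 := by
      apply natDegree_dvd_of_dvd hm hmd
      rw [hcard, ← pow_mul, mul_comm h, pow_mul]
      have h1 : l ^ j ∣ p ^ (a * l ^ j * 2) - 1 := by
        rw [pow_mul]
        set y := p ^ (a * l ^ j) with hy
        have e : y ^ 2 - 1 = (y + 1) * (y - 1) := by
          have := Nat.sq_sub_sq y 1
          rwa [one_pow] at this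
        rw [e]
        exact Dvd.dvd.mul_right hfdvd _
      exact h1.trans (Nat.sub_one_dvd_pow_sub_one _ h)
    have hcop : ∀ s : ℕ, s.Prime → s ≠ 2 → s ≠ l → ¬ s ∣ a → ¬ s ∣ m.natDegree := by
      intro s hs hs2 hsl hsa h5
      rcases (Nat.Prime.dvd_mul hs).mp (h5.trans hdeg) with h6 | h6
      · rcases (Nat.Prime.dvd_mul hs).mp h6 with h7 | h7
        · exact hsa h7
        · exact hsl ((Nat.prime_dvd_prime_iff_eq hs hl).mp (hs.dvd_of_dvd_pow h7))
      · exact hs2 ((Nat.prime_dvd_prime_iff_eq hs Nat.prime_two).mp h6)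
    have hdegl' : m.natDegree.Coprime l' :=
      ((Nat.Prime.coprime_iff_not_dvd hl').mpr (hcop l' hl' hl'2 hll hl'a)).symm
    have hdegp : ¬ p ∣ m.natDegree := hcop p hpp hp hpl hpa
    -- the Kummer step
    have hr : (l ^ j).Coprime l' :=
      (Nat.Coprime.pow_left j ((Nat.coprime_primes hl hl').mpr hll.symm))
    have hM := irreducible_comp_kummer hl' hl'2 hγ0 hγ hm hr hmd hdegl' (N + 1)
    rw [hcomp, ← comp_assoc]
    set M : k[X] := m.comp (C γ * X ^ (l' ^ (N + 1))) with hMdef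
    have hMexp : M = expand k (l' ^ (N + 1)) (m.comp (C γ * X)) := by
      rw [hMdef, expand_eq_comp_X_pow, comp_assoc]
      simp
    have hMdeg : M.natDegree = m.natDegree * l' ^ (N + 1) := by
      rw [hMdef, natDegree_comp, natDegree_C_mul_X_pow _ _ hγ0]
    have hM0 : M.leadingCoeff ≠ 0 := leadingCoeff_ne_zero.mpr hM.ne_zero
    -- normalise
    set M' : k[X] := C M.leadingCoeff⁻¹ * M with hM'
    have hM'irr : Irreducible M' := (irreducible_C_mul_iff (inv_ne_zero hM0)).mpr hM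
    have hM'mon : M'.Monic := by
      rw [Monic, hM', leadingCoeff_mul, leadingCoeff_C, inv_mul_cancel₀ hM0]
    have hM'deg : M'.natDegree = M.natDegree := natDegree_C_mul (inv_ne_zero hM0)
    have hs2 : 2 ≤ l' ^ (N + 1) :=
      hl'.two_le.trans (Nat.le_self_pow (Nat.succ_ne_zero N) l')
    have hM'exp : M' = expand k (l' ^ (N + 1)) (C M.leadingCoeff⁻¹ * m.comp (C γ * X)) := by
      rw [map_mul, expand_C, ← hMexp]
    have h1 := irreducible_comp_as_of_trace p hc hM'irr hM'mon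
      (by
        rw [hM'deg, hMdeg]
        intro h5
        rcases (Nat.Prime.dvd_mul hpp).mp h5 with h6 | h6
        · exact hdegp h6
        · exact hpl' ((Nat.prime_dvd_prime_iff_eq hpp hl').mp (hpp.dvd_of_dvd_pow h6)))
      (by rw [hM'exp]; exact nextCoeff_expand hs2 _)
    have e : M'.comp (X ^ p - X + C c) = C M.leadingCoeff⁻¹ * M.comp (X ^ p - X + C c) := by
      rw [hM', mul_comp, C_comp]
    rw [e] at h1
    exact (irreducible_C_mul_iff (inv_ne_zero hM0)).mp h1

end Pool.Agent.BSDFF.Odd
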