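import Pool.Agent.Lib.MP_48b749_nt.Odd.Fac

/-!
Module EXN. The number of irreducible factors of `X ^ (l ^ j) - 1` over a finite field; the
arithmetic of `q`.
-/

set_option autoImplicit false

open Polynomial

namespace Pool.Agent.BSDFF.Odd

variable {k : Type} [Field k] [Finite k]

omit [Finite k] in
private theorem cyc_mul_dvd {n a b : ℕ} (hn : n ≠ 0) (ha : a ∣ n) (hb : b ∣ n) (hab : a ≠ b) :
    cyclotomic a k * cyclotomic b k ∣ X ^ n - 1 := by
  rw [← prod_cyclotomic_eq_X_pow_sub_one (Nat.pos_of_ne_zero hn) k, ← Finset.prod_pair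
    (f := fun i => cyclotomic i k) hab]
  refine Finset.prod_dvd_prod_of_subset _ _ _ ?_
  intro c hc
  rw [Nat.mem_divisors]
  rcases Finset.mem_insert.1 hc with h | h
  · exact ⟨h ▸ ha, hn⟩
  · exact ⟨(Finset.mem_singleton.1 h) ▸ hb, hn⟩

omit [Finite k] in
private theorem cyc_dvd {n a : ℕ} (ha : a ∣ n) : cyclotomic a k ∣ X ^ n - 1 := by
  refine (cyclotomic.dvd_X_pow_sub_one a k).trans ?_
  obtain ⟨c, rfl⟩ := ha
  rw [pow_mul]
  exact sub_one_dvd_pow_sub_one _ _

/-- there are at least `j + 1` factors -/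
theorem le_numFactors {l : ℕ} (hl : l.Prime) (hlk : (l : k) ≠ 0) (j : ℕ) :
    j + 1 ≤ numFactors k (l ^ j) := by
  classical
  have hn : ((l ^ j : ℕ) : k) ≠ 0 := by
    rw [Nat.cast_pow]
    exact pow_ne_zero _ hlk
  have hn0 : l ^ j ≠ 0 := pow_ne_zero _ hl.ne_zero
  obtain ⟨T, hT, hcard, -⟩ := exists_factors (k := k) hn
  rw [← hcard]
  have hex : ∀ i : ℕ, ∃ m : k[X], m.Monic ∧ Irreducible m ∧ m ∣ cyclotomic (l ^ i) k := by
    intro i
    refine exists_monic_irreducible_factor _ ?_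
    refine not_isUnit_of_degree_pos _ ?_
    exact degree_cyclotomic_pos _ _ (pow_pos hl.pos i)
  choose m hm1 hm2 hm3 using hex
  have hsq : Squarefree (X ^ (l ^ j) - 1 : k[X]) :=
    (X_pow_sub_one_separable_iff.2 hn).squarefree
  have hdv : ∀ i, i ≤ j → l ^ i ∣ l ^ j := fun i hi => pow_dvd_pow l hi
  have hinj : Set.InjOn m (Finset.range (j + 1) : Set ℕ) := by
    intro a ha b hb hab
    by_contra hne
    have ha' : a ≤ j := Nat.lt_succ_iff.1 (Finset.mem_range.1 (Finset.mem_coe.1 ha))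
    have hb' : b ≤ j := Nat.lt_succ_iff.1 (Finset.mem_range.1 (Finset.mem_coe.1 hb))
    have h1 : l ^ a ≠ l ^ b := fun h => hne (Nat.pow_right_injective hl.two_le h)
    have h2 : m a * m a ∣ X ^ (l ^ j) - 1 := by
      refine (mul_dvd_mul (hm3 a) ?_).trans (cyc_mul_dvd hn0 (hdv a ha') (hdv b hb') h1)
      rw [hab]
      exact hm3 b
    exact (hm2 a).not_isUnit (hsq _ h2)
  calc j + 1 = (Finset.range (j + 1)).card := (Finset.card_range _).symm
    _ ≤ T.card := by
      refine Finset.card_le_card_of_injOn m (fun i hi => ?_) hinj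
      rw [Finset.mem_coe, hT]
      exact ⟨hm1 i, hm2 i, (hm3 i).trans (cyc_dvd (hdv i (Nat.lt_succ_iff.1
        (Finset.mem_range.1 hi))))⟩

private theorem order_dvd {q : ℕ} (h : q % 9 = 2 ∨ q % 9 = 5) (i m : ℕ) (hm : m ≠ 0)
    (hq : 3 ^ (i + 1) ∣ q ^ m - 1) : 2 * 3 ^ i ∣ m := by
  have hq3 : q % 3 = 2 := by omega
  have hq1 : 1 < q := by omega
  have hpos : ∀ n, 1 ≤ q ^ n := fun n => Nat.one_le_pow _ _ (by omega)
  have hev : Even m := by
    by_contra ho
    rw [Nat.not_even_iff_odd] at ho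
    obtain ⟨c, rfl⟩ := ho
    have h1 : 3 ∣ q ^ (2 * c + 1) - 1 := (dvd_pow_self 3 (Nat.succ_ne_zero i)).trans hq
    have h2 : q ^ (2 * c + 1) % 3 = 2 := by
      rw [pow_succ, pow_mul, Nat.mul_mod, Nat.pow_mod, Nat.pow_mod q 2, hq3]
      norm_num [Nat.one_mod]
    have := hpos (2 * c + 1)
    omega
  obtain ⟨c, hc⟩ := hev
  have hc' : m = 2 * c := by omega
  subst hc'
  have hc0 : c ≠ 0 := by omega
  refine Nat.mul_dvd_mul_left 2 ?_
  have : Fact (Nat.Prime 3) := ⟨Nat.prime_three⟩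
  have hqq : q ^ 2 % 9 = 4 ∨ q ^ 2 % 9 = 7 := by
    rcases h with h | h <;> rw [Nat.pow_mod, h] <;> norm_num
  have h3 := padicValNat.pow_sub_pow (p := 3) (x := q ^ 2) (y := 1) (by decide)
    (by nlinarith) (by omega) (by omega) hc0
  rw [one_pow, ← pow_mul] at h3
  have h4 : padicValNat 3 (q ^ 2 - 1) < 2 := by
    by_contra hcon
    rw [not_lt] at hcon
    have h5 := (padicValNat_dvd_iff_le (p := 3) (a := q ^ 2 - 1) (by omega)).2 hcon
    omega
  have h6 : q ^ (2 * c) - 1 ≠ 0 := by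
    have : 1 < q ^ (2 * c) := Nat.one_lt_pow (by omega) hq1
    omega
  have h7 := (padicValNat_dvd_iff_le h6).1 hq
  exact (padicValNat_dvd_iff_le hc0).2 (by omega)

private theorem cyc_irred (h : Nat.card k % 9 = 2 ∨ Nat.card k % 9 = 5) (i : ℕ) :
    Irreducible (cyclotomic (3 ^ i) k) := by
  classical
  rcases i with _ | i
  · rw [pow_zero, cyclotomic_one]
    exact irreducible_X_sub_C (1 : k)
  · have : Fintype k := Fintype.ofFinite k
    rw [Nat.card_eq_fintype_card] at h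
    obtain ⟨p, f, hp, hf, hcard⟩ : ∃ (p f : ℕ), p.Prime ∧ 0 < f ∧ Fintype.card k = p ^ f := by
      obtain ⟨p, hpc⟩ := CharP.exists k
      have := hpc
      obtain ⟨f, hpf⟩ := FiniteField.card k p
      exact ⟨p, f, hpf.1, f.pos, hpf.2⟩
    have : Fact p.Prime := ⟨hp⟩
    have hp3 : p ≠ 3 := by
      rintro rfl
      rw [hcard] at h
      have h1 : 3 ∣ 3 ^ f := dvd_pow_self 3 hf.ne'
      omega
    have hcop : p.Coprime (3 ^ (i + 1)) :=
      Nat.Coprime.pow_right _ ((Nat.coprime_primes hp Nat.prime_three).2 hp3)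
    refine irreducible_of_dvd_cyclotomic_of_natDegree hcard hcop dvd_rfl ?_
    rw [natDegree_cyclotomic, Nat.totient_prime_pow_succ Nat.prime_three]
    set u := ZMod.unitOfCoprime (p ^ f) (hcop.pow_left f) with hu
    have : NeZero (3 ^ (i + 1)) := ⟨by positivity⟩
    have hcardu : Nat.card (ZMod (3 ^ (i + 1)))ˣ = 3 ^ i * 2 := by
      rw [Nat.card_eq_fintype_card, ZMod.card_units_eq_totient,
        Nat.totient_prime_pow_succ Nat.prime_three]
    refine Nat.dvd_antisymm ?_ ?_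
    · have h0 : orderOf u ≠ 0 := (orderOf_pos u).ne'
      have h1 := order_dvd h i (orderOf u) h0 ?_
      · rw [mul_comm]
        exact h1
      · have h2 : (u : ZMod (3 ^ (i + 1))) ^ orderOf u = 1 := by
          rw [← Units.val_pow_eq_pow_val, pow_orderOf_eq_one, Units.val_one]
        rw [hu, ZMod.coe_unitOfCoprime, ← hu, ← hcard] at h2
        have h3 : 1 ≤ Fintype.card k ^ orderOf u := Nat.one_le_pow _ _ Fintype.card_pos
        rw [← ZMod.natCast_eq_zero_iff, Nat.cast_sub h3, Nat.cast_pow, h2, Nat.cast_one, sub_self]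
    · rw [← hcardu]
      exact orderOf_dvd_natCard u

/-- exactly `j + 1` factors of `X ^ (3 ^ j) - 1` if `q` is a primitive root modulo `9` -/
theorem numFactors_three (h : Nat.card k % 9 = 2 ∨ Nat.card k % 9 = 5) (j : ℕ) :
    numFactors k (3 ^ j) = j + 1 := by
  classical
  have h3 : ((3 : ℕ) : k) ≠ 0 := by
    intro h0
    have : Fintype k := Fintype.ofFinite k
    obtain ⟨p, f, hp, hf, hcard, hchar⟩ : ∃ (p f : ℕ), p.Prime ∧ 0 < f ∧ Fintype.card k = p ^ f ∧
        CharP k p := by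
      obtain ⟨p, hpc⟩ := CharP.exists k
      have := hpc
      obtain ⟨f, hpf⟩ := FiniteField.card k p
      exact ⟨p, f, hpf.1, f.pos, hpf.2, hpc⟩
    have h1 := (CharP.cast_eq_zero_iff k p 3).1 h0
    have h2 := (Nat.prime_dvd_prime_iff_eq hp Nat.prime_three).1 h1
    subst h2
    rw [Nat.card_eq_fintype_card, hcard] at h
    have h1 : 3 ∣ 3 ^ f := dvd_pow_self 3 hf.ne'
    omega
  refine le_antisymm ?_ (le_numFactors Nat.prime_three h3 j)
  have hn : ((3 ^ j : ℕ) : k) ≠ 0 := by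
    rw [Nat.cast_pow]
    exact pow_ne_zero _ h3
  obtain ⟨T, hT, hcard, -⟩ := exists_factors (k := k) hn
  rw [← hcard]
  have hsub : T ⊆ (Finset.range (j + 1)).image fun i => cyclotomic (3 ^ i) k := by
    intro m hm
    obtain ⟨hm1, hm2, hm3⟩ := (hT m).1 hm
    rw [← prod_cyclotomic_eq_X_pow_sub_one (pow_pos (by norm_num) j) k] at hm3
    obtain ⟨a, ha, hma⟩ := (Prime.dvd_finsetProd_iff hm2.prime _).1 hm3
    rw [Nat.mem_divisors] at ha
    obtain ⟨i, hi, rfl⟩ := (Nat.dvd_prime_pow Nat.prime_three).1 ha.1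
    rw [Finset.mem_image]
    refine ⟨i, Finset.mem_range.2 (Nat.lt_succ_of_le hi), ?_⟩
    exact (eq_of_monic_of_associated hm1 (cyclotomic.monic _ k)
      (hm2.associated_of_dvd (cyc_irred h i) hma)).symm
  refine (Finset.card_le_card hsub).trans (Finset.card_image_le.trans ?_)
  rw [Finset.card_range]

private theorem geom_factor {p h : ℕ} (hp5 : 5 ≤ p) (hpo : Odd p) (ho : Odd h) (h1 : h ≠ 1) :
    ∃ l : ℕ, l.Prime ∧ l ≠ 2 ∧ l ∣ p ^ h - 1 := by
  obtain ⟨S, hS⟩ : ∃ S, S = ∑ i ∈ Finset.range h, p ^ i := ⟨_, rfl⟩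
  have hSo : Odd S := by
    rw [hS, Finset.odd_sum_iff_odd_card_odd]
    have : (Finset.range h).filter (fun i => Odd (p ^ i)) = Finset.range h :=
      Finset.filter_true_of_mem fun i _ => hpo.pow
    rw [this, Finset.card_range]
    exact ho
  have hh : 2 < h := by
    rcases ho with ⟨c, hc⟩
    omega
  have hS1 : S ≠ 1 := by
    have h2 : 1 + p ≤ S := by
      calc 1 + p = ∑ i ∈ Finset.range 2, p ^ i := by
            rw [Finset.sum_range_succ, Finset.sum_range_one, pow_zero, pow_one]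
        _ ≤ S := by
            rw [hS]
            exact Finset.sum_le_sum_of_subset (Finset.range_mono hh.le)
    omega
  refine ⟨S.minFac, Nat.minFac_prime hS1, ?_, (Nat.minFac_dvd S).trans ?_⟩
  · intro h2
    have h3 := Nat.minFac_dvd S
    rw [h2] at h3
    rcases hSo with ⟨c, hc⟩
    omega
  · have hle : 1 ≤ p ^ h := Nat.one_le_pow _ _ (by omega)
    rw [← Int.natCast_dvd_natCast, Int.natCast_sub hle, hS]
    push_cast
    exact ⟨(p : ℤ) - 1, (geom_sum_mul (p : ℤ) h).symm⟩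

private theorem eq_two_of_dvd {p h l : ℕ} (hp : 0 < p) (hl : l.Prime) (ho : Odd h)
    (h1 : l ∣ p ^ h - 1) (h2 : l ∣ p ^ 2 + 1) : l = 2 := by
  have : Fact l.Prime := ⟨hl⟩
  have e1 : (p : ZMod l) ^ h = 1 := by
    have hle : 1 ≤ p ^ h := Nat.one_le_pow _ _ hp
    have h3 := (ZMod.natCast_eq_zero_iff _ _).2 h1
    rw [Nat.cast_sub hle, Nat.cast_pow, Nat.cast_one, sub_eq_zero] at h3
    exact h3
  have e2 : (p : ZMod l) ^ 2 = -1 := by
    have h3 := (ZMod.natCast_eq_zero_iff _ _).2 h2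
    rw [Nat.cast_add, Nat.cast_pow, Nat.cast_one] at h3
    exact eq_neg_of_add_eq_zero_left h3
  have e3 : (1 : ZMod l) = -1 := by
    calc (1 : ZMod l) = ((p : ZMod l) ^ h) ^ 2 := by rw [e1, one_pow]
      _ = ((p : ZMod l) ^ 2) ^ h := by rw [← pow_mul, ← pow_mul, mul_comm]
      _ = -1 := by rw [e2, ho.neg_one_pow]
  have e4 : ((2 : ℕ) : ZMod l) = 0 := by
    push_cast
    linear_combination e3
  have h3 := (ZMod.natCast_eq_zero_iff _ _).1 e4
  exact (Nat.prime_dvd_prime_iff_eq hl Nat.prime_two).1 h3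

private theorem sub_one_dvd' {p h : ℕ} (hp : 0 < p) : p - 1 ∣ p ^ h - 1 := by
  have := Nat.sub_dvd_pow_sub_pow p 1 h
  rwa [one_pow] at this

/-- either `q - 1` has an odd prime factor not dividing `p ^ 2 + 1`, or `q = p` and `p + 1` has an
odd prime factor -/
theorem exists_prime_factor (p h : ℕ) (hp : p.Prime) (hp5 : 5 ≤ p) (hh : 0 < h) :
    (∃ l : ℕ, l.Prime ∧ l ≠ 2 ∧ l ∣ p ^ h - 1 ∧ ¬ l ∣ p ^ 2 + 1) ∨
      (h = 1 ∧ ∃ l : ℕ, l.Prime ∧ l ≠ 2 ∧ l ∣ p + 1) := by
  have hpo : Odd p := hp.odd_of_ne_two (by omega)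
  by_cases hex : ∃ l : ℕ, l.Prime ∧ l ≠ 2 ∧ l ∣ p - 1
  · obtain ⟨l, hl, hl2, hd⟩ := hex
    refine Or.inl ⟨l, hl, hl2, hd.trans (sub_one_dvd' (by omega)), fun h2 => hl2 ?_⟩
    refine eq_two_of_dvd (h := 1) (by omega) hl odd_one ?_ h2
    rwa [pow_one]
  · have h4 : 4 ∣ p - 1 := by
      have h5 : p - 1 = 2 ^ (p - 1).primeFactorsList.length := by
        refine Nat.eq_prime_pow_of_unique_prime_dvd (by omega) ?_
        intro d hd hdp
        by_contra hd2
        exact hex ⟨d, hd, hd2, hdp⟩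
      rw [h5]
      refine pow_dvd_pow 2 (m := 2) ?_
      by_contra hlt
      rw [not_le] at hlt
      have h6 : 2 ^ (p - 1).primeFactorsList.length ≤ 2 ^ 1 :=
        Nat.pow_le_pow_right (by norm_num) (by omega)
      omega
    have hl : ∃ l : ℕ, l.Prime ∧ l ≠ 2 ∧ l ∣ p + 1 := by
      have h7 : (p + 1) / 2 ≠ 1 := by omega
      refine ⟨((p + 1) / 2).minFac, Nat.minFac_prime h7, ?_, ?_⟩
      · intro h8
        have h9 := Nat.minFac_dvd ((p + 1) / 2)
        rw [h8] at h9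
        omega
      · refine (Nat.minFac_dvd _).trans ⟨2, ?_⟩
        omega
    rcases Nat.even_or_odd h with he | ho
    · obtain ⟨l, hl1, hl2, hl3⟩ := hl
      refine Or.inl ⟨l, hl1, hl2, ?_, ?_⟩
      · obtain ⟨c, hc⟩ := he
        have h8 : p ^ h = (p ^ 2) ^ c := by rw [hc, ← pow_mul]; congr 1; ring
        have h9 : p ^ 2 - 1 = (p + 1) * (p - 1) := by
          have := Nat.sq_sub_sq p 1
          rwa [one_pow] at this
        rw [h8]
        refine (hl3.trans ?_).trans (sub_one_dvd' (by positivity))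
        rw [h9]
        exact dvd_mul_right _ _
      · intro h2
        have h8 : p ^ 2 + 1 = (p + 1) * (p - 1) + 2 := by
          have h9 : p ^ 2 - 1 = (p + 1) * (p - 1) := by
            have := Nat.sq_sub_sq p 1
            rwa [one_pow] at this
          have : 1 ≤ p ^ 2 := Nat.one_le_pow _ _ (by omega)
          omega
        rw [h8] at h2
        have h10 := (Nat.dvd_add_right (hl3.mul_right (p - 1))).1 h2
        exact hl2 ((Nat.prime_dvd_prime_iff_eq hl1 Nat.prime_two).1 h10)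
    · by_cases h1 : h = 1
      · exact Or.inr ⟨h1, hl⟩
      · obtain ⟨l, hl1, hl2, hl3⟩ := geom_factor hp5 hpo ho h1
        exact Or.inl ⟨l, hl1, hl2, hl3, fun h2 => hl2 (eq_two_of_dvd (by omega) hl1 ho hl3 h2)⟩

/-- for `q = 2, 5` modulo `9`: `p = 2` modulo `3`, and `q = p` if `q - 1` has no odd prime factor -/
theorem mod_nine (p h : ℕ) (hp : p.Prime) (hp5 : 5 ≤ p) (hq : p ^ h % 9 = 2 ∨ p ^ h % 9 = 5) :
    3 ∣ p + 1 ∧ ((∃ l : ℕ, l.Prime ∧ l ≠ 2 ∧ l ≠ 3 ∧ l ∣ p ^ h - 1) ∨ h = 1) := by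
  have hpo : Odd p := hp.odd_of_ne_two (by omega)
  have hq3 : p ^ h % 3 = 2 := by omega
  have hp3 : p % 3 = 2 := by
    have h0 : p % 3 = 0 ∨ p % 3 = 1 ∨ p % 3 = 2 := by omega
    rcases h0 with h0 | h0 | h0
    · exfalso
      have h1 : 3 ∣ p := Nat.dvd_of_mod_eq_zero h0
      have := (Nat.prime_dvd_prime_iff_eq Nat.prime_three hp).1 h1
      omega
    · rw [Nat.pow_mod, h0, one_pow] at hq3
      omega
    · exact h0
  have ho : Odd h := by
    by_contra he
    rw [Nat.not_odd_iff_even] at he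
    obtain ⟨c, hc⟩ := he
    have h8 : p ^ h = (p ^ 2) ^ c := by rw [hc, ← pow_mul]; congr 1; ring
    rw [h8, Nat.pow_mod, Nat.pow_mod p 2, hp3] at hq3
    norm_num at hq3
  refine ⟨by omega, ?_⟩
  by_cases h1 : h = 1
  · exact Or.inr h1
  · obtain ⟨l, hl1, hl2, hl3⟩ := geom_factor hp5 hpo ho h1
    refine Or.inl ⟨l, hl1, hl2, ?_, hl3⟩
    rintro rfl
    omega

end Pool.Agent.BSDFF.Odd
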