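import Pool.Agent.Lib.MP_48b749_nt.Odd.ExGen

/-!
Module EXP. Existence over prime fields: the polynomial `X ^ p - X - 1`.
-/

set_option autoImplicit false

open Polynomial

namespace Pool.Agent.BSDFF.Odd

/-- arithmetic: if `l ^ i` divides `p ^ M - 1` and not `p + 1`, then `M = 2 l N'` and `l ^ (i - 1)`
divides `p ^ (2 N') - 1` -/
lemma exponent_step {p l : ℕ} (hp2 : 2 ≤ p) (hl : l.Prime) (hl2 : l ≠ 2) (hlp : l ∣ p + 1)
    {i M : ℕ} (hM : 0 < M) (hi : 0 < i) (h : l ^ i ∣ p ^ M - 1) (hn : ¬ l ^ i ∣ p + 1) :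
    ∃ N' : ℕ, 0 < N' ∧ M = 2 * N' * l ∧ l ^ (i - 1) ∣ p ^ (2 * N') - 1 := by
  have : Fact l.Prime := ⟨hl⟩
  have hlodd : Odd l := hl.odd_of_ne_two hl2
  have hl1 : l ∣ p ^ M - 1 := (dvd_pow_self l hi.ne').trans h
  have hlp1 : ¬ l ∣ p - 1 := by
    intro h5
    have h6 := Nat.dvd_sub hlp h5
    have h7 : p + 1 - (p - 1) = 2 := by omega
    rw [h7] at h6
    exact hl2 ((Nat.prime_dvd_prime_iff_eq hl Nat.prime_two).mp h6)
  have hlnp : ¬ l ∣ p := by
    intro h5
    have h6 : l ∣ 1 := (Nat.dvd_add_right h5).mp hlp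
    exact hl.one_lt.ne' (Nat.dvd_one.mp h6)
  -- `M` is even
  have heven : Even M := by
    rw [← Nat.not_odd_iff_even]
    intro hodd
    have h5 : l ∣ p ^ M + 1 := by
      have h6 := hodd.nat_add_dvd_pow_add_pow p 1
      rw [one_pow] at h6
      exact hlp.trans h6
    have h7 := Nat.dvd_sub h5 hl1
    have h8 : 0 < p ^ M := Nat.pow_pos (by omega)
    have h9 : p ^ M + 1 - (p ^ M - 1) = 2 := by omega
    rw [h9] at h7
    exact hl2 ((Nat.prime_dvd_prime_iff_eq hl Nat.prime_two).mp h7)
  obtain ⟨N, hN⟩ := heven.two_dvd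
  have hN0 : 0 < N := by omega
  have hP1 : 1 < p ^ 2 := Nat.one_lt_pow two_ne_zero (by omega)
  have hsq : p ^ 2 - 1 = (p + 1) * (p - 1) := by
    have := Nat.sq_sub_sq p 1
    rwa [one_pow] at this
  have hlP : l ∣ p ^ 2 - 1 := by
    rw [hsq]
    exact Dvd.dvd.mul_right hlp _
  have hlnP : ¬ l ∣ p ^ 2 := fun h5 => hlnp (hl.dvd_of_dvd_pow h5)
  have hLTE : ∀ s : ℕ, 0 < s → padicValNat l ((p ^ 2) ^ s - 1) =
      padicValNat l (p ^ 2 - 1) + padicValNat l s := by
    intro s hs
    have h5 := padicValNat.pow_sub_pow (p := l) hlodd hP1 hlP hlnP hs.ne'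
    rwa [one_pow] at h5
  have hne : ∀ s : ℕ, 0 < s → (p ^ 2) ^ s - 1 ≠ 0 := by
    intro s hs
    have : 1 < (p ^ 2) ^ s := Nat.one_lt_pow hs.ne' hP1
    omega
  have h1 : i ≤ padicValNat l ((p ^ 2) ^ N - 1) := by
    rw [← padicValNat_dvd_iff_le (hne N hN0), ← pow_mul, ← hN]
    exact h
  rw [hLTE N hN0] at h1
  by_cases hlN : l ∣ N
  · obtain ⟨N', hN'⟩ := hlN
    have hN'0 : 0 < N' := by
      rcases Nat.eq_zero_or_pos N' with h5 | h5
      · rw [h5] at hN'
        omega
      · exact h5
    refine ⟨N', hN'0, by rw [hN, hN']; ring, ?_⟩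
    rw [pow_mul, padicValNat_dvd_iff_le (hne N' hN'0), hLTE N' hN'0]
    rw [hN', padicValNat.mul hl.ne_zero hN'0.ne', padicValNat_self] at h1
    omega
  · exfalso
    rw [padicValNat.eq_zero_of_not_dvd hlN, add_zero] at h1
    apply hn
    rw [← padicValNat_dvd_iff_le (by omega), hsq] at h1
    refine (Nat.Coprime.dvd_mul_right ?_).mp h1
    exact Nat.Coprime.pow_left i ((Nat.Prime.coprime_iff_not_dvd hl).mpr hlp1)

/-- `l ^ i` divides `Y ^ l - 1` if `l ^ (i - 1)` divides `Y - 1` and `i ≥ 2` -/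
lemma dvd_pow_sub_one {l : ℕ} (hl : l.Prime) (hl2 : l ≠ 2) {i Y : ℕ} (hY : 1 < Y) (hi : 2 ≤ i)
    (h : l ^ (i - 1) ∣ Y - 1) : l ^ i ∣ Y ^ l - 1 := by
  have : Fact l.Prime := ⟨hl⟩
  have h1 : l ∣ Y - 1 := (dvd_pow_self l (by omega)).trans h
  have h2 : ¬ l ∣ Y := by
    intro h5
    have h6 := Nat.dvd_sub h5 h1
    have h7 : Y - (Y - 1) = 1 := by omega
    rw [h7] at h6
    exact hl.one_lt.ne' (Nat.dvd_one.mp h6)
  have h3 := padicValNat.pow_sub_pow (p := l) (hl.odd_of_ne_two hl2) hY h1 h2 hl.ne_zero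
  rw [one_pow, padicValNat_self] at h3
  have h4 : 1 < Y ^ l := Nat.one_lt_pow hl.ne_zero hY
  rw [padicValNat_dvd_iff_le (by omega), h3]
  rw [padicValNat_dvd_iff_le (by omega)] at h
  omega

variable {k : Type} [Field k] [Finite k]

/-- the condition on the trace of a root of unity of order a power of `l` -/
lemma trace_cond (p : ℕ) [Fact p.Prime] [CharP k p] (hp : p ≠ 2)
    (hcard : Nat.card k = p) {l : ℕ} (hl : l.Prime) (hl2 : l ≠ 2) (hlp : l ∣ p + 1) (j : ℕ)
    {m : k[X]} (hm : Irreducible m) (hmm : m.Monic) (hmd : m ∣ X ^ (l ^ j) - 1) :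
    (m.natDegree : k) * (-1) + m.nextCoeff ≠ 0 := by
  classical
  have hpp : p.Prime := Fact.out
  have h2 : (2 : k) ≠ 0 := by
    intro h
    have h5 : ((2 : ℕ) : k) = 0 := by exact_mod_cast h
    rw [CharP.cast_eq_zero_iff k p] at h5
    exact hp ((Nat.prime_dvd_prime_iff_eq hpp Nat.prime_two).mp h5)
  have hlodd : Odd (l ^ j) := (hl.odd_of_ne_two hl2).pow
  have : Fact (Irreducible m) := ⟨hm⟩
  have : CharP (AdjoinRoot m) p := charP_of_injective_algebraMap
    (algebraMap k (AdjoinRoot m)).injective p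
  set b : AdjoinRoot m := AdjoinRoot.root m with hb
  have hroot : ∀ f : k[X], aeval b f = 0 ↔ m ∣ f := by
    intro f
    rw [hb, AdjoinRoot.aeval_eq, AdjoinRoot.mk_eq_zero]
  have hbpow : ∀ s : ℕ, b ^ s = 1 ↔ m ∣ X ^ s - 1 := by
    intro s
    rw [← hroot]
    simp [sub_eq_zero]
  have hb1 : b ^ (l ^ j) = 1 := (hbpow _).mpr hmd
  have hb0 : b ≠ 0 := by
    intro h
    rw [h, zero_pow hlodd.pos.ne'] at hb1
    exact zero_ne_one hb1
  -- no root `-1`
  have hm1 : m.eval (-1) ≠ 0 := by
    intro h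
    obtain ⟨g, hg⟩ := hmd
    have h5 := congrArg (eval (-1 : k)) hg
    rw [eval_mul, h, zero_mul] at h5
    simp only [eval_sub, eval_pow, eval_X, eval_one] at h5
    rw [hlodd.neg_one_pow] at h5
    apply h2
    have : (2 : k) = -(-1 - 1) := by ring
    rw [this, h5, neg_zero]
  by_cases hA : b ^ (p + 1) = 1
  · -- the polynomial `X ^ 2 - c₀ X + 1`
    obtain ⟨c₀, hc₀⟩ : ∃ c₀ : k, algebraMap k (AdjoinRoot m) c₀ = b + b⁻¹ := by
      have h5 : b ^ p = b⁻¹ := by
        rw [pow_succ] at hA
        exact eq_inv_of_mul_eq_one_left hA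
      have h6 : (b + b⁻¹) ^ p = b + b⁻¹ := by
        rw [add_pow_char, inv_pow, h5, inv_inv, add_comm]
      have := Fintype.ofFinite k
      have hc : Fintype.card k = p := by rw [← Nat.card_eq_fintype_card]; exact hcard
      by_contra hcon
      push Not at hcon
      -- the polynomial `X ^ p - X` has at most `p` roots
      have hdeg : (X ^ p - X : (AdjoinRoot m)[X]).natDegree = p :=
        FiniteField.X_pow_card_sub_X_natDegree_eq _ hpp.one_lt
      have hne : (X ^ p - X : (AdjoinRoot m)[X]) ≠ 0 :=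
        FiniteField.X_pow_card_sub_X_ne_zero _ hpp.one_lt
      have hcard2 : (insert (b + b⁻¹)
          (Finset.univ.image (algebraMap k (AdjoinRoot m)))).card ≤ p := by
        rw [← hdeg]
        apply card_le_degree_of_subset_roots
        intro x hx
        rw [mem_roots hne, IsRoot.def]
        simp only [eval_sub, eval_pow, eval_X]
        rw [sub_eq_zero]
        rw [Finset.insert_val, Multiset.mem_ndinsert] at hx
        rcases hx with rfl | hx
        · exact h6
        · obtain ⟨y, -, rfl⟩ := Finset.mem_image.mp hx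
          rw [← map_pow]
          congr 1
          have := FiniteField.pow_card y
          rwa [hc] at this
      rw [Finset.card_insert_of_notMem, Finset.card_image_of_injective _
        (algebraMap k (AdjoinRoot m)).injective, Finset.card_univ, hc] at hcard2
      · omega
      · intro hx
        obtain ⟨y, -, hy⟩ := Finset.mem_image.mp hx
        exact hcon y hy
    have hg : m ∣ X ^ 2 - C c₀ * X + C 1 := by
      rw [← hroot]
      simp only [map_add, map_sub, map_mul, map_pow, aeval_X, aeval_C, hc₀, map_one]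
      field_simp
      ring
    have hgdeg : (X ^ 2 - C c₀ * X + C 1 : k[X]).natDegree = 2 := by
      compute_degree!
    have hgmon : (X ^ 2 - C c₀ * X + C 1 : k[X]).Monic := by
      monicity!
    have hle : m.natDegree ≤ 2 := by
      rw [← hgdeg]
      exact natDegree_le_of_dvd hg hgmon.ne_zero
    have hpos : 0 < m.natDegree := hm.natDegree_pos
    rcases Nat.lt_or_ge m.natDegree 2 with hlt | hge
    · have h1 : m.natDegree = 1 := by omega
      have hmX : m = X + C (m.coeff 0) := hmm.eq_X_add_C h1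
      -- `β = - m.coeff 0` is a root of unity with `β ^ 2 = 1`
      set β : k := -(m.coeff 0) with hβ
      have hbβ : b = algebraMap k (AdjoinRoot m) β := by
        have h5 : aeval b (X + C (m.coeff 0)) = 0 := (hroot _).mpr (dvd_of_eq hmX)
        simp only [map_add, aeval_X, aeval_C] at h5
        rw [hβ, map_neg]
        exact eq_neg_of_add_eq_zero_left h5
      have hβp : β ^ p = β := by
        have := Fintype.ofFinite k
        have h6 := FiniteField.pow_card β
        rwa [← Nat.card_eq_fintype_card, hcard] at h6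
      have h7 : β * β = 1 := by
        have h8 : algebraMap k (AdjoinRoot m) (β ^ (p + 1)) = algebraMap k (AdjoinRoot m) 1 := by
          rw [map_pow, ← hbβ, hA, map_one]
        have h9 := (algebraMap k (AdjoinRoot m)).injective h8
        rw [pow_succ, hβp] at h9
        exact h9
      have h8 : β = 1 := by
        rcases mul_self_eq_one_iff.mp h7 with h9 | h9
        · exact h9
        · exfalso
          apply hm1
          rw [hmX]
          simp only [eval_add, eval_neg, eval_X, eval_C]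
          have : m.coeff 0 = 1 := by
            rw [← neg_neg (m.coeff 0), ← hβ, h9, neg_neg]
          rw [this]
          ring
      rw [h1, nextCoeff_of_natDegree_pos hpos, h1]
      have : m.coeff (1 - 1) = -1 := by
        rw [Nat.sub_self, ← neg_neg (m.coeff 0), ← hβ, h8]
      rw [this]
      intro h9
      apply h2
      have e : (2 : k) = -(((1 : ℕ) : k) * (-1) + -1) := by push_cast; ring
      rw [e, h9, neg_zero]
    · have h1 : m.natDegree = 2 := by omega
      have hmg : m = X ^ 2 - C c₀ * X + C 1 :=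
        (eq_of_monic_of_dvd_of_natDegree_le hmm hgmon hg (by rw [hgdeg, h1])).symm
      intro h5
      apply hm1
      rw [nextCoeff_of_natDegree_pos hpos, h1] at h5
      have h6 : m.coeff (2 - 1) = -c₀ := by
        rw [hmg]
        simp [coeff_one, coeff_C]
      rw [h6] at h5
      rw [hmg]
      simp only [eval_add, eval_sub, eval_pow, eval_X, eval_mul, eval_C]
      push_cast at h5
      linear_combination -h5
  · -- the second case
    obtain ⟨i, hij, hi⟩ := (Nat.dvd_prime_pow hl).mp (orderOf_dvd_of_pow_eq_one hb1)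
    have hi2 : 2 ≤ i := by
      by_contra hcon
      apply hA
      have h5 : l ^ i ∣ p + 1 := by
        have : i = 0 ∨ i = 1 := by omega
        rcases this with rfl | rfl
        · rw [pow_zero]; exact one_dvd _
        · rwa [pow_one]
      rw [← hi] at h5
      exact orderOf_dvd_iff_pow_eq_one.mp h5
    have hni : ¬ l ^ i ∣ p + 1 := by
      intro h5
      rw [← hi] at h5
      exact hA (orderOf_dvd_iff_pow_eq_one.mp h5)
    have hmi : m ∣ X ^ (l ^ i) - 1 := by
      rw [← hbpow, ← hi]
      exact pow_orderOf_eq_one b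
    have hfin : Module.Finite k (AdjoinRoot m) := hmm.finite_adjoinRoot
    have hint : IsIntegral k (b ^ l) := Algebra.IsIntegral.isIntegral _
    have hord1 : orderOf (b ^ l) = l ^ (i - 1) := by
      rw [orderOf_pow_of_dvd hl.ne_zero (by rw [hi]; exact dvd_pow_self l (by omega)), hi]
      obtain ⟨i', rfl⟩ : ∃ i', i = i' + 1 := ⟨i - 1, by omega⟩
      rw [pow_succ, Nat.mul_div_cancel _ hl.pos, Nat.add_sub_cancel]
    set m1 : k[X] := minpoly k (b ^ l) with hm1def
    have hm1irr : Irreducible m1 := minpoly.irreducible hint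
    have hm1mon : m1.Monic := minpoly.monic hint
    have hm1root : ∀ f : k[X], aeval (b ^ l) f = 0 ↔ m1 ∣ f := fun f => (minpoly.dvd_iff).symm
    have hm1pow : ∀ s : ℕ, (b ^ l) ^ s = 1 ↔ m1 ∣ X ^ s - 1 := by
      intro s
      rw [← hm1root]
      simp [sub_eq_zero]
    -- degrees and divisibility
    have hXq : ∀ M : ℕ, (X ^ (p ^ M) - X : k[X]) = X * (X ^ (p ^ M - 1) - 1) := by
      intro M
      have : 0 < p ^ M := Nat.pow_pos hpp.pos
      rw [mul_sub, mul_one, ← pow_succ', Nat.sub_add_cancel this]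
    have hdvd_iff : ∀ M : ℕ, m.natDegree ∣ M ↔ l ^ i ∣ p ^ M - 1 := by
      intro M
      constructor
      · intro h5
        rw [hm.natDegree_dvd_iff_dvd_X_pow_card_pow_sub_X, hcard, hXq, ← hroot, map_mul,
          aeval_X] at h5
        rcases mul_eq_zero.mp h5 with h6 | h6
        · exact absurd h6 hb0
        · rw [← hi]
          rw [hroot, ← hbpow] at h6
          exact orderOf_dvd_of_pow_eq_one h6
      · intro h5
        apply natDegree_dvd_of_dvd hm hmi
        rw [hcard]
        exact h5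
    have hdvd1_iff : ∀ M : ℕ, m1.natDegree ∣ M ↔ l ^ (i - 1) ∣ p ^ M - 1 := by
      intro M
      constructor
      · intro h5
        rw [hm1irr.natDegree_dvd_iff_dvd_X_pow_card_pow_sub_X, hcard, hXq, ← hm1root, map_mul,
          aeval_X] at h5
        rcases mul_eq_zero.mp h5 with h6 | h6
        · exact absurd h6 (pow_ne_zero _ hb0)
        · rw [← hord1]
          rw [hm1root, ← hm1pow] at h6
          exact orderOf_dvd_of_pow_eq_one h6
      · intro h5
        refine natDegree_dvd_of_dvd (r := l ^ (i - 1)) hm1irr ?_ (by rw [hcard]; exact h5)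
        rw [← hm1pow, ← hord1]
        exact pow_orderOf_eq_one _
    have hn1pos : 0 < m1.natDegree := hm1irr.natDegree_pos
    have hnpos : 0 < m.natDegree := hm.natDegree_pos
    have hpM : ∀ M : ℕ, 0 < M → 1 < p ^ M := fun M hM => Nat.one_lt_pow hM.ne' hpp.one_lt
    have hA1 : m1.natDegree ∣ m.natDegree := by
      rw [hdvd1_iff]
      exact (pow_dvd_pow l (Nat.sub_le i 1)).trans ((hdvd_iff _).mp dvd_rfl)
    have hA2 : m.natDegree ∣ m1.natDegree * l := by
      rw [hdvd_iff, pow_mul]
      exact dvd_pow_sub_one hl hl2 (hpM _ hn1pos) hi2 ((hdvd1_iff _).mp dvd_rfl)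
    have hA3 : ¬ m.natDegree ∣ m1.natDegree := by
      intro h5
      rw [hdvd_iff] at h5
      obtain ⟨N', hN'0, hN', h6⟩ := exponent_step hpp.two_le hl hl2 hlp hn1pos (by omega) h5 hni
      rw [← hdvd1_iff] at h6
      have h7 := Nat.le_of_dvd (by omega) h6
      rw [hN'] at h7
      have h8 : 2 * N' * 2 ≤ 2 * N' * l := Nat.mul_le_mul_left _ hl.two_le
      omega
    have hdeg : m.natDegree = m1.natDegree * l := by
      obtain ⟨s, hs⟩ := hA1
      rw [hs] at hA2
      have h5 : s ∣ l := Nat.dvd_of_mul_dvd_mul_left hn1pos hA2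
      rcases (Nat.dvd_prime hl).mp h5 with rfl | rfl
      · exfalso
        apply hA3
        rw [hs, mul_one]
      · exact hs
    have hmexp : m = expand k l m1 := by
      symm
      apply eq_of_monic_of_dvd_of_natDegree_le hmm (hm1mon.expand hl.pos)
      · rw [← hroot, expand_aeval]
        exact minpoly.aeval k (b ^ l)
      · rw [natDegree_expand, hdeg]
    have hnext : m.nextCoeff = 0 := by
      rw [hmexp]
      exact nextCoeff_expand hl.two_le m1
    rw [hnext, add_zero]
    have hndvd : m.natDegree ∣ l ^ j * 2 := by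
      apply natDegree_dvd_of_dvd hm hmd
      rw [hcard, pow_mul]
      have h5 : (p ^ (l ^ j)) ^ 2 - 1 = (p ^ (l ^ j) + 1) * (p ^ (l ^ j) - 1) := by
        have := Nat.sq_sub_sq (p ^ (l ^ j)) 1
        rwa [one_pow] at this
      rw [h5]
      exact Dvd.dvd.mul_right (pow_dvd_pow_add_one hl hl2 hlp j) _
    intro h5
    rw [mul_neg, mul_one, neg_eq_zero, CharP.cast_eq_zero_iff k p] at h5
    rcases (Nat.Prime.dvd_mul hpp).mp (h5.trans hndvd) with h6 | h6
    · have h7 : p = l := (Nat.prime_dvd_prime_iff_eq hpp hl).mp (hpp.dvd_of_dvd_pow h6)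
      have h8 : p ∣ 1 := by
        rw [← h7] at hlp
        exact (Nat.dvd_add_right dvd_rfl).mp hlp
      exact hpp.one_lt.ne' (Nat.dvd_one.mp h8)
    · exact hp ((Nat.prime_dvd_prime_iff_eq hpp Nat.prime_two).mp h6)

/-- existence over prime fields, with `c = - 1` -/
theorem exists_oddNonsplit_prime (p : ℕ) [Fact p.Prime] [CharP k p] (hp : p ≠ 2)
    (hcard : Nat.card k = p) {l : ℕ} (hl : l.Prime) (hl2 : l ≠ 2) (hlp : l ∣ p + 1) (j : ℕ) :
    (∃ f : ℕ, l ^ j ∣ p ^ f + 1) ∧ OddNonsplit (l ^ j) (X ^ p - X + C (-1 : k)) := by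
  have hpp : p.Prime := Fact.out
  refine ⟨⟨l ^ j, pow_dvd_pow_add_one hl hl2 hlp j⟩, ?_, ?_⟩
  · refine ⟨1, X ^ p - X + C (-1 : k), 1, one_ne_zero, ?_, ?_, odd_one, by simp⟩
    · have h1 := irreducible_comp_as_prime p hcard (c := (-1 : k))
        (irreducible_X : Irreducible (X : k[X])) monic_X
        (by
          rw [nextCoeff_of_natDegree_pos (by rw [natDegree_X]; norm_num), natDegree_X]
          simp)
      rwa [X_comp] at h1
    · have hASdeg : (X ^ p - X + C (-1 : k) : k[X]).natDegree = p := by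
        have e : (X ^ p - X + C (-1 : k) : k[X]) = X ^ p - (X - C (-1 : k)) := by ring
        rw [e, natDegree_sub_eq_left_of_natDegree_lt, natDegree_X_pow]
        rw [natDegree_X_sub_C, natDegree_X_pow]
        exact hpp.one_lt
      rw [hASdeg]
      exact hpp.odd_of_ne_two hp
  · intro m hm hmd
    have hm0 : m.leadingCoeff ≠ 0 := leadingCoeff_ne_zero.mpr hm.ne_zero
    set m' : k[X] := C m.leadingCoeff⁻¹ * m with hm'
    have hm'irr : Irreducible m' := (irreducible_C_mul_iff (inv_ne_zero hm0)).mpr hm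
    have hm'mon : m'.Monic := by
      rw [Monic, hm', leadingCoeff_mul, leadingCoeff_C, inv_mul_cancel₀ hm0]
    have hm'd : m' ∣ X ^ (l ^ j) - 1 := by
      refine dvd_trans ⟨C m.leadingCoeff, ?_⟩ hmd
      rw [hm', mul_comm, ← mul_assoc, ← C_mul, mul_inv_cancel₀ hm0, C_1, one_mul]
    have h1 := irreducible_comp_as_prime p hcard (c := (-1 : k)) hm'irr hm'mon
      (trace_cond p hp hcard hl hl2 hlp j hm'irr hm'mon hm'd)
    rw [hm', mul_comp, C_comp] at h1
    exact (irreducible_C_mul_iff (inv_ne_zero hm0)).mp h1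

end Pool.Agent.BSDFF.Odd
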