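import Pool.Agent.Lib.MP_48b749_nt.Odd.RankSha
import Pool.Agent.Lib.MP_48b749_nt.Odd.ExGen
import Pool.Agent.Lib.MP_48b749_nt.Odd.ExPrime
import Pool.Agent.Lib.MP_48b749_nt.Odd.ExNum

/-!
Existence of members of arbitrarily large rank over every finite field of characteristic at least
five, and of every rank if the number of elements is `2` or `5` modulo `9`.
-/

set_option autoImplicit false

open Polynomial

namespace Pool.Agent.BSDFF.Odd

variable {k : Type} [Field k] [Finite k]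

lemma exists_card (p : ℕ) [hp : Fact p.Prime] [CharP k p] : ∃ h : ℕ, 0 < h ∧
    Nat.card k = p ^ h := by
  have := Fintype.ofFinite k
  obtain ⟨n, -, hn⟩ := FiniteField.card k p
  exact ⟨n, n.pos, by rw [Nat.card_eq_fintype_card, hn]⟩

theorem exists_large_rank (p : ℕ) [hp : Fact p.Prime] [CharP k p] (hp5 : 5 ≤ p) (R N : ℕ) :
    ∃ (f d : ℕ) (γ c : k) (m : ℕ), Odd d ∧ d ∣ p ^ f + 1 ∧
      OddNonsplit d (C γ * (X ^ p - X + C c) ^ m) ∧
      R ≤ algebraicRank (legendre ((C γ * (X ^ p - X + C c) ^ m) ^ d)) ∧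
      ((∃ l : ℕ, l.Prime ∧ l ≠ 2 ∧ l ∣ Nat.card k - 1) → N ≤ m) := by
  have hp2 : p ≠ 2 := by omega
  obtain ⟨h, hh, hcard⟩ := exists_card (k := k) p
  have key : ∀ (l f : ℕ) (γ c : k) (m : ℕ), l.Prime → l ≠ 2 → l ^ R ∣ p ^ f + 1 →
      (l : k) ≠ 0 → OddNonsplit (l ^ R) (C γ * (X ^ p - X + C c) ^ m) →
      R ≤ algebraicRank (legendre ((C γ * (X ^ p - X + C c) ^ m) ^ (l ^ R))) := by
    intro l f γ c m hl hl2 hf hlk hu
    have h1 := (rank_and_sha p f (l ^ R) hp2 ((hl.odd_of_ne_two hl2).pow) hf hu).2.1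
    have h2 := le_numFactors hl hlk R
    omega
  have hlk : ∀ l a : ℕ, l.Prime → l ∣ p ^ a + 1 → 0 < a → (l : k) ≠ 0 := by
    intro l a hl hla ha h0
    rw [CharP.cast_eq_zero_iff k p] at h0
    have h1 : p = l := (Nat.prime_dvd_prime_iff_eq hp.out hl).mp h0
    subst h1
    have h3 : p ∣ 1 := (Nat.dvd_add_right (dvd_pow_self p ha.ne')).mp hla
    exact hp.out.one_lt.ne' (Nat.dvd_one.mp h3)
  by_cases hex : ∃ l' : ℕ, l'.Prime ∧ l' ≠ 2 ∧ l' ∣ p ^ h - 1 ∧ ¬ l' ∣ p ^ 2 + 1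
  · obtain ⟨l', hl', hl'2, hq, hn⟩ := hex
    -- an odd prime factor of `p ^ 2 + 1`
    obtain ⟨l, hl, hl2, hla⟩ : ∃ l : ℕ, l.Prime ∧ l ≠ 2 ∧ l ∣ p ^ 2 + 1 := by
      have hodd : p % 2 = 1 := Nat.odd_iff.mp (hp.out.odd_of_ne_two hp2)
      have h4 : ¬ 4 ∣ p ^ 2 + 1 := by
        intro h5
        have : p % 4 = 1 ∨ p % 4 = 3 := by omega
        have h6 : (p ^ 2 + 1) % 4 = 0 := Nat.mod_eq_zero_of_dvd h5
        rw [Nat.add_mod, Nat.pow_mod] at h6
        rcases this with h7 | h7 <;> rw [h7] at h6 <;> norm_num at h6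
      have h2d : 2 ∣ p ^ 2 + 1 := by
        have h6 : p ^ 2 % 2 = 1 := by rw [Nat.pow_mod, hodd]
        omega
      obtain ⟨r, hr⟩ := h2d
      have hr1 : r ≠ 1 := by
        rintro rfl
        have : 25 ≤ p ^ 2 := by nlinarith
        omega
      obtain ⟨l, hl, hlr⟩ := Nat.exists_prime_and_dvd hr1
      refine ⟨l, hl, ?_, ?_⟩
      · rintro rfl
        obtain ⟨s, hs⟩ := hlr
        exact h4 ⟨s, by rw [hr, hs]; ring⟩
      · rw [hr]
        exact Dvd.dvd.mul_left hlr 2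
    have hll : l' ≠ l := by
      rintro rfl
      exact hn hla
    have hl'a : ¬ l' ∣ 2 := by
      intro h5
      exact hl'2 ((Nat.prime_dvd_prime_iff_eq hl' Nat.prime_two).mp h5)
    have hpa : ¬ p ∣ 2 := by
      intro h5
      exact hp2 ((Nat.prime_dvd_prime_iff_eq hp.out Nat.prime_two).mp h5)
    obtain ⟨⟨f, hf⟩, γ, c, m, hm, hγ, hu⟩ := exists_oddNonsplit p hp2 (by norm_num : 0 < 2) hl hl2
      hla hl' hl'2 (by rw [hcard]; exact hq) hll hl'a hpa R N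
    exact ⟨f, l ^ R, γ, c, m, (hl.odd_of_ne_two hl2).pow, hf, hu,
      key l f γ c m hl hl2 hf (hlk l 2 hl hla (by norm_num)) hu, fun _ => hm⟩
  · rcases exists_prime_factor p h hp.out hp5 hh with h5 | ⟨h1, l, hl, hl2, hlp⟩
    · exact absurd h5 hex
    · subst h1
      rw [pow_one] at hcard
      obtain ⟨⟨f, hf⟩, hu⟩ := exists_oddNonsplit_prime p hp2 hcard hl hl2 hlp R
      have he : (X ^ p - X + C (-1 : k)) = C 1 * (X ^ p - X + C (-1 : k)) ^ 1 := by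
        rw [C_1, one_mul, pow_one]
      rw [he] at hu
      refine ⟨f, l ^ R, 1, -1, 1, (hl.odd_of_ne_two hl2).pow, hf, hu,
        key l f 1 (-1) 1 hl hl2 hf (hlk l 1 hl (by rwa [pow_one]) one_pos) hu, ?_⟩
      rintro ⟨l', hl', hl'2, hl'q⟩
      exfalso
      apply hex
      refine ⟨l', hl', hl'2, by rwa [pow_one, ← hcard], ?_⟩
      intro h6
      rw [hcard] at hl'q
      have h7 : p ^ 2 + 1 = (p - 1) * (p + 1) + 2 := by
        obtain ⟨s, rfl⟩ : ∃ s, p = s + 1 := ⟨p - 1, by omega⟩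
        simp only [Nat.add_sub_cancel]
        ring
      rw [h7] at h6
      have h8 : l' ∣ 2 := (Nat.dvd_add_right (Dvd.dvd.mul_right hl'q _)).mp h6
      exact hl'2 ((Nat.prime_dvd_prime_iff_eq hl' Nat.prime_two).mp h8)

theorem exists_every_rank (p : ℕ) [hp : Fact p.Prime] [CharP k p] (hp5 : 5 ≤ p)
    (hq : Nat.card k % 9 = 2 ∨ Nat.card k % 9 = 5) (r N : ℕ) :
    ∃ (f : ℕ) (γ c : k) (m : ℕ), 3 ^ r ∣ p ^ f + 1 ∧
      OddNonsplit (3 ^ r) (C γ * (X ^ p - X + C c) ^ m) ∧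
      algebraicRank (legendre ((C γ * (X ^ p - X + C c) ^ m) ^ (3 ^ r))) = r ∧
      ((∃ l : ℕ, l.Prime ∧ l ≠ 2 ∧ l ∣ Nat.card k - 1) → N ≤ m) := by
  have hp2 : p ≠ 2 := by omega
  obtain ⟨h, hh, hcard⟩ := exists_card (k := k) p
  have hq' := hq
  rw [hcard] at hq'
  obtain ⟨h3, hor⟩ := mod_nine p h hp.out hp5 hq'
  have key : ∀ (f : ℕ) (γ c : k) (m : ℕ), 3 ^ r ∣ p ^ f + 1 →
      OddNonsplit (3 ^ r) (C γ * (X ^ p - X + C c) ^ m) →
      algebraicRank (legendre ((C γ * (X ^ p - X + C c) ^ m) ^ (3 ^ r))) = r := by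
    intro f γ c m hf hu
    have h1 := (rank_and_sha p f (3 ^ r) hp2 (Odd.pow (by decide)) hf hu).2.1
    have h2 := numFactors_three hq r
    omega
  by_cases hex : ∃ l' : ℕ, l'.Prime ∧ l' ≠ 2 ∧ l' ∣ Nat.card k - 1
  · obtain ⟨l', hl', hl'2, hl'q⟩ := hex
    have hl'3 : l' ≠ 3 := by
      rintro rfl
      have hpos : 0 < Nat.card k := Nat.card_pos
      omega
    have hl'a : ¬ l' ∣ 1 := by
      intro h5
      exact hl'.one_lt.ne' (Nat.dvd_one.mp h5)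
    have hpa : ¬ p ∣ 1 := by
      intro h5
      exact hp.out.one_lt.ne' (Nat.dvd_one.mp h5)
    obtain ⟨⟨f, hf⟩, γ, c, m, hm, hγ, hu⟩ := exists_oddNonsplit p hp2 (a := 1) one_pos
      Nat.prime_three (by norm_num) (by rwa [pow_one]) hl' hl'2 hl'q hl'3 hl'a hpa r N
    exact ⟨f, γ, c, m, hf, hu, key f γ c m hf hu, fun _ => hm⟩
  · have h1 : h = 1 := by
      rcases hor with ⟨l, hl, hl2, -, hlq⟩ | h1
      · exact absurd ⟨l, hl, hl2, by rwa [hcard]⟩ hex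
      · exact h1
    subst h1
    rw [pow_one] at hcard
    obtain ⟨⟨f, hf⟩, hu⟩ := exists_oddNonsplit_prime p hp2 hcard Nat.prime_three (by norm_num) h3 r
    have he : (X ^ p - X + C (-1 : k)) = C 1 * (X ^ p - X + C (-1 : k)) ^ 1 := by
      rw [C_1, one_mul, pow_one]
    rw [he] at hu
    exact ⟨f, 1, -1, 1, hf, hu, key f 1 (-1) 1 hf hu, fun h5 => absurd h5 hex⟩

end Pool.Agent.BSDFF.Odd
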