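import Pool.Agent.Lib.MP_48b749_nt.Odd.Defs

/-!
Module FA. Factorisation of polynomials modulo squares; the polynomials `m (u)`.
-/

set_option autoImplicit false

open Polynomial

namespace Pool.Agent.BSDFF.Odd

variable {k : Type} [Field k]

private theorem fa_mult_mul {π A B : k[X]} (hπ : Irreducible π) (hA : A ≠ 0) (hB : B ≠ 0) :
    multiplicity π (A * B) = multiplicity π A + multiplicity π B :=
  multiplicity_mul hπ.prime (FiniteMultiplicity.of_prime_left hπ.prime (mul_ne_zero hA hB))

open Classical in
/-- a polynomial with even multiplicity outside the finite set `T` of primes -/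
theorem exists_factorization (T : Finset k[X]) (hT : ∀ t ∈ T, Irreducible t)
    (hT2 : ∀ s ∈ T, ∀ t ∈ T, s ∣ t → s = t) {B : k[X]} (hB : B ≠ 0)
    (h : ∀ π : k[X], Irreducible π → (∀ t ∈ T, ¬ π ∣ t) → Even (multiplicity π B)) :
    ∃ (c : k) (M : k[X]), c ≠ 0 ∧ M ≠ 0 ∧
      B = C c * (∏ t ∈ T.filter (fun t => Odd (multiplicity t B)), t) * M ^ 2 := by
  obtain ⟨n, hn⟩ : ∃ n, B.natDegree = n := ⟨_, rfl⟩
  induction n using Nat.strong_induction_on generalizing B with
  | _ n ih =>
  by_cases hu : IsUnit B
  · obtain ⟨c, hc, hcB⟩ := Polynomial.isUnit_iff.mp hu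
    refine ⟨c, 1, hc.ne_zero, one_ne_zero, ?_⟩
    have h1 : T.filter (fun t => Odd (multiplicity t B)) = ∅ := by
      rw [Finset.filter_eq_empty_iff]
      intro t ht hodd
      rw [multiplicity_of_isUnit_right (hT t ht).not_isUnit hu] at hodd
      exact absurd hodd (by decide)
    rw [h1, hcB]; simp
  obtain ⟨π, hπ, hπB⟩ := WfDvdMonoid.exists_irreducible_factor hu hB
  by_cases hπT : ∃ t ∈ T, π ∣ t
  · obtain ⟨t, ht, hπt⟩ := hπT
    have hti := hT t ht
    have htB : t ∣ B := ((hπ.associated_of_dvd hti hπt).dvd_iff_dvd_left).1 hπB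
    obtain ⟨B1, hB1⟩ := htB
    have hB10 : B1 ≠ 0 := by rintro rfl; exact hB (by rw [hB1, mul_zero])
    have hdeg : B1.natDegree < n := by
      rw [← hn, hB1, natDegree_mul hti.ne_zero hB10]
      have := hti.natDegree_pos
      omega
    have hmt : multiplicity t B = multiplicity t B1 + 1 := by
      have h1 : multiplicity t t = 1 := by
        rw [(FiniteMultiplicity.of_prime_left hti.prime hti.ne_zero).multiplicity_eq_iff]
        refine ⟨by rw [pow_one], fun h2 => ?_⟩
        obtain ⟨r, hr⟩ := h2
        have h3 : t * 1 = t * (t * r) := by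
          rw [mul_one]
          calc t = t ^ (1 + 1) * r := hr
            _ = t * (t * r) := by ring
        exact hti.not_isUnit (IsUnit.of_mul_eq_one r (mul_left_cancel₀ hti.ne_zero h3).symm)
      rw [hB1, fa_mult_mul hti hti.ne_zero hB10, h1]
      ring
    have hms : ∀ s : k[X], Irreducible s → ¬ s ∣ t → multiplicity s B = multiplicity s B1 := by
      intro s hs hst
      rw [hB1, fa_mult_mul hs hti.ne_zero hB10, multiplicity_eq_zero.2 hst, zero_add]
    obtain ⟨c, M, hc, hM, hfac⟩ := ih B1.natDegree hdeg hB10 (by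
      intro τ hτ hτT
      rw [← hms τ hτ (hτT t ht)]
      exact h τ hτ hτT) rfl
    by_cases hodd : Odd (multiplicity t B1)
    · have hmem : t ∈ T.filter (fun t => Odd (multiplicity t B1)) :=
        Finset.mem_filter.2 ⟨ht, hodd⟩
      have hset : T.filter (fun t => Odd (multiplicity t B)) =
          (T.filter (fun t => Odd (multiplicity t B1))).erase t := by
        ext s
        rw [Finset.mem_erase, Finset.mem_filter, Finset.mem_filter]
        by_cases hst : s = t
        · subst hst
          rw [hmt, Nat.odd_add_one]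
          simp [hodd]
        · constructor
          · rintro ⟨h1, h2⟩
            rw [hms s (hT s h1) (fun h3 => hst (hT2 s h1 t ht h3))] at h2
            exact ⟨hst, h1, h2⟩
          · rintro ⟨_, h1, h2⟩
            rw [← hms s (hT s h1) (fun h3 => hst (hT2 s h1 t ht h3))] at h2
            exact ⟨h1, h2⟩
      refine ⟨c, t * M, hc, mul_ne_zero hti.ne_zero hM, ?_⟩
      rw [hset]
      calc B = t * B1 := hB1
        _ = t * (C c * (∏ t ∈ T.filter (fun t => Odd (multiplicity t B1)), t) * M ^ 2) := by
            rw [← hfac]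
        _ = C c * (∏ t ∈ (T.filter (fun t => Odd (multiplicity t B1))).erase t, t) *
              (t * M) ^ 2 := by
            rw [← Finset.mul_prod_erase _ (fun t => t) hmem]
            ring
    · have hnmem : t ∉ T.filter (fun t => Odd (multiplicity t B1)) := fun h1 =>
        hodd (Finset.mem_filter.1 h1).2
      have hset : T.filter (fun t => Odd (multiplicity t B)) =
          insert t (T.filter (fun t => Odd (multiplicity t B1))) := by
        ext s
        rw [Finset.mem_insert, Finset.mem_filter, Finset.mem_filter]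
        by_cases hst : s = t
        · subst hst
          rw [hmt, Nat.odd_add_one]
          simp [hodd, ht]
        · constructor
          · rintro ⟨h1, h2⟩
            rw [hms s (hT s h1) (fun h3 => hst (hT2 s h1 t ht h3))] at h2
            exact Or.inr ⟨h1, h2⟩
          · rintro (h1 | ⟨h1, h2⟩)
            · exact absurd h1 hst
            · rw [← hms s (hT s h1) (fun h3 => hst (hT2 s h1 t ht h3))] at h2
              exact ⟨h1, h2⟩
      refine ⟨c, M, hc, hM, ?_⟩
      rw [hset, Finset.prod_insert hnmem]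
      calc B = t * B1 := hB1
        _ = t * (C c * (∏ t ∈ T.filter (fun t => Odd (multiplicity t B1)), t) * M ^ 2) := by
            rw [← hfac]
        _ = C c * (t * ∏ t ∈ T.filter (fun t => Odd (multiplicity t B1)), t) * M ^ 2 := by ring
  · push Not at hπT
    have hev := h π hπ hπT
    have hfin : FiniteMultiplicity π B := FiniteMultiplicity.of_prime_left hπ.prime hB
    have hpos : 0 < multiplicity π B := by
      rw [Nat.pos_iff_ne_zero]
      intro h0
      exact (multiplicity_eq_zero.1 h0) hπB
    have h2 : 2 ≤ multiplicity π B := by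
      obtain ⟨j, hj⟩ := hev
      omega
    have hdvd : π ^ 2 ∣ B := (pow_dvd_pow π h2).trans (pow_multiplicity_dvd π B)
    obtain ⟨B1, hB1⟩ := hdvd
    have hB10 : B1 ≠ 0 := by rintro rfl; exact hB (by rw [hB1, mul_zero])
    have hπ2 : π ^ 2 ≠ 0 := pow_ne_zero 2 hπ.ne_zero
    have hdeg : B1.natDegree < n := by
      rw [← hn, hB1, natDegree_mul hπ2 hB10, natDegree_pow]
      have := hπ.natDegree_pos
      omega
    have hmev : ∀ s : k[X], Irreducible s → multiplicity s B =
        2 * multiplicity s π + multiplicity s B1 := by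
      intro s hs
      rw [hB1, fa_mult_mul hs hπ2 hB10, pow_two, fa_mult_mul hs hπ.ne_zero hπ.ne_zero]
      ring
    have hmT : ∀ t ∈ T, multiplicity t B = multiplicity t B1 := by
      intro t ht
      have h3 : ¬ t ∣ π := fun h3 =>
        hπT t ht ((hT t ht).associated_of_dvd hπ h3).symm.dvd
      rw [hmev t (hT t ht), multiplicity_eq_zero.2 h3]
      ring
    obtain ⟨c, M, hc, hM, hfac⟩ := ih B1.natDegree hdeg hB10 (by
      intro τ hτ hτT
      have h3 := h τ hτ hτT
      rw [hmev τ hτ] at h3
      exact (Nat.even_add.1 h3).1 (even_two_mul _)) rfl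
    refine ⟨c, π * M, hc, mul_ne_zero hπ.ne_zero hM, ?_⟩
    have hset : T.filter (fun t => Odd (multiplicity t B)) =
        T.filter (fun t => Odd (multiplicity t B1)) :=
      Finset.filter_congr fun t ht => by rw [hmT t ht]
    rw [hset]
    calc B = π ^ 2 * B1 := hB1
      _ = π ^ 2 * (C c * (∏ t ∈ T.filter (fun t => Odd (multiplicity t B1)), t) * M ^ 2) := by
          rw [← hfac]
      _ = C c * (∏ t ∈ T.filter (fun t => Odd (multiplicity t B1)), t) * (π * M) ^ 2 := by ring

/-- every nonzero rational function is a polynomial times a square -/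
theorem exists_poly_mul_sq (b : RatFunc k) (hb : b ≠ 0) :
    ∃ (B : k[X]) (c : RatFunc k), B ≠ 0 ∧ c ≠ 0 ∧ b = algebraMap k[X] (RatFunc k) B * c ^ 2 := by
  have hn : b.num ≠ 0 := RatFunc.num_ne_zero hb
  have hd : b.denom ≠ 0 := b.denom_ne_zero
  have hd' : algebraMap k[X] (RatFunc k) b.denom ≠ 0 := RatFunc.algebraMap_ne_zero hd
  refine ⟨b.num * b.denom, (algebraMap k[X] (RatFunc k) b.denom)⁻¹, mul_ne_zero hn hd,
    inv_ne_zero hd', ?_⟩
  conv_lhs => rw [← RatFunc.num_div_denom b]
  rw [map_mul]
  field_simp

/-- the monic irreducible factors of `X ^ d - 1` form a finite set, the set has `numFactors`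
elements, and its product is `X ^ d - 1` if `d` is not zero in `k` -/
theorem exists_factors {d : ℕ} (hd : (d : k) ≠ 0) :
    ∃ T : Finset k[X], (∀ m : k[X], m ∈ T ↔ m.Monic ∧ Irreducible m ∧ m ∣ X ^ d - 1) ∧
      T.card = numFactors k d ∧ ∏ m ∈ T, m = X ^ d - 1 := by
  classical
  have hd0 : d ≠ 0 := by rintro rfl; exact hd (by simp)
  have hmon : (X ^ d - 1 : k[X]).Monic := by
    have h1 := monic_X_pow_sub_C (1 : k) hd0
    rwa [map_one] at h1
  have hne : (X ^ d - 1 : k[X]) ≠ 0 := hmon.ne_zero
  have hsq : Squarefree (X ^ d - 1 : k[X]) :=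
    (Polynomial.X_pow_sub_one_separable_iff.2 hd).squarefree
  have hnd : (UniqueFactorizationMonoid.normalizedFactors (X ^ d - 1 : k[X])).Nodup :=
    (UniqueFactorizationMonoid.squarefree_iff_nodup_normalizedFactors hne).1 hsq
  have hmem : ∀ m : k[X],
      m ∈ (UniqueFactorizationMonoid.normalizedFactors (X ^ d - 1 : k[X])).toFinset ↔
        m.Monic ∧ Irreducible m ∧ m ∣ X ^ d - 1 := by
    intro m
    rw [Multiset.mem_toFinset, Polynomial.mem_normalizedFactors_iff hne]
    tauto
  refine ⟨(UniqueFactorizationMonoid.normalizedFactors (X ^ d - 1 : k[X])).toFinset, hmem, ?_, ?_⟩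
  · exact (Nat.subtype_card _ hmem).symm
  · have h1 : ∏ m ∈ (UniqueFactorizationMonoid.normalizedFactors (X ^ d - 1 : k[X])).toFinset, m =
        (UniqueFactorizationMonoid.normalizedFactors (X ^ d - 1 : k[X])).prod := by
      rw [Finset.prod_eq_multiset_prod, Multiset.map_id', Multiset.toFinset_val,
        Multiset.Nodup.dedup hnd]
    rw [h1]
    have h2 := leadingCoeff_mul_prod_normalizedFactors (X ^ d - 1 : k[X])
    rwa [hmon.leadingCoeff, map_one, one_mul] at h2

/-- distinct monic irreducible `m`, `m'` give coprime `m (u)`, `m' (u)` -/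
theorem isCoprime_comp {m m' : k[X]} (hm : m.Monic) (hm' : m'.Monic) (hi : Irreducible m)
    (hi' : Irreducible m') (hne : m ≠ m') (u : k[X]) : IsCoprime (m.comp u) (m'.comp u) := by
  have h1 : IsCoprime m m' := by
    refine (Irreducible.coprime_iff_not_dvd hi).2 fun h => hne ?_
    exact eq_of_monic_of_associated hm hm' (hi.associated_of_dvd hi' h)
  have h2 := h1.map (Polynomial.compRingHom u)
  rwa [Polynomial.coe_compRingHom_apply, Polynomial.coe_compRingHom_apply] at h2

end Pool.Agent.BSDFF.Odd
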