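import Pool.Agent.Lib.MP_48b749_nt.Odd.ExFinal

/-!
The statements of the hand-in `FixedFieldRanks`.
-/

set_option autoImplicit false

open Polynomial

namespace Pool.Agent.BSDFF

open Classical in
/-- `E : y ^ 2 = x (x + 1) (x + u ^ d)` is an elliptic curve over `k(t)` with non-constant
`j`-invariant, `E(k(t))` is finitely generated of rank `n - 1`, where `n` is the number of monic
irreducible factors of `X ^ d - 1` over `k`, and the `2`-torsion of the Tate-Shafarevich group of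
`E` is trivial. -/
def RankAndSha (k : Type) [Field k] (d : ℕ) (u : k[X]) : Prop :=
  (legendre (u ^ d)).Δ ≠ 0 ∧
  (∀ c : k, (legendre (u ^ d)).c₄ ^ 3 ≠ algebraMap k (RatFunc k) c * (legendre (u ^ d)).Δ) ∧
  AddGroup.FG (legendre (u ^ d)).toAffine.Point ∧
  algebraicRank (legendre (u ^ d)) + 1 = numFactors k d ∧
  ShaTwoTrivial k (algebraMap k[X] (RatFunc k) (u ^ d))

/-- The polynomial `γ (t ^ p - t + c) ^ m`. -/
noncomputable def asPoly {k : Type} [Field k] (p m : ℕ) (γ c : k) : k[X] :=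
  C γ * (X ^ p - X + C c) ^ m

/-- For all `R` and `N` there are an odd divisor `d` of some `p ^ f + 1` and a polynomial
`u = γ (t ^ p - t + c) ^ m` with `OddNonsplit d u` such that the rank of
`y ^ 2 = x (x + 1) (x + u ^ d)` is at least `R`, and `m ≥ N` if `q - 1` has an odd prime factor. -/
def LargeRanks (k : Type) [Field k] (p : ℕ) : Prop :=
  ∀ R N : ℕ, ∃ (f d m : ℕ) (γ c : k), Odd d ∧ d ∣ p ^ f + 1 ∧ OddNonsplit d (asPoly p m γ c) ∧
    R ≤ algebraicRank (legendre (asPoly p m γ c ^ d)) ∧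
    ((∃ l : ℕ, l.Prime ∧ l ≠ 2 ∧ l ∣ Nat.card k - 1) → N ≤ m)

/-- For all `r` and `N` there is a polynomial `u = γ (t ^ p - t + c) ^ m` with
`OddNonsplit (3 ^ r) u`, `3 ^ r` a divisor of some `p ^ f + 1`, such that the rank of
`y ^ 2 = x (x + 1) (x + u ^ (3 ^ r))` is `r`, and `m ≥ N` if `q - 1` has an odd prime factor. -/
def AllRanks (k : Type) [Field k] (p : ℕ) : Prop :=
  ∀ r N : ℕ, ∃ (f m : ℕ) (γ c : k), 3 ^ r ∣ p ^ f + 1 ∧ OddNonsplit (3 ^ r) (asPoly p m γ c) ∧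
    algebraicRank (legendre (asPoly p m γ c ^ (3 ^ r))) = r ∧
    ((∃ l : ℕ, l.Prime ∧ l ≠ 2 ∧ l ∣ Nat.card k - 1) → N ≤ m)

namespace Odd

theorem rankAndSha {k : Type} [Field k] [Finite k] (p f d : ℕ) [Fact p.Prime] [CharP k p]
    (hp5 : 5 ≤ p) (hd : Odd d) (hdf : d ∣ p ^ f + 1) {u : k[X]} (hu : OddNonsplit d u) :
    RankAndSha k d u := by
  have hp2 : p ≠ 2 := by omega
  have h2 : (2 : k) ≠ 0 := two_ne_zero_of_char p hp2
  have hd0 : d ≠ 0 := hd.pos.ne'
  have hudeg := natDegree_pos_of_oddNonsplit hu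
  have hw0 : u ^ d ≠ 0 := by
    apply pow_ne_zero
    rintro rfl
    simp at hudeg
  have hw1 : u ^ d ≠ 1 := by
    intro h
    have := congrArg natDegree h
    rw [natDegree_pow, natDegree_one] at this
    rcases Nat.mul_eq_zero.mp this with h5 | h5
    · exact hd0 h5
    · omega
  obtain ⟨h3, h4, h5⟩ := rank_and_sha p f d hp2 hd hdf hu
  exact ⟨legendre_Δ_ne_zero h2 hw0 hw1, fun c => legendre_j_nonconst hd0 h2 hu c, h3, h4, h5⟩

theorem largeRanks {k : Type} [Field k] [Finite k] (p : ℕ) [Fact p.Prime] [CharP k p]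
    (hp5 : 5 ≤ p) : LargeRanks k p := by
  intro R N
  obtain ⟨f, d, γ, c, m, h⟩ := exists_large_rank (k := k) p hp5 R N
  exact ⟨f, d, m, γ, c, h⟩

theorem allRanks {k : Type} [Field k] [Finite k] (p : ℕ) [Fact p.Prime] [CharP k p]
    (hp5 : 5 ≤ p) (hq : Nat.card k % 9 = 2 ∨ Nat.card k % 9 = 5) : AllRanks k p := by
  intro r N
  obtain ⟨f, γ, c, m, h⟩ := exists_every_rank (k := k) p hp5 hq r N
  exact ⟨f, m, γ, c, h⟩

end Odd

end Pool.Agent.BSDFF
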