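import Pool.Agent.Lib.MP_48b749_nt.Odd.PMap

/-!
Module FX. Galois descent from `L(w)`, `L` an algebraically closed field containing the finite field
`k`, to `k(s)`, `s = w ^ e`.
-/

set_option autoImplicit false

open Polynomial

namespace Pool.Agent.BSDFF.Odd

variable (k : Type) {L : Type} [Field k] [Finite k] [Field L] [Algebra k L]

/-- `x ↦ x ^ q` on the coefficients, `q` the number of elements of `k` -/
noncomputable def frobPoly (L : Type) [Field L] [Algebra k L] : L[X] →+* L[X] :=
  letI := Fintype.ofFinite k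
  mapRingHom ((FiniteField.frobeniusAlgHom k L : L →ₐ[k] L) : L →+* L)

/-- `X ↦ η X` -/
noncomputable def rotPoly (η : L) : L[X] →+* L[X] := compRingHom (C η * X)

/-- `X ↦ X ^ e`, from polynomials over `k` to polynomials over `L` -/
noncomputable def basePoly (L : Type) [Field L] [Algebra k L] (e : ℕ) : k[X] →+* L[X] :=
  (compRingHom (X ^ e : L[X])).comp (mapRingHom (algebraMap k L))

variable {k} in
private lemma fx_frob_coeff (p : L[X]) (i : ℕ) :
    (frobPoly k L p).coeff i = p.coeff i ^ Nat.card k := by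
  let := Fintype.ofFinite k
  simp [frobPoly, Nat.card_eq_fintype_card]

variable {k} in
theorem frobPoly_apply (c : L) : frobPoly k L (C c) = C (c ^ Nat.card k) ∧
    frobPoly k L (X : L[X]) = X := by
  let := Fintype.ofFinite k
  refine ⟨?_, ?_⟩
  · simp [frobPoly, Nat.card_eq_fintype_card]
  · simp [frobPoly]

theorem frobPoly_injective : Function.Injective (frobPoly k L) := by
  let := Fintype.ofFinite k
  exact Polynomial.map_injective _ (RingHom.injective _)

private lemma fx_rot_coeff (η : L) (p : L[X]) (i : ℕ) :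
    (rotPoly η p).coeff i = p.coeff i * η ^ i := by
  simp [rotPoly, coe_compRingHom_apply, comp_C_mul_X_coeff]

theorem rotPoly_injective {η : L} (hη : η ≠ 0) : Function.Injective (rotPoly η) := by
  intro p q h
  ext i
  have h1 := congrArg (fun r => r.coeff i) h
  simp only [fx_rot_coeff] at h1
  exact mul_right_cancel₀ (pow_ne_zero i hη) h1

private lemma fx_base_eq (e : ℕ) (p : k[X]) :
    basePoly k L e p = Polynomial.expand L e (p.map (algebraMap k L)) := by
  simp [basePoly, Polynomial.expand_eq_comp_X_pow]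

theorem basePoly_injective {e : ℕ} (he : e ≠ 0) : Function.Injective (basePoly k L e) := by
  intro p q h
  rw [fx_base_eq, fx_base_eq] at h
  exact Polynomial.map_injective _ (RingHom.injective _)
    (Polynomial.expand_injective (Nat.pos_of_ne_zero he) h)

/-- the elements of `L` fixed by `x ↦ x ^ q` come from `k` -/
private lemma fx_mem_range {c : L} (hc : c ^ Nat.card k = c) : c ∈ Set.range (algebraMap k L) := by
  classical
  let := Fintype.ofFinite k
  rw [Nat.card_eq_fintype_card] at hc
  have hq : 1 < Fintype.card k := Fintype.one_lt_card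
  have h0 : (X ^ Fintype.card k - X : L[X]) ≠ 0 := FiniteField.X_pow_card_sub_X_ne_zero L hq
  have hdeg : (X ^ Fintype.card k - X : L[X]).natDegree = Fintype.card k :=
    FiniteField.X_pow_card_sub_X_natDegree_eq L hq
  have hsub : (Finset.univ.image (algebraMap k L)) ⊆
      (X ^ Fintype.card k - X : L[X]).roots.toFinset := by
    intro x hx
    obtain ⟨y, -, rfl⟩ := Finset.mem_image.mp hx
    rw [Multiset.mem_toFinset, mem_roots h0, IsRoot.def]
    simp only [eval_sub, eval_pow, eval_X]
    rw [← map_pow, FiniteField.pow_card, sub_self]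
  have hcard : (X ^ Fintype.card k - X : L[X]).roots.toFinset.card ≤
      (Finset.univ.image (algebraMap k L)).card := by
    rw [Finset.card_image_of_injective _ (algebraMap k L).injective, Finset.card_univ]
    calc _ ≤ Multiset.card (X ^ Fintype.card k - X : L[X]).roots := Multiset.toFinset_card_le _
      _ ≤ (X ^ Fintype.card k - X : L[X]).natDegree := card_roots' _
      _ = Fintype.card k := hdeg
  have heq := Finset.eq_of_subset_of_card_le hsub hcard
  have hmem : c ∈ (X ^ Fintype.card k - X : L[X]).roots.toFinset := by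
    rw [Multiset.mem_toFinset, mem_roots h0, IsRoot.def]
    simp [hc]
  rw [← heq] at hmem
  obtain ⟨y, -, hy⟩ := Finset.mem_image.mp hmem
  exact ⟨y, hy⟩

/-- a polynomial fixed by the Frobenius of the coefficients, in `X ^ e` -/
private lemma fx_pull {e : ℕ} (he : e ≠ 0) (p : L[X]) (h1 : frobPoly k L p = p)
    (h2 : ∀ i, p.coeff i ≠ 0 → e ∣ i) : ∃ p0 : k[X], basePoly k L e p0 = p := by
  have h3 : contract e p ∈ lifts (algebraMap k L) := by
    rw [lifts_iff_coeff_lifts]
    intro n
    rw [coeff_contract he]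
    apply fx_mem_range k
    rw [← fx_frob_coeff (k := k), h1]
  obtain ⟨p0, hp0⟩ := (mem_lifts _).mp h3
  refine ⟨p0, ?_⟩
  rw [fx_base_eq, hp0]
  ext i
  rw [coeff_expand (Nat.pos_of_ne_zero he)]
  by_cases hi : e ∣ i
  · rw [if_pos hi, coeff_contract he, Nat.div_mul_cancel hi]
  · rw [if_neg hi]
    by_contra hne
    exact hi (h2 i (Ne.symm hne))

/-- numerator and denominator of a fixed rational function -/
private lemma fx_assoc (φ : L[X] →+* L[X]) (hφ : Function.Injective φ) (f : RatFunc L)
    (h : ratHom φ hφ f = f) : φ f.num * f.denom = f.num * φ f.denom ∧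
      f.denom ∣ φ f.denom ∧ φ f.denom ∣ f.denom := by
  have hd : algebraMap L[X] (RatFunc L) f.denom ≠ 0 :=
    (map_ne_zero_iff _ (IsFractionRing.injective L[X] (RatFunc L))).mpr f.denom_ne_zero
  have hd' : algebraMap L[X] (RatFunc L) (φ f.denom) ≠ 0 := by
    refine (map_ne_zero_iff _ (IsFractionRing.injective L[X] (RatFunc L))).mpr ?_
    exact (map_ne_zero_iff _ hφ).mpr f.denom_ne_zero
  have hf : algebraMap L[X] (RatFunc L) f.num / algebraMap L[X] (RatFunc L) f.denom = f :=
    RatFunc.num_div_denom f
  have h1 : algebraMap L[X] (RatFunc L) (φ f.num) / algebraMap L[X] (RatFunc L) (φ f.denom) =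
      algebraMap L[X] (RatFunc L) f.num / algebraMap L[X] (RatFunc L) f.denom := by
    rw [hf]
    conv_rhs => rw [← h, ← hf]
    rw [map_div₀, ratHom_algebraMap, ratHom_algebraMap]
  rw [div_eq_div_iff hd' hd] at h1
  have h2 : φ f.num * f.denom = f.num * φ f.denom := by
    apply IsFractionRing.injective L[X] (RatFunc L)
    rw [map_mul, map_mul]
    exact h1
  have hcop : IsCoprime f.num f.denom := f.isCoprime_num_denom
  have hcop' : IsCoprime (φ f.num) (φ f.denom) := hcop.map φ
  refine ⟨h2, ?_, ?_⟩
  · have : f.denom ∣ f.num * φ f.denom := ⟨φ f.num, by rw [← h2, mul_comm]⟩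
    exact hcop.symm.dvd_of_dvd_mul_left this
  · have : φ f.denom ∣ φ f.num * f.denom := ⟨f.num, by rw [h2, mul_comm]⟩
    exact hcop'.symm.dvd_of_dvd_mul_left this

/-- the rational functions fixed by the Frobenius of the coefficients and by `X ↦ η X` -/
theorem exists_of_fixed {e : ℕ} (he : e ≠ 0) {η : L} (hη : IsPrimitiveRoot η e) (hη0 : η ≠ 0)
    (f : RatFunc L) (h1 : ratHom (frobPoly k L) (frobPoly_injective k) f = f)
    (h2 : ratHom (rotPoly η) (rotPoly_injective hη0) f = f) :
    ∃ g : RatFunc k, f = ratHom (basePoly k L e) (basePoly_injective k he) g := by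
  -- the Frobenius
  have hF : frobPoly k L f.denom = f.denom := by
    obtain ⟨-, a, b⟩ := fx_assoc _ _ f h1
    have hm : (frobPoly k L f.denom).Monic := by
      let := Fintype.ofFinite k
      exact f.monic_denom.map _
    exact eq_of_monic_of_associated hm f.monic_denom (associated_of_dvd_dvd b a)
  have hFn : frobPoly k L f.num = f.num := by
    obtain ⟨a, -, -⟩ := fx_assoc _ _ f h1
    rw [hF] at a
    exact mul_right_cancel₀ f.denom_ne_zero a
  -- the rotation
  obtain ⟨ha, hb, hc⟩ := fx_assoc _ _ f h2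
  obtain ⟨v, hv⟩ := associated_of_dvd_dvd hb hc
  obtain ⟨c, hcu, hcv⟩ := Polynomial.isUnit_iff.mp v.isUnit
  have hR : rotPoly η f.denom = f.denom * C c := by rw [← hv, hcv]
  have hRn : rotPoly η f.num = f.num * C c := by
    rw [hR] at ha
    apply mul_right_cancel₀ f.denom_ne_zero
    rw [ha]; ring
  have hR' : ∀ i, f.denom.coeff i * η ^ i = f.denom.coeff i * c := by
    intro i; rw [← fx_rot_coeff, hR, coeff_mul_C]
  have hRn' : ∀ i, f.num.coeff i * η ^ i = f.num.coeff i * c := by
    intro i; rw [← fx_rot_coeff, hRn, coeff_mul_C]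
  have hc1 : c = 1 := by
    by_cases h0 : f.denom.coeff 0 = 0
    · have h0' : f.num.coeff 0 ≠ 0 := by
        intro h0'
        have hX : (X : L[X]) ∣ f.denom := X_dvd_iff.mpr h0
        have hX' : (X : L[X]) ∣ f.num := X_dvd_iff.mpr h0'
        exact not_isUnit_X (f.isCoprime_num_denom.isUnit_of_dvd' hX' hX)
      have := hRn' 0
      rw [pow_zero] at this
      exact (mul_left_cancel₀ h0' this).symm
    · have := hR' 0
      rw [pow_zero] at this
      exact (mul_left_cancel₀ h0 this).symm
  have hdvd : ∀ p : L[X], (∀ i, p.coeff i * η ^ i = p.coeff i * c) →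
      ∀ i, p.coeff i ≠ 0 → e ∣ i := by
    intro p hp i hi
    have := mul_left_cancel₀ hi (hp i)
    rw [hc1] at this
    exact hη.dvd_of_pow_eq_one i this
  obtain ⟨n0, hn0⟩ := fx_pull k he f.num hFn (hdvd _ hRn')
  obtain ⟨d0, hd0⟩ := fx_pull k he f.denom hF (hdvd _ hR')
  refine ⟨algebraMap k[X] (RatFunc k) n0 / algebraMap k[X] (RatFunc k) d0, ?_⟩
  rw [map_div₀, ratHom_algebraMap, ratHom_algebraMap, hn0, hd0]
  exact (RatFunc.num_div_denom f).symm

end Pool.Agent.BSDFF.Odd
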