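import Pool.Agent.Lib.MP_48b749_nt.Odd.Defs

/-!
Module LA. Local analysis of the `2`-coverings of `y ^ 2 = x (x + 1) (x + w)` over a valued
field `L` in which the subfield `K` is dense.
-/

set_option autoImplicit false

open Polynomial

namespace Pool.Agent.BSDFF.Odd

variable {K L Γ : Type} [Field K] [Field L] [LinearOrderedCommGroupWithZero Γ]

/-- Every nonzero element of `L` is close to an element of `K`. -/
def Close (V : Valuation L Γ) (j : K →+* L) : Prop :=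
  ∀ x : L, x ≠ 0 → ∃ a : K, V (x - j a) < V x

/-- `b` is close to the square of an element of `K`. -/
def NearSquare (V : Valuation L Γ) (j : K →+* L) (b : K) : Prop :=
  ∃ c : K, V (j b - j c ^ 2) < V (j b)

private theorem LA_sq (V : Valuation L Γ) {b z y : L} (hy : y ≠ 0)
    (h : V (b * z ^ 2) = V (y ^ 2)) : IsSquare (V b) := by
  have hy' : V y ≠ 0 := (Valuation.ne_zero_iff V).2 hy
  have hz : V z ≠ 0 := by
    intro hz
    rw [map_mul, map_pow, map_pow, hz] at h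
    apply hy'
    have : V y ^ 2 = 0 := by rw [← h]; simp
    exact pow_eq_zero_iff (two_ne_zero) |>.1 this
  rw [map_mul, map_pow, map_pow] at h
  refine ⟨V y / V z, ?_⟩
  rw [div_mul_div_comm, ← pow_two, ← pow_two, eq_div_iff (pow_ne_zero 2 hz), h]

private theorem LA_sq_left (V : Valuation L Γ) {a b : L} (ha : a ≠ 0)
    (h1 : IsSquare (V a)) (h2 : IsSquare (V (a * b))) : IsSquare (V b) := by
  have ha' : V a ≠ 0 := (Valuation.ne_zero_iff V).2 ha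
  have : V b = V (a * b) / V a := by
    rw [map_mul, mul_div_assoc, mul_comm, div_mul_cancel₀ _ ha']
  rw [this]
  exact h2.div h1

private theorem LA_not_all {w b₁ b₂ z₀ z₁ z₂ z₃ : L} (hb₁ : b₁ ≠ 0) (hb₂ : b₂ ≠ 0)
    (hz : z₀ ≠ 0 ∨ z₁ ≠ 0 ∨ z₂ ≠ 0 ∨ z₃ ≠ 0)
    (h1 : b₁ * z₁ ^ 2 + z₀ ^ 2 = b₂ * z₂ ^ 2)
    (h2 : b₁ * z₁ ^ 2 + w * z₀ ^ 2 = b₁ * b₂ * z₃ ^ 2) : z₀ ≠ 0 ∨ b₁ * z₁ ^ 2 ≠ 0 := by
  by_contra hcon
  push Not at hcon
  obtain ⟨h0, h3⟩ := hcon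
  subst h0
  rw [h3] at h1 h2
  have e1 : z₁ = 0 := by
    rcases mul_eq_zero.1 h3 with h | h
    · exact absurd h hb₁
    · exact pow_eq_zero_iff (two_ne_zero) |>.1 h
  have e2 : z₂ = 0 := by
    have : b₂ * z₂ ^ 2 = 0 := by rw [← h1]; ring
    rcases mul_eq_zero.1 this with h | h
    · exact absurd h hb₂
    · exact pow_eq_zero_iff (two_ne_zero) |>.1 h
  have e3 : z₃ = 0 := by
    have : b₁ * b₂ * z₃ ^ 2 = 0 := by rw [← h2]; ring
    rcases mul_eq_zero.1 this with h | h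
    · exact absurd h (mul_ne_zero hb₁ hb₂)
    · exact pow_eq_zero_iff (two_ne_zero) |>.1 h
  rcases hz with h | h | h | h
  · exact h rfl
  · exact h e1
  · exact h e2
  · exact h e3

private theorem LA_ne {V : Valuation L Γ} {x y : L} (hy : y ≠ 0) (h : V x = V y) : x ≠ 0 := by
  intro hx
  rw [hx, map_zero] at h
  exact ((Valuation.ne_zero_iff V).2 hy) h.symm

private theorem LA_ne_lt {V : Valuation L Γ} {x y : L} (h : V x < V y) : y ≠ 0 := by
  intro hy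
  rw [hy, map_zero] at h
  exact not_lt_zero h

private theorem LA_z {b z : L} (h : b * z ^ 2 ≠ 0) : z ≠ 0 := by
  rintro rfl
  exact h (by ring)

/-- good places -/
theorem local_good (V : Valuation L Γ) {w b₁ b₂ : L} (hb₁ : b₁ ≠ 0) (hb₂ : b₂ ≠ 0)
    (hw : V w = 1) (hw1 : V (w - 1) = 1) (h : CoveringHasPoint w b₁ b₂) :
    IsSquare (V b₁) ∧ IsSquare (V b₂) := by
  obtain ⟨z₀, z₁, z₂, z₃, hz, h1, h2⟩ := h
  have hna := LA_not_all hb₁ hb₂ hz h1 h2
  have hwA : V (w * z₀ ^ 2) = V (z₀ ^ 2) := by rw [map_mul, hw, one_mul]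
  rcases lt_trichotomy (V (b₁ * z₁ ^ 2)) (V (z₀ ^ 2)) with hBA | hBA | hBA
  · -- V B < V A
    have hA0 := LA_ne_lt hBA
    have hz0 : z₀ ≠ 0 := fun h => hA0 (by rw [h]; ring)
    have hC : V (b₂ * z₂ ^ 2) = V (z₀ ^ 2) := by
      rw [← h1]; exact Valuation.map_add_eq_of_lt_right V hBA
    have hD : V (b₁ * b₂ * z₃ ^ 2) = V (z₀ ^ 2) := by
      rw [← h2]
      exact (Valuation.map_add_eq_of_lt_right V (hBA.trans_eq hwA.symm)).trans hwA
    have s2 : IsSquare (V b₂) := LA_sq V hz0 hC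
    have s12 : IsSquare (V (b₁ * b₂)) := LA_sq V hz0 hD
    exact ⟨LA_sq_left V hb₂ s2 (by rw [mul_comm]; exact s12), s2⟩
  · -- V B = V A
    have hz0 : z₀ ≠ 0 := by
      rcases hna with h | h
      · exact h
      · intro h0
        apply h
        rw [h0] at hBA
        have : V (b₁ * z₁ ^ 2) = 0 := by rw [hBA]; simp
        exact (Valuation.zero_iff V).1 this
    have s1 : IsSquare (V b₁) := LA_sq V hz0 hBA
    have e : b₁ * b₂ * z₃ ^ 2 - b₂ * z₂ ^ 2 = (w - 1) * z₀ ^ 2 := by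
      rw [← h1, ← h2]; ring
    have hv : V (b₁ * b₂ * z₃ ^ 2 - b₂ * z₂ ^ 2) = V (z₀ ^ 2) := by
      rw [e, map_mul, hw1, one_mul]
    have hC : V (b₂ * z₂ ^ 2) ≤ V (z₀ ^ 2) := by
      rw [← h1]
      exact (V.map_add _ _).trans (max_le hBA.le le_rfl)
    have hD : V (b₁ * b₂ * z₃ ^ 2) ≤ V (z₀ ^ 2) := by
      rw [← h2]
      exact (V.map_add _ _).trans (max_le hBA.le hwA.le)
    have hmax := V.map_sub (b₁ * b₂ * z₃ ^ 2) (b₂ * z₂ ^ 2)
    rw [hv] at hmax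
    rcases le_max_iff.1 hmax with h | h
    · have s12 : IsSquare (V (b₁ * b₂)) := LA_sq V hz0 (le_antisymm hD h)
      exact ⟨s1, LA_sq_left V hb₁ s1 s12⟩
    · exact ⟨s1, LA_sq V hz0 (le_antisymm hC h)⟩
  · -- V A < V B
    have hB0 := LA_ne_lt hBA
    have hC : V (b₂ * z₂ ^ 2) = V (b₁ * z₁ ^ 2) := by
      rw [← h1]; exact Valuation.map_add_eq_of_lt_left V hBA
    have hD : V (b₁ * b₂ * z₃ ^ 2) = V (b₁ * z₁ ^ 2) := by
      rw [← h2]; exact Valuation.map_add_eq_of_lt_left V (hwA.trans_lt hBA)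
    have hz1 : z₁ ≠ 0 := LA_z hB0
    have hz2 : z₂ ≠ 0 := LA_z (LA_ne hB0 hC)
    have hb1' : V b₁ ≠ 0 := (Valuation.ne_zero_iff V).2 hb₁
    have hb2' : V b₂ ≠ 0 := (Valuation.ne_zero_iff V).2 hb₂
    refine ⟨LA_sq V (z := z₃) hz2 ?_, LA_sq V (z := z₃) hz1 ?_⟩
    · have : V b₂ * V (b₁ * z₃ ^ 2) = V b₂ * V (z₂ ^ 2) := by
        rw [← map_mul, ← map_mul, hC, ← hD]; congr 1; ring
      exact mul_left_cancel₀ hb2' this
    · have : V b₁ * V (b₂ * z₃ ^ 2) = V b₁ * V (z₁ ^ 2) := by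
        rw [← map_mul, ← map_mul, ← hD]; congr 1; ring
      exact mul_left_cancel₀ hb1' this

private theorem LA_near (V : Valuation L Γ) (j : K →+* L) (hc : Close V j) {b : K} {y : L}
    (h : V (j b - y ^ 2) < V (j b)) : IsSquare (V (j b)) ∧ NearSquare V j b := by
  have hb0 : j b ≠ 0 := LA_ne_lt h
  have hy2 : V (y ^ 2) = V (j b) := by
    have : y ^ 2 = j b - (j b - y ^ 2) := by ring
    rw [this]
    exact Valuation.map_sub_eq_of_lt_left V h
  have hy : y ≠ 0 := by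
    rintro rfl
    exact (LA_ne hb0 hy2) (by ring)
  refine ⟨⟨V y, by rw [← hy2, map_pow, pow_two]⟩, ?_⟩
  obtain ⟨a, ha⟩ := hc y hy
  refine ⟨a, ?_⟩
  have e : j b - j a ^ 2 = (j b - y ^ 2) + (y - j a) * (y + j a) := by ring
  have h3 : V (y + j a) ≤ V y := by
    have e3 : y + j a = (y + y) - (y - j a) := by ring
    rw [e3]
    refine (V.map_sub _ _).trans (max_le ?_ ha.le)
    exact (V.map_add _ _).trans (max_le le_rfl le_rfl)
  have h4 : V ((y - j a) * (y + j a)) < V (j b) := by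
    rw [map_mul, ← hy2, map_pow, pow_two]
    have hyp : 0 < V y := zero_lt_iff.2 ((Valuation.ne_zero_iff V).2 hy)
    calc V (y - j a) * V (y + j a) ≤ V (y - j a) * V y := by gcongr
      _ < V y * V y := mul_lt_mul_of_pos_right ha hyp
  rw [e]
  exact V.map_add_lt h h4

/-- division step: if `V (b * z ^ 2 * c - y ^ 2 * c) < V (b * z ^ 2 * c)` then `b` is near
`(y / z) ^ 2` -/
private theorem LA_div (V : Valuation L Γ) {b c y z e : L} (hcz : c * z ^ 2 ≠ 0)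
    (he : c * z ^ 2 * b - c * y ^ 2 = e) (h : V e < V (c * z ^ 2 * b)) :
    V (b - (y / z) ^ 2) < V b := by
  have hz : z ≠ 0 := LA_z hcz
  have hV : 0 < V (c * z ^ 2) := zero_lt_iff.2 ((Valuation.ne_zero_iff V).2 hcz)
  have e1 : c * z ^ 2 * (b - (y / z) ^ 2) = e := by
    rw [← he]
    field_simp
  have h2 : V (c * z ^ 2) * V (b - (y / z) ^ 2) < V (c * z ^ 2) * V b := by
    rw [← map_mul, ← map_mul, e1]
    exact h
  exact lt_of_mul_lt_mul_left h2 hV.le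

/-- places dividing `w` -/
theorem local_zero (V : Valuation L Γ) (j : K →+* L) (hc : Close V j) {w : L} {b₁ b₂ : K}
    (hb₁ : b₁ ≠ 0) (hb₂ : b₂ ≠ 0) (hw : V w < 1) (h : CoveringHasPoint w (j b₁) (j b₂)) :
    IsSquare (V (j b₂)) ∧ NearSquare V j b₂ := by
  obtain ⟨z₀, z₁, z₂, z₃, hz, h1, h2⟩ := h
  have hb1' : j b₁ ≠ 0 := (map_ne_zero j).2 hb₁
  have hb2' : j b₂ ≠ 0 := (map_ne_zero j).2 hb₂
  have hna := LA_not_all hb1' hb2' hz h1 h2
  rcases lt_or_ge (V (j b₁ * z₁ ^ 2)) (V (z₀ ^ 2)) with hBA | hBA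
  · have hC : V (j b₂ * z₂ ^ 2) = V (z₀ ^ 2) := by
      rw [← h1]; exact Valuation.map_add_eq_of_lt_right V hBA
    have hA0 := LA_ne_lt hBA
    have hC0 : j b₂ * z₂ ^ 2 ≠ 0 := LA_ne hA0 hC
    have hz2 := LA_z hC0
    refine LA_near V j hc (y := z₀ / z₂) ?_
    refine LA_div V (c := 1) (e := j b₁ * z₁ ^ 2) (by rw [one_mul]; exact pow_ne_zero 2 hz2)
      (by linear_combination (-1 : L) * h1) ?_
    have : (1 : L) * z₂ ^ 2 * j b₂ = j b₂ * z₂ ^ 2 := by ring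
    rw [this, hC]
    exact hBA
  · have hB0 : j b₁ * z₁ ^ 2 ≠ 0 := by
      rcases hna with h | h
      · intro hB
        rw [hB, map_zero] at hBA
        have : V (z₀ ^ 2) = 0 := le_antisymm hBA zero_le
        exact h (pow_eq_zero_iff (two_ne_zero) |>.1 ((Valuation.zero_iff V).1 this))
      · exact h
    have hBpos : 0 < V (j b₁ * z₁ ^ 2) := zero_lt_iff.2 ((Valuation.ne_zero_iff V).2 hB0)
    have hwA : V (w * z₀ ^ 2) < V (j b₁ * z₁ ^ 2) := by
      rw [map_mul]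
      rcases eq_or_ne (V (z₀ ^ 2)) 0 with h0 | h0
      · rw [h0, mul_zero]; exact hBpos
      · calc V w * V (z₀ ^ 2) < 1 * V (z₀ ^ 2) := mul_lt_mul_of_pos_right hw (zero_lt_iff.2 h0)
          _ = V (z₀ ^ 2) := one_mul _
          _ ≤ _ := hBA
    have hD : V (j b₁ * j b₂ * z₃ ^ 2) = V (j b₁ * z₁ ^ 2) := by
      rw [← h2]; exact Valuation.map_add_eq_of_lt_left V hwA
    have hz3 := LA_z (LA_ne hB0 hD)
    refine LA_near V j hc (y := z₁ / z₃) ?_
    refine LA_div V (c := j b₁) (e := w * z₀ ^ 2) (mul_ne_zero hb1' (pow_ne_zero 2 hz3))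
      (by linear_combination (-1 : L) * h2) ?_
    have : j b₁ * z₃ ^ 2 * j b₂ = j b₁ * j b₂ * z₃ ^ 2 := by ring
    rw [this, hD]
    exact hwA

/-- places dividing `w - 1` exactly once -/
theorem local_one (V : Valuation L Γ) (j : K →+* L) (hc : Close V j) {w : L} {b₁ b₂ : K}
    (hb₁ : b₁ ≠ 0) (hb₂ : b₂ ≠ 0) (hw : V (w - 1) < 1)
    (hmin : ∀ x : L, V x < 1 → V x ≤ V (w - 1)) (hg : ¬ IsSquare (V (w - 1)))
    (h : CoveringHasPoint w (j b₁) (j b₂)) :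
    IsSquare (V (j b₁)) ∧ ((IsSquare (V (j b₂)) ∧ NearSquare V j b₁) ∨
      (¬ IsSquare (V (j b₂)) ∧ NearSquare V j (-b₁))) := by
  obtain ⟨z₀, z₁, z₂, z₃, hz, h1, h2⟩ := h
  have hb1' : j b₁ ≠ 0 := (map_ne_zero j).2 hb₁
  have hb2' : j b₂ ≠ 0 := (map_ne_zero j).2 hb₂
  have hna := LA_not_all hb1' hb2' hz h1 h2
  have hDC : j b₁ * j b₂ * z₃ ^ 2 - j b₂ * z₂ ^ 2 = (w - 1) * z₀ ^ 2 := by
    rw [← h1, ← h2]; ring
  rcases lt_or_ge (V (j b₂ * z₂ ^ 2)) (V (z₀ ^ 2)) with hCA | hCA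
  · -- V C < V A
    have hA0 := LA_ne_lt hCA
    have hz0 : z₀ ≠ 0 := fun h => hA0 (by rw [h]; ring)
    have hA0' : V (z₀ ^ 2) ≠ 0 := (Valuation.ne_zero_iff V).2 hA0
    have hApos : 0 < V (z₀ ^ 2) := zero_lt_iff.2 hA0'
    have hB : V (j b₁ * z₁ ^ 2) = V (z₀ ^ 2) := by
      have e : j b₁ * z₁ ^ 2 = j b₂ * z₂ ^ 2 - z₀ ^ 2 := by rw [← h1]; ring
      rw [e]
      exact Valuation.map_sub_eq_of_lt_right V hCA
    have hz1 : z₁ ≠ 0 := LA_z (LA_ne hA0 hB)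
    have hnear : V (j (-b₁) - (z₀ / z₁) ^ 2) < V (j (-b₁)) := by
      refine LA_div V (c := 1) (e := -(j b₂ * z₂ ^ 2)) (by rw [one_mul]; exact pow_ne_zero 2 hz1)
        (by rw [map_neg]; linear_combination (-1 : L) * h1) ?_
      have : (1 : L) * z₁ ^ 2 * j (-b₁) = -(j b₁ * z₁ ^ 2) := by rw [map_neg]; ring
      rw [this, Valuation.map_neg, Valuation.map_neg, hB]
      exact hCA
    obtain ⟨s1, n1⟩ := LA_near V j hc hnear
    rw [map_neg, Valuation.map_neg] at s1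
    refine ⟨s1, Or.inr ⟨?_, n1⟩⟩
    intro s2
    apply hg
    have hle : V (j b₂ * z₂ ^ 2) ≤ V (w - 1) * V (z₀ ^ 2) := by
      have hlt : V (j b₂ * z₂ ^ 2 / z₀ ^ 2) < 1 := by
        rw [map_div₀]
        exact (div_lt_one₀ hApos).2 hCA
      have := hmin _ hlt
      rw [map_div₀] at this
      exact (div_le_iff₀ hApos).1 this
    have hz0' : V z₀ ≠ 0 := (Valuation.ne_zero_iff V).2 hz0
    rcases lt_or_eq_of_le hle with hlt | heq
    · have hD : V (j b₁ * j b₂ * z₃ ^ 2) = V (w - 1) * V (z₀ ^ 2) := by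
        have e : j b₁ * j b₂ * z₃ ^ 2 = j b₂ * z₂ ^ 2 + (w - 1) * z₀ ^ 2 := by
          rw [← hDC]; ring
        rw [e, ← map_mul]
        have hlt' : V (j b₂ * z₂ ^ 2) < V ((w - 1) * z₀ ^ 2) := by
          rw [map_mul V (w - 1)]; exact hlt
        exact Valuation.map_add_eq_of_lt_right V hlt'
      have e : V (w - 1) = V (j b₁) * V (j b₂) * (V z₃ / V z₀ * (V z₃ / V z₀)) := by
        rw [map_pow, map_mul, map_mul, map_pow] at hD
        rw [div_mul_div_comm, ← pow_two, ← pow_two, mul_div_assoc', eq_div_iff (pow_ne_zero 2 hz0'),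
          hD]
      rw [e]
      exact (s1.mul s2).mul ⟨_, rfl⟩
    · have e : V (w - 1) = V (j b₂) * (V z₂ / V z₀ * (V z₂ / V z₀)) := by
        rw [map_pow, map_mul, map_pow] at heq
        rw [div_mul_div_comm, ← pow_two, ← pow_two, mul_div_assoc', eq_div_iff (pow_ne_zero 2 hz0'),
          heq]
      rw [e]
      exact s2.mul ⟨_, rfl⟩
  · -- V A ≤ V C
    have hC0 : j b₂ * z₂ ^ 2 ≠ 0 := by
      intro hC
      rw [hC, map_zero] at hCA
      have hA : z₀ ^ 2 = 0 := (Valuation.zero_iff V).1 (le_antisymm hCA zero_le)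
      rcases hna with h | h
      · exact h (pow_eq_zero_iff (two_ne_zero) |>.1 hA)
      · apply h
        have : j b₁ * z₁ ^ 2 = j b₂ * z₂ ^ 2 - z₀ ^ 2 := by rw [← h1]; ring
        rw [this, hC, hA, sub_zero]
    have hCpos : 0 < V (j b₂ * z₂ ^ 2) := zero_lt_iff.2 ((Valuation.ne_zero_iff V).2 hC0)
    have hz2 := LA_z hC0
    have hlt : V ((w - 1) * z₀ ^ 2) < V (j b₂ * z₂ ^ 2) := by
      rw [map_mul]
      rcases eq_or_ne (V (z₀ ^ 2)) 0 with h0 | h0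
      · rw [h0, mul_zero]; exact hCpos
      · calc V (w - 1) * V (z₀ ^ 2) < 1 * V (z₀ ^ 2) :=
              mul_lt_mul_of_pos_right hw (zero_lt_iff.2 h0)
          _ = V (z₀ ^ 2) := one_mul _
          _ ≤ _ := hCA
    have hD : V (j b₁ * j b₂ * z₃ ^ 2) = V (j b₂ * z₂ ^ 2) := by
      have e : j b₁ * j b₂ * z₃ ^ 2 = j b₂ * z₂ ^ 2 + (w - 1) * z₀ ^ 2 := by
        rw [← hDC]; ring
      rw [e]
      exact Valuation.map_add_eq_of_lt_left V hlt
    have hz3 := LA_z (LA_ne hC0 hD)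
    have hnear : V (j b₁ - (z₂ / z₃) ^ 2) < V (j b₁) := by
      refine LA_div V (c := j b₂) (e := (w - 1) * z₀ ^ 2)
        (mul_ne_zero hb2' (pow_ne_zero 2 hz3)) (by linear_combination hDC) ?_
      have : j b₂ * z₃ ^ 2 * j b₁ = j b₁ * j b₂ * z₃ ^ 2 := by ring
      rw [this, hD]
      exact hlt
    obtain ⟨s1, n1⟩ := LA_near V j hc hnear
    refine ⟨s1, Or.inl ⟨?_, n1⟩⟩
    have hBle : V (j b₁ * z₁ ^ 2) ≤ V (j b₂ * z₂ ^ 2) := by
      have e : j b₁ * z₁ ^ 2 = j b₂ * z₂ ^ 2 - z₀ ^ 2 := by rw [← h1]; ring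
      rw [e]
      exact (V.map_sub _ _).trans (max_le le_rfl hCA)
    rcases lt_or_eq_of_le hBle with hBC | hBC
    · have hA : V (j b₂ * z₂ ^ 2) = V (z₀ ^ 2) := by
        have e : z₀ ^ 2 = j b₂ * z₂ ^ 2 - j b₁ * z₁ ^ 2 := by rw [← h1]; ring
        rw [e]
        exact (Valuation.map_sub_eq_of_lt_left V hBC).symm
      have hz0 : z₀ ≠ 0 := by
        rintro rfl
        exact (LA_ne hC0 hA.symm) (by ring)
      exact LA_sq V hz0 hA
    · have hz2' : V z₂ ≠ 0 := (Valuation.ne_zero_iff V).2 hz2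
      have e : V (j b₂) = V (j b₁) * (V z₁ / V z₂ * (V z₁ / V z₂)) := by
        rw [map_mul, map_mul, map_pow, map_pow] at hBC
        rw [div_mul_div_comm, ← pow_two, ← pow_two, mul_div_assoc', eq_div_iff (pow_ne_zero 2 hz2'),
          hBC]
      rw [e]
      exact s1.mul ⟨_, rfl⟩

end Pool.Agent.BSDFF.Odd
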