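import Pool.Agent.Lib.MP_48b749_nt.Odd.LocComp

/-!
Module LP. What local solubility at a finite closed point of the line says about the classes
`b₁`, `b₂`, represented by polynomials.
-/

set_option autoImplicit false

open Polynomial

namespace Pool.Agent.BSDFF.Odd

variable {k : Type} [Field k]

/-- the covering attached to polynomials `B₁`, `B₂` has a point over the completion at `π` -/
def SolubleAt {π : k[X]} (hπ : Irreducible π) (w B₁ B₂ : k[X]) : Prop :=
  CoveringHasPoint ((placeOf π hπ).toCompletion (algebraMap k[X] (RatFunc k) w))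
    ((placeOf π hπ).toCompletion (algebraMap k[X] (RatFunc k) B₁))
    ((placeOf π hπ).toCompletion (algebraMap k[X] (RatFunc k) B₂))

lemma algebraMap_ne_zero' {B : k[X]} (hB : B ≠ 0) : algebraMap k[X] (RatFunc k) B ≠ 0 := by
  simpa using hB

lemma toCompletion_ne_zero {π : k[X]} (hπ : Irreducible π) {B : k[X]} (hB : B ≠ 0) :
    (placeOf π hπ).toCompletion (algebraMap k[X] (RatFunc k) B) ≠ 0 := by
  rw [Ne, map_eq_zero]
  exact algebraMap_ne_zero' hB

lemma toCompletion_sub_one {π : k[X]} (hπ : Irreducible π) (w : k[X]) :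
    (placeOf π hπ).toCompletion (algebraMap k[X] (RatFunc k) w) - 1 =
      (placeOf π hπ).toCompletion (algebraMap k[X] (RatFunc k) (w - 1)) := by
  rw [map_sub, map_one, map_sub, map_one]

lemma near_of_nearSquare {π : k[X]} (hπ : Irreducible π) {B : k[X]}
    (h : NearSquare (Valued.v : Valuation (placeOf π hπ).ring.valuation.Completion _)
      (placeOf π hπ).toCompletion (algebraMap k[X] (RatFunc k) B)) :
    ∃ c : RatFunc k, (placeOf π hπ).ring.valuation (algebraMap k[X] (RatFunc k) B - c ^ 2) <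
      (placeOf π hπ).ring.valuation (algebraMap k[X] (RatFunc k) B) := by
  obtain ⟨c, hc⟩ := h
  refine ⟨c, ?_⟩
  rwa [← map_pow, ← map_sub, valuation_toCompletion, valuation_toCompletion] at hc

theorem place_good {π w B₁ B₂ : k[X]} (hπ : Irreducible π) (hB₁ : B₁ ≠ 0) (hB₂ : B₂ ≠ 0)
    (hw : ¬ π ∣ w) (hw1 : ¬ π ∣ w - 1) (h : SolubleAt hπ w B₁ B₂) :
    Even (multiplicity π B₁) ∧ Even (multiplicity π B₂) := by
  have h1 := local_good (Valued.v : Valuation (placeOf π hπ).ring.valuation.Completion _)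
    (toCompletion_ne_zero hπ hB₁) (toCompletion_ne_zero hπ hB₂)
    (by rw [valuation_toCompletion, valuation_eq_one hπ hw])
    (by rw [toCompletion_sub_one, valuation_toCompletion, valuation_eq_one hπ hw1]) h
  rw [valuation_toCompletion, valuation_toCompletion, isSquare_valuation_iff hπ hB₁,
    isSquare_valuation_iff hπ hB₂] at h1
  exact h1

theorem place_zero {π w B₁ B₂ : k[X]} (hπ : Irreducible π) (hB₁ : B₁ ≠ 0) (hB₂ : B₂ ≠ 0)
    (hw : π ∣ w) (h : SolubleAt hπ w B₁ B₂) :
    Even (multiplicity π B₂) ∧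
      ∀ G M : k[X], B₂ = G * M ^ 2 → ¬ π ∣ G → IsSquare (AdjoinRoot.mk π G) := by
  have h1 := local_zero (Valued.v : Valuation (placeOf π hπ).ring.valuation.Completion _)
    (placeOf π hπ).toCompletion (close_toCompletion _)
    (algebraMap_ne_zero' hB₁) (algebraMap_ne_zero' hB₂)
    (by rw [valuation_toCompletion]; exact valuation_lt_one hπ hw) h
  refine ⟨?_, fun G M hGM hG => ?_⟩
  · rw [← isSquare_valuation_iff hπ hB₂, ← valuation_toCompletion]
    exact h1.1
  · exact isSquare_mk_of_near hπ hB₂ (near_of_nearSquare hπ h1.2) G M hGM hG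

theorem place_one {π w B₁ B₂ : k[X]} (hπ : Irreducible π) (hB₁ : B₁ ≠ 0) (hB₂ : B₂ ≠ 0)
    (hw1 : π ∣ w - 1) (hw2 : ¬ π ^ 2 ∣ w - 1) (h : SolubleAt hπ w B₁ B₂) :
    Even (multiplicity π B₁) ∧
      ((Even (multiplicity π B₂) ∧
          ∀ G M : k[X], B₁ = G * M ^ 2 → ¬ π ∣ G → IsSquare (AdjoinRoot.mk π G)) ∨
        (¬ Even (multiplicity π B₂) ∧
          ∀ G M : k[X], B₁ = G * M ^ 2 → ¬ π ∣ G → IsSquare (AdjoinRoot.mk π (-G)))) := by
  have hw0 : w - 1 ≠ 0 := by
    intro h0
    exact hw2 (h0 ▸ dvd_zero _)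
  have hmult : multiplicity π (w - 1) = 1 := by
    obtain ⟨g, hg⟩ := hw1
    have hg1 : ¬ π ∣ g := by
      rintro ⟨g', rfl⟩
      exact hw2 ⟨g', by rw [hg]; ring⟩
    apply multiplicity_eq_of_dvd_of_not_dvd
    · rw [pow_one]; exact ⟨g, hg⟩
    · exact hw2
  have h1 := local_one (Valued.v : Valuation (placeOf π hπ).ring.valuation.Completion _)
    (placeOf π hπ).toCompletion (close_toCompletion _)
    (algebraMap_ne_zero' hB₁) (algebraMap_ne_zero' hB₂)
    (by rw [toCompletion_sub_one, valuation_toCompletion]; exact valuation_lt_one hπ hw1)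
    (by
      intro x hx
      obtain ⟨a, ha⟩ := exists_valuation_eq (placeOf π hπ) x
      rw [toCompletion_sub_one, valuation_toCompletion, ha]
      rw [ha] at hx
      exact valuation_le_of_lt_one hπ hw1 hw2 a hx)
    (by
      rw [toCompletion_sub_one, valuation_toCompletion, isSquare_valuation_iff hπ hw0, hmult]
      decide) h
  obtain ⟨h2, h3⟩ := h1
  refine ⟨?_, ?_⟩
  · rw [← isSquare_valuation_iff hπ hB₁, ← valuation_toCompletion]
    exact h2
  · rcases h3 with ⟨h4, h5⟩ | ⟨h4, h5⟩
    · left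
      refine ⟨?_, fun G M hGM hG => ?_⟩
      · rw [← isSquare_valuation_iff hπ hB₂, ← valuation_toCompletion]
        exact h4
      · exact isSquare_mk_of_near hπ hB₁ (near_of_nearSquare hπ h5) G M hGM hG
    · right
      refine ⟨?_, fun G M hGM hG => ?_⟩
      · rw [← isSquare_valuation_iff hπ hB₂, ← valuation_toCompletion]
        exact h4
      · rw [← map_neg] at h5
        exact isSquare_mk_of_near hπ (neg_ne_zero.mpr hB₁) (near_of_nearSquare hπ h5) (-G) M
          (by rw [hGM]; ring) (by rwa [dvd_neg])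

end Pool.Agent.BSDFF.Odd
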