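import Pool.Agent.Lib.MP_48b749_nt.Odd.Pts
import Pool.Agent.Lib.MP_48b749_nt.Odd.Delta

/-!
Module LO. The image of the descent map has at least `2 ^ (numFactors k d + 1)` elements.
-/

set_option autoImplicit false

open Polynomial

namespace Pool.Agent.BSDFF.Odd

section aux

variable {k : Type} [Field k]

private lemma lo_multiplicity_prod {ι : Type} (S : Finset ι) (G : ι → k[X])
    (hG : ∀ i ∈ S, G i ≠ 0) {ρ : k[X]} (hρ : Irreducible ρ) :
    multiplicity ρ (∏ i ∈ S, G i) = ∑ i ∈ S, multiplicity ρ (G i) := by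
  classical
  induction S using Finset.induction_on with
  | empty =>
    rw [Finset.prod_empty, Finset.sum_empty]
    exact multiplicity_eq_zero.mpr fun h => hρ.not_isUnit (isUnit_of_dvd_one h)
  | insert i S hi ih =>
    have h1 : (∏ i ∈ S, G i) ≠ 0 :=
      Finset.prod_ne_zero_iff.mpr fun j hj => hG j (Finset.mem_insert_of_mem hj)
    rw [Finset.prod_insert hi, Finset.sum_insert hi, multiplicity_mul hρ.prime
      (FiniteMultiplicity.of_prime_left hρ.prime
        (mul_ne_zero (hG i (Finset.mem_insert_self i S)) h1)),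
      ih fun j hj => hG j (Finset.mem_insert_of_mem hj)]

private lemma lo_even {B : k[X]} (hB : B ≠ 0)
    (h : sqClass (algebraMap k[X] (RatFunc k) B) = 0) {ρ : k[X]} (hρ : Irreducible ρ) :
    Even (multiplicity ρ B) := by
  have hB' : algebraMap k[X] (RatFunc k) B ≠ 0 := by
    intro h1
    exact hB (RatFunc.algebraMap_injective k (h1.trans (map_zero _).symm))
  obtain ⟨y, hy⟩ := (sqClass_eq_zero_iff hB').mp h
  obtain ⟨s, hs⟩ := isSquare_of_algebraMap (P := B) (z := y) (by rw [pow_two, ← hy])
  have hs0 : s * s ≠ 0 := by rw [← hs]; exact hB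
  refine ⟨multiplicity ρ s, ?_⟩
  rw [hs, multiplicity_mul hρ.prime (FiniteMultiplicity.of_prime_left hρ.prime hs0)]

private lemma lo_two (p : ℕ) [Fact p.Prime] [CharP k p] (hp2 : p ≠ 2) : (2 : k) ≠ 0 := by
  intro h
  have h5 : ((2 : ℕ) : k) = 0 := by exact_mod_cast h
  rw [CharP.cast_eq_zero_iff k p] at h5
  exact hp2 ((Nat.prime_dvd_prime_iff_eq Fact.out Nat.prime_two).mp h5)

private lemma lo_cast (p f d : ℕ) [Fact p.Prime] [CharP k p] (hp2 : p ≠ 2)
    (hdf : d ∣ p ^ f + 1) : (d : k) ≠ 0 := by
  intro h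
  rw [CharP.cast_eq_zero_iff k p] at h
  have h1 : p ∣ p ^ f + 1 := h.trans hdf
  rcases Nat.eq_zero_or_pos f with hf | hf
  · rw [hf, pow_zero] at h1
    exact hp2 ((Nat.prime_dvd_prime_iff_eq Fact.out Nat.prime_two).mp h1)
  · have h2 : p ∣ p ^ f := dvd_pow_self p hf.ne'
    have h3 := (Nat.dvd_add_right h2).mp h1
    exact (Fact.out : p.Prime).one_lt.ne' (Nat.dvd_one.mp h3)

private lemma lo_natDegree {d : ℕ} {u : k[X]} (hu : OddNonsplit d u) : u.natDegree ≠ 0 := by
  obtain ⟨c, v, e, hc, hv, hvd, he, hu⟩ := hu.at_zero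
  rw [hu, natDegree_C_mul hc, natDegree_pow]
  exact mul_ne_zero he.pos.ne' hvd.pos.ne'

private lemma lo_comp_inj {u : k[X]} (hu : u.natDegree ≠ 0) :
    Function.Injective (compRingHom u) := by
  rw [injective_iff_map_eq_zero]
  intro f hf
  rw [coe_compRingHom_apply] at hf
  by_contra h
  exact Three.comp_ne_zero' hu h hf

open Classical in
private lemma lo_origin (h2 : (2 : k) ≠ 0) (w : k[X]) (hw0 : w ≠ 0) (hw1 : w ≠ 1) :
    ∃ P : (legendre w).toAffine.Point,
      legDelta w hw0 hw1 P = (sqClass (algebraMap k[X] (RatFunc k) w), 0) := by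
  have hΔ := legendre_Δ_ne_zero h2 hw0 hw1
  have heq : (legendre w).toAffine.Equation 0 0 := by
    rw [WeierstrassCurve.Affine.equation_iff]
    simp [legendre]
  have hns := (WeierstrassCurve.Affine.equation_iff_nonsingular_of_Δ_ne_zero hΔ).mp heq
  refine ⟨.some 0 0 hns, ?_⟩
  apply Prod.ext
  · change legBeta w hw0 (.some 0 0 hns) = _
    have h1 : legBeta w hw0 (.some 0 0 hns) = sqClass (alpha (legendre w) 0
      (algebraMap k[X] (RatFunc k) w) (.some 0 0 hns)) := rfl
    rw [h1, alpha_some, if_pos rfl]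
  · change legAlpha w hw1 (.some 0 0 hns) = 0
    rw [legAlpha_some w hw1 hns (by
      intro h
      have h3 : (1 : RatFunc k) = 0 := by linear_combination h
      exact one_ne_zero h3), zero_add, sqClass_one]

end aux

variable {k : Type} [Field k] [Finite k]

open Classical in
theorem exists_many_classes (p f d : ℕ) [Fact p.Prime] [CharP k p] (hp2 : p ≠ 2) (hd : Odd d)
    (hdf : d ∣ p ^ f + 1) {u : k[X]} (hu : OddNonsplit d u) (hw0 : u ^ d ≠ 0) (hw1 : u ^ d ≠ 1) :
    ∃ S : Finset (SqGrp (RatFunc k) × SqGrp (RatFunc k)),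
      2 ^ (numFactors k d + 1) ≤ S.card ∧ ∀ c ∈ S, c ∈ (legDelta (u ^ d) hw0 hw1).range := by
  have h2 : (2 : k) ≠ 0 := lo_two p hp2
  have hd0 : (d : k) ≠ 0 := lo_cast p f d hp2 hdf
  obtain ⟨T, hT, hTc, -⟩ := exists_factors (k := k) hd0
  have hudeg := lo_natDegree hu
  have hinj := lo_comp_inj hudeg
  have hX1 : (X ^ d : k[X]) ≠ 1 := by
    intro h
    have h3 := congrArg natDegree h
    rw [natDegree_X_pow, natDegree_one] at h3
    exact hd.pos.ne' h3
  have hφ : ratHom (compRingHom u) hinj (algebraMap k[X] (RatFunc k) (X ^ d)) =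
      algebraMap k[X] (RatFunc k) (u ^ d) := by
    rw [ratHom_algebraMap, coe_compRingHom_apply, X_pow_comp]
  obtain ⟨g, -, hg⟩ := exists_legendre_map (ratHom (compRingHom u) hinj) hφ hX1 hw1
  have hpt : ∀ m : T, ∃ (P : (legendre (X ^ d : k[X])).toAffine.Point) (F : k[X]), F ≠ 0 ∧
      legAlpha (X ^ d : k[X]) hX1 P = sqClass (algebraMap k[X] (RatFunc k) F) ∧
      ∀ m' : k[X], m'.Monic → Irreducible m' → m' ∣ X ^ d - 1 →
        (Odd (multiplicity m' F) ↔ m' = m.1) := by
    intro m
    obtain ⟨h3, h4, h5⟩ := (hT m.1).mp m.2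
    exact exists_orbit_point p f d hp2 hd hdf hX1 h3 h4 h5
  choose P F hF0 hFa hFm using hpt
  obtain ⟨O, hO⟩ := lo_origin h2 (u ^ d) hw0 hw1
  let R : Option T → (legendre (u ^ d)).toAffine.Point := fun i =>
    match i with
    | none => O
    | some m => g (P m)
  let G : Option T → k[X] := fun i =>
    match i with
    | none => 1
    | some m => (F m).comp u
  have hG0 : ∀ i, G i ≠ 0 := by
    intro i
    rcases i with _ | m
    · exact one_ne_zero
    · exact Three.comp_ne_zero' hudeg (hF0 m)
  have hG0' : ∀ i, algebraMap k[X] (RatFunc k) (G i) ≠ 0 := by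
    intro i h
    exact hG0 i (RatFunc.algebraMap_injective k (h.trans (map_zero _).symm))
  have hF0' : ∀ m, algebraMap k[X] (RatFunc k) (F m) ≠ 0 := by
    intro i h
    exact hF0 i (RatFunc.algebraMap_injective k (h.trans (map_zero _).symm))
  have hR2 : ∀ i, legAlpha (u ^ d) hw1 (R i) = sqClass (algebraMap k[X] (RatFunc k) (G i)) := by
    intro i
    rcases i with _ | m
    · change legAlpha (u ^ d) hw1 O = sqClass (algebraMap k[X] (RatFunc k) 1)
      rw [map_one, sqClass_one]
      exact congrArg Prod.snd hO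
    · change legAlpha (u ^ d) hw1 (g (P m)) = sqClass (algebraMap k[X] (RatFunc k) ((F m).comp u))
      rw [hg (P m) _ (hF0' m) (hFa m), ratHom_algebraMap, coe_compRingHom_apply]
  have hmult : ∀ m0 : T, ∀ i, (Odd (multiplicity (m0.1.comp u) (G i)) ↔ i = some m0) := by
    intro m0 i
    obtain ⟨h3, h4, h5⟩ := (hT m0.1).mp m0.2
    have hρ := hu.at_roots m0.1 h4 h5
    rcases i with _ | m
    · constructor
      · intro h
        exfalso
        have h6 : multiplicity (m0.1.comp u) (G none) = 0 :=
          multiplicity_eq_zero.mpr fun h => hρ.not_isUnit (isUnit_of_dvd_one h)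
        rw [h6] at h
        exact absurd h (by decide)
      · intro h
        exact absurd h (by simp)
    · have h6 := multiplicity_map (compRingHom u) hinj h4 hρ
        (by rw [coe_compRingHom_apply]) (by
          rw [coe_compRingHom_apply]
          intro h7
          obtain ⟨r, hr⟩ := h7
          apply hρ.not_isUnit
          apply isUnit_of_dvd_one
          refine ⟨r, ?_⟩
          have h8 : m0.1.comp u * 1 = m0.1.comp u * (m0.1.comp u * r) := by
            rw [mul_one, ← mul_assoc, ← sq]
            exact hr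
          exact mul_left_cancel₀ hρ.ne_zero h8) (hF0 m)
      change Odd (multiplicity (m0.1.comp u) ((F m).comp u)) ↔ _
      rw [coe_compRingHom_apply] at h6
      rw [h6, hFm m m0.1 h3 h4 h5]
      constructor
      · intro h
        rw [Subtype.ext h.symm]
      · intro h
        rw [Option.some.inj h]
  let v : Option T → SqGrp (RatFunc k) × SqGrp (RatFunc k) := fun i => legDelta (u ^ d) hw0 hw1 (R i)
  have hind : ∀ S : Finset (Option T), S.Nonempty → ∑ i ∈ S, v i ≠ 0 := by
    intro S hS hsum
    have hsum2 : ∑ i ∈ S, sqClass (algebraMap k[X] (RatFunc k) (G i)) = 0 := by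
      have h3 := congrArg Prod.snd hsum
      rw [Prod.snd_sum] at h3
      rw [← Finset.sum_congr rfl fun i _ => hR2 i]
      exact h3
    have hnosome : ∀ m0 : T, some m0 ∉ S := by
      intro m0 hm0
      have h3 : sqClass (algebraMap k[X] (RatFunc k) (∏ i ∈ S, G i)) = 0 := by
        rw [map_prod, sqClass_prod S _ fun i _ => hG0' i]
        exact hsum2
      obtain ⟨-, h4, h5⟩ := (hT m0.1).mp m0.2
      have hρ := hu.at_roots m0.1 h4 h5
      have h6 := lo_even (Finset.prod_ne_zero_iff.mpr fun i _ => hG0 i) h3 hρ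
      rw [lo_multiplicity_prod S G (fun i _ => hG0 i) hρ, ← Finset.add_sum_erase S _ hm0] at h6
      have h7 : Even (∑ i ∈ S.erase (some m0), multiplicity (m0.1.comp u) (G i)) := by
        apply Finset.even_sum
        intro i hi
        rw [← Nat.not_odd_iff_even, hmult m0 i]
        exact Finset.ne_of_mem_erase hi
      have h8 : Odd (multiplicity (m0.1.comp u) (G (some m0))) := (hmult m0 _).mpr rfl
      exact absurd h6 (Nat.not_even_iff_odd.mpr (h8.add_even h7))
    have hSn : S = {none} := by
      apply Finset.eq_singleton_iff_unique_mem.mpr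
      obtain ⟨i, hi⟩ := hS
      have hall : ∀ j ∈ S, j = none := by
        intro j hj
        rcases j with _ | m
        · rfl
        · exact absurd hj (hnosome m)
      exact ⟨hall i hi ▸ hi, hall⟩
    rw [hSn, Finset.sum_singleton] at hsum
    have h3 : sqClass (algebraMap k[X] (RatFunc k) (u ^ d)) = 0 := by
      have h4 : v none = (sqClass (algebraMap k[X] (RatFunc k) (u ^ d)), 0) := hO
      rw [h4] at hsum
      exact congrArg Prod.fst hsum
    obtain ⟨c, w, e, hc, hw, hwd, he, huw⟩ := hu.at_zero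
    have h4 := lo_even hw0 h3 hw
    have h5 : multiplicity w (u ^ d) = e * d := by
      have h6 : u ^ d = C (c ^ d) * w ^ (e * d) := by
        rw [huw, mul_pow, C_pow, ← pow_mul]
      rw [h6]
      apply multiplicity_eq_of_dvd_of_not_dvd
      · exact dvd_mul_left _ _
      · intro h7
        rw [pow_succ, mul_comm (C (c ^ d))] at h7
        have h8 := (mul_dvd_mul_iff_left (pow_ne_zero _ hw.ne_zero)).mp h7
        exact hw.not_isUnit (isUnit_of_dvd_unit h8
          (isUnit_C.mpr (isUnit_iff_ne_zero.mpr (pow_ne_zero _ hc))))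
    rw [h5] at h4
    exact absurd h4 (Nat.not_even_iff_odd.mpr (he.mul hd))
  have h2V : ∀ x : SqGrp (RatFunc k) × SqGrp (RatFunc k), x + x = 0 := fun x =>
    Prod.ext (modSq_two x.1) (modSq_two x.2)
  have hcard := card_closure h2V v hind
  have hle : AddSubgroup.closure (Set.range v) ≤ (legDelta (u ^ d) hw0 hw1).range := by
    rw [AddSubgroup.closure_le]
    rintro _ ⟨i, rfl⟩
    exact ⟨R i, rfl⟩
  have hfin : Finite (AddSubgroup.closure (Set.range v)) := by
    apply Nat.finite_of_card_ne_zero
    rw [hcard]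
    positivity
  have hfin' : (AddSubgroup.closure (Set.range v) :
      Set (SqGrp (RatFunc k) × SqGrp (RatFunc k))).Finite := hfin
  refine ⟨hfin'.toFinset, ?_, ?_⟩
  · rw [← Nat.card_eq_card_finite_toFinset hfin']
    have h3 : Nat.card (AddSubgroup.closure (Set.range v) :
      Set (SqGrp (RatFunc k) × SqGrp (RatFunc k))) =
        Nat.card (AddSubgroup.closure (Set.range v)) := rfl
    rw [h3, hcard, Fintype.card_option, Fintype.card_coe, hTc]
  · intro c hc
    rw [Set.Finite.mem_toFinset] at hc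
    exact hle hc

end Pool.Agent.BSDFF.Odd
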