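import Pool.Agent.Lib.MP_48b749_nt.LegPoints
import Pool.Agent.Lib.MP_48b749_nt.Three.FamPull

/-!
Module PM. Field homomorphisms `k(t) → k'(t)` given by polynomial substitutions, the maps they
induce on the points of Legendre curves, and multiplicities.
-/

set_option autoImplicit false

open Polynomial

namespace Pool.Agent.BSDFF.Odd

variable {k L : Type} [Field k] [Field L]

/-- the homomorphism of function fields extending an injective homomorphism of polynomial rings -/
noncomputable def ratHom (φ : k[X] →+* L[X]) (hφ : Function.Injective φ) :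
    RatFunc k →+* RatFunc L :=
  IsFractionRing.lift (A := k[X]) (K := RatFunc k) (L := RatFunc L)
    (g := (algebraMap L[X] (RatFunc L)).comp φ)
    ((IsFractionRing.injective L[X] (RatFunc L)).comp hφ)

theorem ratHom_algebraMap (φ : k[X] →+* L[X]) (hφ : Function.Injective φ) (f : k[X]) :
    ratHom φ hφ (algebraMap k[X] (RatFunc k) f) = algebraMap L[X] (RatFunc L) (φ f) := by
  unfold ratHom
  rw [IsFractionRing.lift_algebraMap]
  rfl

open Classical in
private lemma pm_point_map {F K : Type} [Field F] [Field K] (φ : F →+* K)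
    (W : WeierstrassCurve F) (W' : WeierstrassCurve K) (hW : W.map φ = W') :
    ∃ f : W.toAffine.Point →+ W'.toAffine.Point,
      ∀ (x y : F) (h : W.toAffine.Nonsingular x y),
        ∃ h' : W'.toAffine.Nonsingular (φ x) (φ y), f (.some x y h) = .some (φ x) (φ y) h' := by
  subst hW
  let := φ.toAlgebra
  have h1 : ∃ f : (W.map (algebraMap F F)).toAffine.Point →+ (W.map φ).toAffine.Point,
      ∀ (x y : F) (h : (W.map (algebraMap F F)).toAffine.Nonsingular x y),
        ∃ h' : (W.map φ).toAffine.Nonsingular (φ x) (φ y),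
          f (.some x y h) = .some (φ x) (φ y) h' :=
    ⟨WeierstrassCurve.Affine.Point.map (R := F) (S := F) (F := F) (K := K) (W' := W.toAffine)
      (Algebra.ofId F K), fun x y h => ⟨_, rfl⟩⟩
  have h2 : W.map (algebraMap F F) = W := W.map_id
  rwa [h2] at h1

private lemma pm_map_legendre (φ : RatFunc k →+* RatFunc L) {w : k[X]} {w' : L[X]}
    (hφ : φ (algebraMap k[X] (RatFunc k) w) = algebraMap L[X] (RatFunc L) w') :
    (legendre w).map φ = legendre w' := by
  simp [legendre, WeierstrassCurve.map, hφ]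

private lemma pm_isSquare (φ : RatFunc k →+* RatFunc L) {x y : RatFunc k} (hx : x ≠ 0)
    (hy : y ≠ 0) (h : sqClass x = sqClass y) : sqClass (φ x) = sqClass (φ y) := by
  have h1 : sqClass (x * y) = 0 := by
    rw [sqClass_mul hx hy, h, modSq_two]
  obtain ⟨z, hz⟩ := (sqClass_eq_zero_iff (mul_ne_zero hx hy)).mp h1
  have hφ : ∀ {a : RatFunc k}, a ≠ 0 → φ a ≠ 0 := fun ha => (map_ne_zero φ).mpr ha
  have h2 : sqClass (φ x * φ y) = 0 := by
    rw [sqClass_eq_zero_iff (mul_ne_zero (hφ hx) (hφ hy))]
    exact ⟨φ z, by rw [← map_mul, hz, map_mul]⟩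
  rw [sqClass_mul (hφ hx) (hφ hy)] at h2
  have h3 := modSq_two (sqClass (φ y))
  have h4 : sqClass (φ x) + sqClass (φ y) = sqClass (φ y) + sqClass (φ y) := by rw [h2, h3]
  exact add_right_cancel h4

private lemma pm_legAlpha_neg_one [DecidableEq (RatFunc k)] (w : k[X]) (hw1 : w ≠ 1)
    {x y : RatFunc k} (h : (legendre w).toAffine.Nonsingular x y) (hx : x = -1) :
    legAlpha w hw1 (.some x y h) = sqClass (1 - algebraMap k[X] (RatFunc k) w) := by
  have h1 : legAlpha w hw1 (.some x y h) = sqClass (alpha (legendre w) (-1)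
      (1 - algebraMap k[X] (RatFunc k) w) (.some x y h)) := rfl
  rw [h1, alpha_some, if_pos hx]

open Classical in
/-- the map on points of Legendre curves induced by a field homomorphism -/
theorem exists_legendre_map (φ : RatFunc k →+* RatFunc L) {w : k[X]} {w' : L[X]}
    (hφ : φ (algebraMap k[X] (RatFunc k) w) = algebraMap L[X] (RatFunc L) w') (hw1 : w ≠ 1)
    (hw1' : w' ≠ 1) :
    ∃ f : (legendre w).toAffine.Point →+ (legendre w').toAffine.Point,
      (∀ (x y : RatFunc k) (h : (legendre w).toAffine.Nonsingular x y),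
        ∃ h' : (legendre w').toAffine.Nonsingular (φ x) (φ y),
          f (.some x y h) = .some (φ x) (φ y) h') ∧
      ∀ (P : (legendre w).toAffine.Point) (F : RatFunc k), F ≠ 0 →
        legAlpha w hw1 P = sqClass F → legAlpha w' hw1' (f P) = sqClass (φ F) := by
  obtain ⟨f, hf⟩ := pm_point_map φ (legendre w) (legendre w') (pm_map_legendre φ hφ)
  refine ⟨f, hf, ?_⟩
  intro P F hF hP
  rcases P with _ | ⟨x, y, h⟩
  · have h1 : legAlpha w hw1 (0 : (legendre w).toAffine.Point) = 0 := map_zero _
    have h2 : legAlpha w' hw1' (f (0 : (legendre w).toAffine.Point)) = 0 := by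
      rw [map_zero, map_zero]
    change legAlpha w hw1 (0 : (legendre w).toAffine.Point) = sqClass F at hP
    change legAlpha w' hw1' (f (0 : (legendre w).toAffine.Point)) = sqClass (φ F)
    rw [h2]
    rw [h1, ← sqClass_one] at hP
    have h3 := pm_isSquare φ one_ne_zero hF hP
    rw [map_one, sqClass_one] at h3
    exact h3
  · obtain ⟨h', hf'⟩ := hf x y h
    rw [hf']
    by_cases hx : x = -1
    · have hx' : φ x = -1 := by rw [hx, map_neg, map_one]
      rw [pm_legAlpha_neg_one w hw1 h hx] at hP
      rw [pm_legAlpha_neg_one w' hw1' h' hx']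
      have h4 : (1 - algebraMap k[X] (RatFunc k) w) ≠ 0 := by
        rw [← map_one (algebraMap k[X] (RatFunc k)), ← map_sub]
        intro h
        have h1 := RatFunc.algebraMap_injective k (h.trans (map_zero _).symm)
        exact hw1 (sub_eq_zero.mp h1).symm
      have h5 := pm_isSquare φ h4 hF hP
      rwa [map_sub, map_one, hφ] at h5
    · have hx' : φ x ≠ -1 := by
        intro h6
        apply hx
        apply φ.injective
        rw [h6, map_neg, map_one]
      rw [legAlpha_some w hw1 h hx] at hP
      rw [legAlpha_some w' hw1' h' hx']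
      have h4 : x + 1 ≠ 0 := by
        intro h6
        exact hx (eq_neg_of_add_eq_zero_left h6)
      have h5 := pm_isSquare φ h4 hF hP
      rwa [map_add, map_one] at h5

/-- multiplicities do not change where the homomorphism is unramified -/
theorem multiplicity_map (φ : k[X] →+* L[X]) (hφ : Function.Injective φ) {m : k[X]} {ρ : L[X]}
    (hm : Irreducible m) (hρ : Irreducible ρ) (h1 : ρ ∣ φ m) (h2 : ¬ ρ ^ 2 ∣ φ m) {F : k[X]}
    (hF : F ≠ 0) : multiplicity ρ (φ F) = multiplicity m F := by
  have _ := hφ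
  have hfin : FiniteMultiplicity m F := FiniteMultiplicity.of_prime_left hm.prime hF
  obtain ⟨G, hG, hG'⟩ := hfin.exists_eq_pow_mul_and_not_dvd
  obtain ⟨s, hs⟩ := h1
  have hs' : ¬ ρ ∣ s := by
    rintro ⟨r, hr⟩
    exact h2 ⟨r, by rw [hs, hr]; ring⟩
  have hcop : IsCoprime m G := (hm.coprime_iff_not_dvd).mpr hG'
  obtain ⟨a, b, hab⟩ := hcop
  have hab' : φ a * φ m + φ b * φ G = 1 := by
    rw [← map_mul, ← map_mul, ← map_add, hab, map_one]
  have hG2 : ¬ ρ ∣ φ G := by
    intro h
    apply hρ.not_isUnit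
    apply isUnit_of_dvd_one
    rw [← hab', hs]
    exact dvd_add ((dvd_mul_right ρ s).mul_left _) (h.mul_left _)
  have hφF : φ F = ρ ^ multiplicity m F * (s ^ multiplicity m F * φ G) := by
    conv_lhs => rw [hG]
    rw [map_mul, map_pow, hs, mul_pow, mul_assoc]
  have hnd : ¬ ρ ∣ s ^ multiplicity m F * φ G := by
    intro h
    rcases hρ.prime.dvd_or_dvd h with h | h
    · exact hs' (hρ.prime.dvd_of_dvd_pow h)
    · exact hG2 h
  apply multiplicity_eq_of_dvd_of_not_dvd
  · rw [hφF]
    exact dvd_mul_right _ _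
  · intro h
    rw [hφF, pow_succ] at h
    exact hnd ((mul_dvd_mul_iff_left (pow_ne_zero _ hρ.ne_zero)).mp h)

end Pool.Agent.BSDFF.Odd
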