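import Pool.Agent.Lib.MP_48b749_nt.Odd.Fixed

/-!
Module PT2. Galois descent of points: a point of `y ^ 2 = x (x + 1) (x + X ^ n)` over `L(X)` fixed by
the Frobenius of the coefficients and by `X ↦ η X` comes from `y ^ 2 = x (x + 1) (x + X ^ d)`
over `k(X)`, `n = e d`, by `X ↦ X ^ e`.
-/

set_option autoImplicit false

open Polynomial

namespace Pool.Agent.BSDFF.Odd

section

variable {k L : Type} [Field k] [Field L]

private lemma legendre_map (φ : RatFunc k →+* RatFunc L) {w : k[X]} {w' : L[X]}
    (hφ : φ (algebraMap k[X] (RatFunc k) w) = algebraMap L[X] (RatFunc L) w') :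
    (legendre w).map φ = legendre w' := by
  simp only [legendre, WeierstrassCurve.map, map_add, map_one, map_zero, hφ]

private lemma frob_X_pow (k : Type) {L : Type} [Field k] [Finite k] [Field L] [Algebra k L]
    (n : ℕ) :
    ratHom (frobPoly k L) (frobPoly_injective k) (algebraMap L[X] (RatFunc L) (X ^ n)) =
      algebraMap L[X] (RatFunc L) (X ^ n) := by
  rw [ratHom_algebraMap, map_pow, (frobPoly_apply (k := k) (0 : L)).2]

private lemma rot_X_pow {L : Type} [Field L] {e d n : ℕ} (hn : n = e * d) {η : L}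
    (hη : IsPrimitiveRoot η e) (hη0 : η ≠ 0) :
    ratHom (rotPoly η) (rotPoly_injective hη0) (algebraMap L[X] (RatFunc L) (X ^ n)) =
      algebraMap L[X] (RatFunc L) (X ^ n) := by
  rw [ratHom_algebraMap, map_pow]
  have h1 : rotPoly η (X : L[X]) = C η * X := by
    rw [rotPoly, coe_compRingHom_apply, X_comp]
  rw [h1, mul_pow, ← C_pow, hn, pow_mul, hη.pow_eq_one, one_pow, C_1, one_mul]

private lemma base_X_pow (k : Type) {L : Type} [Field k] [Finite k] [Field L] [Algebra k L]
    {e d n : ℕ} (he : e ≠ 0) (hn : n = e * d) :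
    ratHom (basePoly k L e) (basePoly_injective k he) (algebraMap k[X] (RatFunc k) (X ^ d)) =
      algebraMap L[X] (RatFunc L) (X ^ n) := by
  rw [ratHom_algebraMap, map_pow]
  have h1 : basePoly k L e (X : k[X]) = X ^ e := by
    rw [basePoly, RingHom.comp_apply, coe_mapRingHom, Polynomial.map_X, coe_compRingHom_apply,
      X_comp]
  rw [h1, ← pow_mul, hn]

end

variable (k : Type) {L : Type} [Field k] [Finite k] [Field L] [Algebra k L]

open Classical in
theorem exists_descended_point {e d n : ℕ} (he : e ≠ 0) (hn : n = e * d) {η : L}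
    (hη : IsPrimitiveRoot η e) (hη0 : η ≠ 0) (hk1 : (X ^ d : k[X]) ≠ 1)
    (hL1 : (X ^ n : L[X]) ≠ 1) (P : (legendre (X ^ n : L[X])).toAffine.Point)
    (h1 : ∀ g : (legendre (X ^ n : L[X])).toAffine.Point →+
        (legendre (X ^ n : L[X])).toAffine.Point,
      (∀ (x y : RatFunc L) (h : (legendre (X ^ n : L[X])).toAffine.Nonsingular x y),
        ∃ h' : (legendre (X ^ n : L[X])).toAffine.Nonsingular
            (ratHom (frobPoly k L) (frobPoly_injective k) x)
            (ratHom (frobPoly k L) (frobPoly_injective k) y),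
          g (.some x y h) = .some _ _ h') → g P = P)
    (h2 : ∀ g : (legendre (X ^ n : L[X])).toAffine.Point →+
        (legendre (X ^ n : L[X])).toAffine.Point,
      (∀ (x y : RatFunc L) (h : (legendre (X ^ n : L[X])).toAffine.Nonsingular x y),
        ∃ h' : (legendre (X ^ n : L[X])).toAffine.Nonsingular
            (ratHom (rotPoly η) (rotPoly_injective hη0) x)
            (ratHom (rotPoly η) (rotPoly_injective hη0) y),
          g (.some x y h) = .some _ _ h') → g P = P) :
    ∃ P₀ : (legendre (X ^ d : k[X])).toAffine.Point, ∀ F : RatFunc k, F ≠ 0 →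
      legAlpha (X ^ d : k[X]) hk1 P₀ = sqClass F →
        legAlpha (X ^ n : L[X]) hL1 P =
          sqClass (ratHom (basePoly k L e) (basePoly_injective k he) F) := by
  set β := ratHom (basePoly k L e) (basePoly_injective k he) with hβ
  have hβw := base_X_pow k (L := L) he hn
  rw [← hβ] at hβw
  obtain ⟨f, hf1, hf2⟩ := exists_legendre_map β hβw hk1 hL1
  suffices h : ∃ P₀, f P₀ = P by
    obtain ⟨P₀, rfl⟩ := h
    exact ⟨P₀, fun F hF h => hf2 P₀ F hF h⟩
  rcases P with _ | ⟨x, y, h⟩
  · exact ⟨0, map_zero f⟩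
  · obtain ⟨g, hg, -⟩ := exists_legendre_map (ratHom (frobPoly k L) (frobPoly_injective k))
      (frob_X_pow k n) hL1 hL1
    have h3 := h1 g hg
    obtain ⟨h', hg'⟩ := hg x y h
    rw [hg'] at h3
    have h4 := WeierstrassCurve.Affine.Point.some.inj h3
    obtain ⟨g2, hg2, -⟩ := exists_legendre_map (ratHom (rotPoly η) (rotPoly_injective hη0))
      (rot_X_pow hn hη hη0) hL1 hL1
    have h5 := h2 g2 hg2
    obtain ⟨h2', hg2'⟩ := hg2 x y h
    rw [hg2'] at h5
    have h6 := WeierstrassCurve.Affine.Point.some.inj h5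
    obtain ⟨x₀, rfl⟩ := exists_of_fixed k he hη hη0 x h4.1 h6.1
    obtain ⟨y₀, rfl⟩ := exists_of_fixed k he hη hη0 y h4.2 h6.2
    have hns : (legendre (X ^ d : k[X])).toAffine.Nonsingular x₀ y₀ := by
      have h7 : ((legendre (X ^ d : k[X])).map β).toAffine.Nonsingular (β x₀) (β y₀) := by
        rw [legendre_map β hβw]
        exact h
      exact (WeierstrassCurve.Affine.map_nonsingular (legendre (X ^ d : k[X])).toAffine
        β.injective x₀ y₀).mp h7
    refine ⟨.some x₀ y₀ hns, ?_⟩
    obtain ⟨h8, h9⟩ := hf1 x₀ y₀ hns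
    rw [h9]

end Pool.Agent.BSDFF.Odd
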