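import Pool.Agent.Lib.MP_48b749_nt.Odd.Pts1
import Pool.Agent.Lib.MP_48b749_nt.Odd.Pts2

/-!
Module PT3. Points of `y ^ 2 = x (x + 1) (x + s ^ d)` over `k(s)`, `d` odd, `d ∣ p ^ f + 1`: sums of
the points `(c w, c w (1 + c w) ^ ((p ^ f + 1) / 2))`, `w ^ ((p ^ f + 1) / d) = s`, over Galois
orbits of `(p ^ f + 1)`-th roots of unity `c`.
-/

set_option autoImplicit false

open Polynomial

namespace Pool.Agent.BSDFF.Odd

section aux

variable {L : Type} [Field L]

private lemma pts_finite {n : ℕ} (hn : n ≠ 0) : Finite {c : L // c ^ n = 1} := by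
  have h : (X ^ n - 1 : L[X]) ≠ 0 := X_pow_sub_C_ne_zero (Nat.pos_of_ne_zero hn) 1
  have h2 : Set.Finite {c : L | c ^ n = 1} := by
    refine ((X ^ n - 1 : L[X]).rootSet_finite L).subset ?_
    intro c hc
    rw [mem_rootSet]
    refine ⟨h, ?_⟩
    have h3 : c ^ n = 1 := hc
    simp [h3]
  exact h2

private lemma pts_irreducible {n : ℕ} (hn : Even n) (hn0 : n ≠ 0) {c : L} (hc : c ^ n = 1) :
    Irreducible (1 + C c * X : L[X]) :=
  irreducible_one_add hn hn0 (u := X) (fun z _ => irreducible_X_sub_C z) hc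

open Classical in
private lemma pts_mult {n : ℕ} (hn : Even n) (hn0 : n ≠ 0) (O : Finset {c : L // c ^ n = 1})
    (c' : {c : L // c ^ n = 1}) :
    Odd (multiplicity (1 + C c'.1 * X : L[X]) (∏ c ∈ O, (1 + C c.1 * X))) ↔ c' ∈ O := by
  have hi := pts_irreducible hn hn0 c'.2
  have key : ∀ S : Finset {c : L // c ^ n = 1}, c' ∉ S →
      ¬ (1 + C c'.1 * X : L[X]) ∣ ∏ c ∈ S, (1 + C c.1 * X) := by
    intro S hS h
    obtain ⟨c, hc, hd⟩ := (hi.prime.dvd_finsetProd_iff _).mp h
    have hne : c'.1 ≠ c.1 := fun h => hS (by rwa [Subtype.ext h])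
    exact hi.not_isUnit ((isCoprime_one_add (u := (X : L[X])) hne).isUnit_of_dvd' dvd_rfl hd)
  by_cases h : c' ∈ O
  · refine ⟨fun _ => h, fun _ => ?_⟩
    rw [← Finset.mul_prod_erase O _ h]
    have h1 := key (O.erase c') (Finset.notMem_erase c' O)
    have h2 : (∏ c ∈ O.erase c', (1 + C c.1 * X) : L[X]) ≠ 0 := fun h3 => h1 (h3 ▸ dvd_zero _)
    rw [multiplicity_mul hi.prime (FiniteMultiplicity.of_not_isUnit hi.not_isUnit
      (mul_ne_zero hi.ne_zero h2)), multiplicity_eq_zero.mpr h1, multiplicity_self]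
    exact odd_one
  · refine ⟨fun h3 => ?_, fun h3 => absurd h3 h⟩
    rw [multiplicity_eq_zero.mpr (key O h)] at h3
    exact absurd h3 (by decide)

private lemma pts_even {ρ A B s : L[X]} (hρ : Irreducible ρ) (hA : A ≠ 0) (hB : B ≠ 0)
    (h : A * B = s * s) : Odd (multiplicity ρ A) ↔ Odd (multiplicity ρ B) := by
  have hs : s ≠ 0 := by
    rintro rfl
    rw [mul_zero] at h
    exact mul_ne_zero hA hB h
  have h1 := multiplicity_mul hρ.prime (FiniteMultiplicity.of_not_isUnit hρ.not_isUnit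
    (mul_ne_zero hA hB))
  have h2 := multiplicity_mul hρ.prime (FiniteMultiplicity.of_not_isUnit hρ.not_isUnit
    (mul_ne_zero hs hs))
  rw [h, h2] at h1
  rw [Nat.odd_iff, Nat.odd_iff]
  omega

private lemma pts_exists_poly {k : Type} [Field k] (v : SqGrp (RatFunc k)) :
    ∃ F : k[X], F ≠ 0 ∧ v = sqClass (algebraMap k[X] (RatFunc k) F) := by
  obtain ⟨x, rfl⟩ := SqGrp.mk_surjective v
  have hx : (x : RatFunc k) ≠ 0 := x.ne_zero
  have h1 : SqGrp.mk x = sqClass (x : RatFunc k) := by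
    unfold sqClass
    rw [dif_pos hx]
    congr 1
    exact Units.ext rfl
  have hd : algebraMap k[X] (RatFunc k) (x : RatFunc k).denom ≠ 0 := by
    rw [Ne, map_eq_zero_iff _ (RatFunc.algebraMap_injective k)]
    exact RatFunc.denom_ne_zero _
  have h2 : algebraMap k[X] (RatFunc k) ((x : RatFunc k).num * (x : RatFunc k).denom) =
      (x : RatFunc k) * (algebraMap k[X] (RatFunc k) (x : RatFunc k).denom *
        algebraMap k[X] (RatFunc k) (x : RatFunc k).denom) := by
    have h3 := RatFunc.num_div_denom (x : RatFunc k)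
    rw [div_eq_iff hd] at h3
    rw [map_mul, h3]
    ring
  refine ⟨(x : RatFunc k).num * (x : RatFunc k).denom,
    mul_ne_zero (RatFunc.num_ne_zero hx) (RatFunc.denom_ne_zero _), ?_⟩
  rw [h1, h2, sqClass_mul hx (mul_ne_zero hd hd), sqClass_mul hd hd, modSq_two, add_zero]

end aux

variable {k : Type} [Field k] [Finite k]

open Classical in
theorem exists_orbit_point (p f d : ℕ) [Fact p.Prime] [CharP k p] (hp2 : p ≠ 2) (hd : Odd d)
    (hdf : d ∣ p ^ f + 1) (hw1 : (X ^ d : k[X]) ≠ 1) {m : k[X]} (hm : m.Monic)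
    (hi : Irreducible m) (hmd : m ∣ X ^ d - 1) :
    ∃ (P : (legendre (X ^ d : k[X])).toAffine.Point) (F : k[X]), F ≠ 0 ∧
      legAlpha (X ^ d : k[X]) hw1 P = sqClass (algebraMap k[X] (RatFunc k) F) ∧
      ∀ m' : k[X], m'.Monic → Irreducible m' → m' ∣ X ^ d - 1 →
        (Odd (multiplicity m' F) ↔ m' = m) := by
  obtain ⟨e, hn⟩ := hdf
  rw [mul_comm] at hn
  set L := AlgebraicClosure k with hL
  have : CharP L p := (Algebra.charP_iff k L p).mp inferInstance
  have hpn : Even (p ^ f + 1) :=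
    ((Nat.Prime.odd_of_ne_two (Fact.out) hp2).pow).add_odd odd_one
  have hn0 : p ^ f + 1 ≠ 0 := Nat.succ_ne_zero _
  have he0 : e ≠ 0 := by
    rintro rfl
    rw [zero_mul] at hn
    exact hn0 hn
  have hee : Even e := by
    rw [hn, Nat.even_mul] at hpn
    rcases hpn with h | h
    · exact h
    · exact absurd h (Nat.not_even_iff_odd.mpr hd)
  have hnL : ((p ^ f + 1 : ℕ) : L) ≠ 0 := by
    rw [Nat.cast_add, Nat.cast_pow, CharP.cast_eq_zero L p, Nat.cast_one]
    rcases f with _ | f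
    · rw [pow_zero, one_add_one_eq_two]
      exact Ring.two_ne_zero (by rwa [ringChar.eq L p])
    · rw [zero_pow (Nat.succ_ne_zero f), zero_add]
      exact one_ne_zero
  have heL : (e : L) ≠ 0 := by
    intro h
    apply hnL
    rw [hn, Nat.cast_mul, h, zero_mul]
  have : NeZero (e : L) := ⟨heL⟩
  obtain ⟨η, hη⟩ := HasEnoughRootsOfUnity.exists_primitiveRoot L e
  have hη0 : η ≠ 0 := hη.ne_zero he0
  have hL1 : (X ^ (p ^ f + 1) : L[X]) ≠ 1 := by
    intro h
    have := congrArg natDegree h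
    rw [natDegree_X_pow, natDegree_one] at this
    exact hn0 this
  obtain ⟨Z, hZ1, hZ2⟩ := exists_zpoints (L := L) p f hp2 hL1
  have hfin : Finite {c : L // c ^ (p ^ f + 1) = 1} := pts_finite hn0
  let := Fintype.ofFinite {c : L // c ^ (p ^ f + 1) = 1}
  let O : Finset {c : L // c ^ (p ^ f + 1) = 1} :=
    Finset.univ.filter fun c => aeval ((c.1 ^ e)⁻¹) m = 0
  have hO : ∀ c, c ∈ O ↔ aeval ((c.1 ^ e)⁻¹) m = 0 := fun c => by simp [O]
  -- Frobenius
  let := Fintype.ofFinite k
  have hq0 : ∀ c : L, FiniteField.frobeniusAlgHom k L c = c ^ Nat.card k := by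
    intro c
    rw [FiniteField.coe_frobeniusAlgHom, Nat.card_eq_fintype_card]
  have hinv1 : ∀ g : (legendre (X ^ (p ^ f + 1) : L[X])).toAffine.Point →+
        (legendre (X ^ (p ^ f + 1) : L[X])).toAffine.Point,
      (∀ (x y : RatFunc L) (h : (legendre (X ^ (p ^ f + 1) : L[X])).toAffine.Nonsingular x y),
        ∃ h' : (legendre (X ^ (p ^ f + 1) : L[X])).toAffine.Nonsingular
            (ratHom (frobPoly k L) (frobPoly_injective k) x)
            (ratHom (frobPoly k L) (frobPoly_injective k) y),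
          g (.some x y h) = .some _ _ h') → g (∑ c ∈ O, Z c) = ∑ c ∈ O, Z c := by
    intro g hg
    let σ : {c : L // c ^ (p ^ f + 1) = 1} → {c : L // c ^ (p ^ f + 1) = 1} := fun c =>
      ⟨c.1 ^ Nat.card k, by rw [← pow_mul, mul_comm, pow_mul, c.2, one_pow]⟩
    have hσ : Function.Bijective σ := by
      apply Finite.injective_iff_bijective.mp
      intro c c' h
      have h1 : c.1 ^ Nat.card k = c'.1 ^ Nat.card k := congrArg Subtype.val h
      rw [← hq0, ← hq0] at h1
      exact Subtype.ext ((FiniteField.frobeniusAlgHom k L).toRingHom.injective h1)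
    have hgZ : ∀ c, g (Z c) = Z (σ c) := by
      intro c
      refine hZ2 (frobPoly k L) (frobPoly_injective k) g hg c (σ c) ?_
      rw [map_mul, (frobPoly_apply (k := k) c.1).1, (frobPoly_apply (k := k) c.1).2]
    rw [map_sum]
    simp only [hgZ]
    refine Finset.sum_equiv (Equiv.ofBijective σ hσ) (fun c => ?_) (fun c _ => rfl)
    rw [hO, hO, Equiv.ofBijective_apply]
    have h2 : ((σ c).1 ^ e)⁻¹ = FiniteField.frobeniusAlgHom k L ((c.1 ^ e)⁻¹) := by
      rw [map_inv₀, map_pow, hq0]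
    rw [h2, aeval_algHom_apply]
    exact (map_eq_zero_iff _ (FiniteField.frobeniusAlgHom k L).toRingHom.injective).symm
  have hinv2 : ∀ g : (legendre (X ^ (p ^ f + 1) : L[X])).toAffine.Point →+
        (legendre (X ^ (p ^ f + 1) : L[X])).toAffine.Point,
      (∀ (x y : RatFunc L) (h : (legendre (X ^ (p ^ f + 1) : L[X])).toAffine.Nonsingular x y),
        ∃ h' : (legendre (X ^ (p ^ f + 1) : L[X])).toAffine.Nonsingular
            (ratHom (rotPoly η) (rotPoly_injective hη0) x)
            (ratHom (rotPoly η) (rotPoly_injective hη0) y),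
          g (.some x y h) = .some _ _ h') → g (∑ c ∈ O, Z c) = ∑ c ∈ O, Z c := by
    intro g hg
    have hηe : η ^ e = 1 := hη.pow_eq_one
    let σ : {c : L // c ^ (p ^ f + 1) = 1} → {c : L // c ^ (p ^ f + 1) = 1} := fun c =>
      ⟨c.1 * η, by rw [mul_pow, c.2, one_mul, hn, pow_mul, hηe, one_pow]⟩
    have hσ : Function.Bijective σ := by
      apply Finite.injective_iff_bijective.mp
      intro c c' h
      have h1 : c.1 * η = c'.1 * η := congrArg Subtype.val h
      exact Subtype.ext (mul_right_cancel₀ hη0 h1)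
    have hgZ : ∀ c, g (Z c) = Z (σ c) := by
      intro c
      refine hZ2 (rotPoly η) (rotPoly_injective hη0) g hg c (σ c) ?_
      rw [rotPoly, coe_compRingHom_apply, mul_comp, C_comp, X_comp, ← mul_assoc, ← C_mul]
    rw [map_sum]
    simp only [hgZ]
    refine Finset.sum_equiv (Equiv.ofBijective σ hσ) (fun c => ?_) (fun c _ => rfl)
    rw [hO, hO, Equiv.ofBijective_apply]
    have h2 : (σ c).1 ^ e = c.1 ^ e := by
      change (c.1 * η) ^ e = _
      rw [mul_pow, hηe, mul_one]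
    rw [h2]
  obtain ⟨P₀, hP₀⟩ := exists_descended_point k he0 hn hη hη0 hw1 hL1 (∑ c ∈ O, Z c) hinv1 hinv2
  obtain ⟨F, hF, hFc⟩ := pts_exists_poly (legAlpha (X ^ d : k[X]) hw1 P₀)
  refine ⟨P₀, F, hF, hFc, fun m' hm' hi' hmd' => ?_⟩
  have hF' : algebraMap k[X] (RatFunc k) F ≠ 0 := by
    rwa [Ne, map_eq_zero_iff _ (RatFunc.algebraMap_injective k)]
  have h1 := hP₀ _ hF' hFc
  rw [ratHom_algebraMap, map_sum] at h1
  simp only [hZ1] at h1
  have hne : ∀ c ∈ O, algebraMap L[X] (RatFunc L) (1 + C c.1 * X) ≠ 0 := by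
    intro c _
    rw [Ne, map_eq_zero_iff _ (RatFunc.algebraMap_injective L)]
    exact (pts_irreducible hpn hn0 c.2).ne_zero
  rw [← sqClass_prod O _ hne, ← map_prod] at h1
  set A : L[X] := ∏ c ∈ O, (1 + C c.1 * X) with hA
  set B : L[X] := basePoly k L e F with hB
  have hA0 : A ≠ 0 := Finset.prod_ne_zero_iff.mpr fun c _ => (pts_irreducible hpn hn0 c.2).ne_zero
  have hB0 : B ≠ 0 := by
    rw [hB, Ne, map_eq_zero_iff _ (basePoly_injective k he0)]
    exact hF
  have hA' : algebraMap L[X] (RatFunc L) A ≠ 0 := by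
    rwa [Ne, map_eq_zero_iff _ (RatFunc.algebraMap_injective L)]
  have hB' : algebraMap L[X] (RatFunc L) B ≠ 0 := by
    rwa [Ne, map_eq_zero_iff _ (RatFunc.algebraMap_injective L)]
  have hsq : IsSquare (algebraMap L[X] (RatFunc L) (A * B)) := by
    rw [map_mul, ← sqClass_eq_zero_iff (mul_ne_zero hA' hB'), sqClass_mul hA' hB', h1, modSq_two]
  obtain ⟨z, hz⟩ := hsq
  obtain ⟨s, hs⟩ := isSquare_of_algebraMap (P := A * B) (z := z) (by rw [pow_two, hz])
  -- a root of `m'`
  have hb' : ∃ b' : L, aeval b' m' = 0 := by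
    have h2 : (m'.map (algebraMap k L)).degree ≠ 0 := by
      rw [degree_map]
      exact (degree_pos_of_irreducible hi').ne'
    obtain ⟨b, hb⟩ := IsAlgClosed.exists_root _ h2
    exact ⟨b, by rwa [IsRoot, eval_map_algebraMap] at hb⟩
  obtain ⟨b', hb'⟩ := hb'
  have hbd : b' ^ d = 1 := by
    obtain ⟨g, hg⟩ := hmd'
    have h3 := congrArg (aeval b') hg
    rw [map_mul, hb', zero_mul, map_sub, map_pow, aeval_X, map_one, sub_eq_zero] at h3
    exact h3
  have hd0 : d ≠ 0 := hd.pos.ne'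
  have hb0 : b' ≠ 0 := by
    rintro rfl
    rw [zero_pow hd0] at hbd
    exact zero_ne_one hbd
  obtain ⟨c', hc'⟩ := IsAlgClosed.exists_pow_nat_eq (b'⁻¹) (Nat.pos_of_ne_zero he0)
  have hc'n : c' ^ (p ^ f + 1) = 1 := by
    rw [hn, pow_mul, hc', inv_pow, hbd, inv_one]
  have hc'0 : c' ≠ 0 := by
    rintro rfl
    rw [zero_pow hn0] at hc'n
    exact zero_ne_one hc'n
  have hρ := pts_irreducible hpn hn0 hc'n
  have hρm : (1 + C c' * X : L[X]) ∣ basePoly k L e m' := by
    obtain ⟨-, -, h3⟩ := one_add_eq hpn (u := (X : L[X])) hc'n hn0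
    rw [h3]
    have h4 : IsUnit (C c' : L[X]) := isUnit_C.mpr (isUnit_iff_ne_zero.mpr hc'0)
    rw [h4.mul_left_dvd, dvd_iff_isRoot, IsRoot, basePoly, RingHom.comp_apply, coe_mapRingHom,
      coe_compRingHom_apply, eval_comp, eval_pow, eval_X, hee.neg_pow, inv_pow, hc', inv_inv,
      eval_map_algebraMap]
    exact hb'
  have hρm2 : ¬ (1 + C c' * X : L[X]) ^ 2 ∣ basePoly k L e m' := by
    intro h
    have h2 : basePoly k L e m' ∣ X ^ (p ^ f + 1) - 1 := by
      have h3 := map_dvd (basePoly k L e) hmd'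
      have h4 : basePoly k L e (X ^ d - 1) = X ^ (p ^ f + 1) - 1 := by
        rw [basePoly, RingHom.comp_apply, coe_mapRingHom, Polynomial.map_sub, Polynomial.map_pow,
          Polynomial.map_X, Polynomial.map_one, coe_compRingHom_apply, sub_comp, pow_comp, X_comp,
          one_comp, ← pow_mul, hn]
      rwa [h4] at h3
    have h3 : (X ^ (p ^ f + 1) - 1 : L[X]).Separable := by
      rw [X_pow_sub_one_separable_iff]
      exact hnL
    have h4 := h3.squarefree
    rw [pow_two] at h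
    exact hρ.not_isUnit (h4 _ (h.trans h2))
  have hmult := multiplicity_map (basePoly k L e) (basePoly_injective k he0) hi' hρ hρm hρm2 hF
  rw [← hmult, ← hB, ← pts_even hρ hA0 hB0 hs]
  have h5 := pts_mult hpn hn0 O ⟨c', hc'n⟩
  rw [← hA] at h5
  rw [h5, hO]
  change aeval ((c' ^ e)⁻¹) m = 0 ↔ m' = m
  rw [hc', inv_inv]
  constructor
  · intro h
    rw [minpoly.eq_of_irreducible_of_monic hi' hb' hm', minpoly.eq_of_irreducible_of_monic hi h hm]
  · rintro rfl
    exact hb'

end Pool.Agent.BSDFF.Odd
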