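import Pool.Agent.Lib.MP_48b749_nt.Odd.PMap

/-!
Module PT1. The points `(c X, c X (1 + c X) ^ ((p ^ f + 1) / 2))`, `c ^ (p ^ f + 1) = 1`, of
`y ^ 2 = x (x + 1) (x + X ^ (p ^ f + 1))` over `L(X)` and their images under substitutions.
-/

set_option autoImplicit false

open Polynomial

namespace Pool.Agent.BSDFF.Odd

variable {L : Type} [Field L]

open Classical in
theorem exists_zpoints (p f : ℕ) [Fact p.Prime] [CharP L p] (hp2 : p ≠ 2)
    (hw1 : (X ^ (p ^ f + 1) : L[X]) ≠ 1) :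
    ∃ Z : {c : L // c ^ (p ^ f + 1) = 1} → (legendre (X ^ (p ^ f + 1) : L[X])).toAffine.Point,
      (∀ c, legAlpha (X ^ (p ^ f + 1) : L[X]) hw1 (Z c) =
        sqClass (algebraMap L[X] (RatFunc L) (1 + C c.1 * X))) ∧
      ∀ (φ : L[X] →+* L[X]) (hφ : Function.Injective φ)
        (g : (legendre (X ^ (p ^ f + 1) : L[X])).toAffine.Point →+
          (legendre (X ^ (p ^ f + 1) : L[X])).toAffine.Point),
        (∀ (x y : RatFunc L) (h : (legendre (X ^ (p ^ f + 1) : L[X])).toAffine.Nonsingular x y),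
          ∃ h' : (legendre (X ^ (p ^ f + 1) : L[X])).toAffine.Nonsingular (ratHom φ hφ x)
            (ratHom φ hφ y), g (.some x y h) = .some (ratHom φ hφ x) (ratHom φ hφ y) h') →
        ∀ c c' : {c : L // c ^ (p ^ f + 1) = 1}, φ (C c.1 * X) = C c'.1 * X → g (Z c) = Z c' := by
  have h2 : (2 : L) ≠ 0 := by
    intro h
    have h5 : ((2 : ℕ) : L) = 0 := by exact_mod_cast h
    rw [CharP.cast_eq_zero_iff L p] at h5
    exact hp2 ((Nat.prime_dvd_prime_iff_eq Fact.out Nat.prime_two).mp h5)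
  have hw0 : (X ^ (p ^ f + 1) : L[X]) ≠ 0 := pow_ne_zero _ X_ne_zero
  have hΔ := legendre_Δ_ne_zero h2 hw0 hw1
  have hnc : ∀ c : L, (C c * X : L[X]) ≠ -1 := by
    intro c h
    have h5 := congrArg (fun q : L[X] => q.coeff 0) h
    simp at h5
  refine ⟨fun c => WeierstrassCurve.Affine.Point.some _ _
      ((WeierstrassCurve.Affine.equation_iff_nonsingular_of_Δ_ne_zero hΔ).mp
        (zpoint_equation p hp2 f X c.1 c.2)), ?_, ?_⟩
  · intro c
    rw [legAlpha_some]
    · rw [map_add, map_one, add_comm]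
    · intro h5
      apply hnc c.1
      apply RatFunc.algebraMap_injective L
      rw [h5, map_neg, map_one]
  · intro φ hφ g hg c c' hcc
    obtain ⟨h', hh'⟩ := hg _ _
      ((WeierstrassCurve.Affine.equation_iff_nonsingular_of_Δ_ne_zero hΔ).mp
        (zpoint_equation p hp2 f X c.1 c.2))
    refine hh'.trans ?_
    have hx : ratHom φ hφ (algebraMap L[X] (RatFunc L) (C c.1 * X)) =
        algebraMap L[X] (RatFunc L) (C c'.1 * X) := by
      rw [ratHom_algebraMap, hcc]
    have hy : ratHom φ hφ (algebraMap L[X] (RatFunc L)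
        (C c.1 * X * (1 + C c.1 * X) ^ ((p ^ f + 1) / 2))) =
        algebraMap L[X] (RatFunc L) (C c'.1 * X * (1 + C c'.1 * X) ^ ((p ^ f + 1) / 2)) := by
      rw [ratHom_algebraMap, map_mul, map_pow, map_add, map_one, hcc]
    simp only [hx, hy]

end Pool.Agent.BSDFF.Odd
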