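import Pool.Agent.Lib.MP_48b749_nt.Odd.Lower
import Pool.Agent.Lib.MP_48b749_nt.LegFinal

/-!
The main theorem: the rank of `y ^ 2 = x (x + 1) (x + u ^ d)` and the triviality of the `2`-torsion
of its Tate-Shafarevich group.
-/

set_option autoImplicit false

open Polynomial

namespace Pool.Agent.BSDFF.Odd

variable {k : Type} [Field k] [Finite k]

lemma cast_ne_zero_of_dvd (p f d : ℕ) [hp : Fact p.Prime] [CharP k p] (hp2 : p ≠ 2)
    (hdf : d ∣ p ^ f + 1) : (d : k) ≠ 0 := by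
  intro h
  rw [CharP.cast_eq_zero_iff k p] at h
  have h1 : p ∣ p ^ f + 1 := h.trans hdf
  rcases Nat.eq_zero_or_pos f with hf | hf
  · rw [hf, pow_zero] at h1
    have h2 : p ≤ 2 := Nat.le_of_dvd (by norm_num) h1
    have h3 := hp.out.two_le
    omega
  · have h2 : p ∣ p ^ f := dvd_pow_self p hf.ne'
    have h3 : p ∣ 1 := (Nat.dvd_add_right h2).mp h1
    exact hp.out.one_lt.ne' (Nat.dvd_one.mp h3)

lemma two_ne_zero_of_char (p : ℕ) [hp : Fact p.Prime] [CharP k p] (hp2 : p ≠ 2) : (2 : k) ≠ 0 := by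
  intro h
  have h5 : ((2 : ℕ) : k) = 0 := by exact_mod_cast h
  rw [CharP.cast_eq_zero_iff k p] at h5
  exact hp2 ((Nat.prime_dvd_prime_iff_eq hp.out Nat.prime_two).mp h5)

lemma natDegree_pos_of_oddNonsplit {d : ℕ} {u : k[X]} (hu : OddNonsplit d u) :
    0 < u.natDegree := by
  obtain ⟨c, v, e, hc, hv, hvo, he, huv⟩ := hu.at_zero
  rw [huv, natDegree_C_mul hc, natDegree_pow]
  exact Nat.mul_pos he.pos hvo.pos

open Classical in
theorem rank_and_sha (p f d : ℕ) [Fact p.Prime] [CharP k p] (hp2 : p ≠ 2) (hd : Odd d)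
    (hdf : d ∣ p ^ f + 1) {u : k[X]} (hu : OddNonsplit d u) :
    AddGroup.FG (legendre (u ^ d)).toAffine.Point ∧
      algebraicRank (legendre (u ^ d)) + 1 = numFactors k d ∧
      ShaTwoTrivial k (algebraMap k[X] (RatFunc k) (u ^ d)) := by
  have h2 : (2 : k) ≠ 0 := two_ne_zero_of_char p hp2
  have hdk := cast_ne_zero_of_dvd (k := k) p f d hp2 hdf
  have hd0 : d ≠ 0 := hd.pos.ne'
  have hudeg := natDegree_pos_of_oddNonsplit hu
  have hw0 : u ^ d ≠ 0 := by
    apply pow_ne_zero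
    rintro rfl
    simp at hudeg
  have hw1 : u ^ d ≠ 1 := by
    intro h
    have := congrArg natDegree h
    rw [natDegree_pow, natDegree_one] at this
    rcases Nat.mul_eq_zero.mp this with h5 | h5
    · exact hd0 h5
    · omega
  have hΔ := legendre_Δ_ne_zero h2 hw0 hw1
  have hell : (legendre (u ^ d)).IsElliptic := ⟨isUnit_iff_ne_zero.mpr hΔ⟩
  obtain ⟨S, hScard, hS⟩ := exists_many_classes p f d hp2 hd hdf hu hw0 hw1
  obtain ⟨hfin, hcard⟩ := selSet_card_le hdk hu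
  have hsub1 : (S : Set (SqGrp (RatFunc k) × SqGrp (RatFunc k))) ⊆
      ((legDelta (u ^ d) hw0 hw1).range : Set (SqGrp (RatFunc k) × SqGrp (RatFunc k))) :=
    fun c hc => hS c hc
  have hsub2 : ((legDelta (u ^ d) hw0 hw1).range : Set (SqGrp (RatFunc k) × SqGrp (RatFunc k))) ⊆
      SelSet (algebraMap k[X] (RatFunc k) (u ^ d)) := by
    rintro c ⟨P, rfl⟩
    exact legDelta_mem (u ^ d) hw0 hw1 P
  have hfinR : ((legDelta (u ^ d) hw0 hw1).range :
      Set (SqGrp (RatFunc k) × SqGrp (RatFunc k))).Finite := hfin.subset hsub2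
  have h1 : 2 ^ (numFactors k d + 1) ≤ ((legDelta (u ^ d) hw0 hw1).range :
      Set (SqGrp (RatFunc k) × SqGrp (RatFunc k))).ncard := by
    refine hScard.trans ?_
    rw [← Set.ncard_coe_finset S]
    exact Set.ncard_le_ncard hsub1 hfinR
  have h3 : ((legDelta (u ^ d) hw0 hw1).range :
      Set (SqGrp (RatFunc k) × SqGrp (RatFunc k))) =
      SelSet (algebraMap k[X] (RatFunc k) (u ^ d)) :=
    Set.eq_of_subset_of_ncard_le hsub2 (hcard.trans h1) hfin
  have h4 : ((legDelta (u ^ d) hw0 hw1).range :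
      Set (SqGrp (RatFunc k) × SqGrp (RatFunc k))).ncard = 2 ^ (numFactors k d + 1) := by
    refine le_antisymm ?_ h1
    rw [h3]
    exact hcard
  have hindex : (MW.nG (legendre (u ^ d)).toAffine.Point 2).index =
      2 ^ (numFactors k d + 1) := by
    rw [← legDelta_ker h2 (u ^ d) hw0 hw1, AddSubgroup.index_ker, ← h4]
    rfl
  have hne : (MW.nG (legendre (u ^ d)).toAffine.Point 2).index ≠ 0 := by
    rw [hindex]
    exact pow_ne_zero _ two_ne_zero
  refine ⟨MW.fg_of_index (legendre (u ^ d)) le_rfl hne, ?_, ?_⟩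
  · have h := MW.index_eq (legendre (u ^ d)) le_rfl hne
    have h4 : Nat.card (MW.Gn (legendre (u ^ d)).toAffine.Point 2) = 4 := by
      rw [← card_two_torsion h2 hw0 hw1]
      apply Nat.card_congr
      exact Equiv.subtypeEquivRight (fun P => by rw [MW.mem_Gn, two_nsmul])
    rw [hindex, h4] at h
    have h5 : 2 ^ (numFactors k d + 1) = 2 ^ (algebraicRank (legendre (u ^ d)) + 2) := by
      rw [h, pow_add _ _ 2]
      norm_num
    have h6 := Nat.pow_right_injective le_rfl h5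
    omega
  · intro b₁ b₂ hb₁ hb₂ hloc
    have h5 : (sqClass b₁, sqClass b₂) ∈ SelSet (algebraMap k[X] (RatFunc k) (u ^ d)) :=
      ⟨b₁, b₂, hb₁, hb₂, rfl, hloc⟩
    rw [← h3] at h5
    obtain ⟨P, hP⟩ := h5
    exact covering_of_point (u ^ d) hw0 hw1 P hb₁ hb₂ hP

lemma legendre_j_nonconst {d : ℕ} (hd : d ≠ 0) (h2 : (2 : k) ≠ 0) {u : k[X]}
    (hu : OddNonsplit d u) (c : k) :
    (legendre (u ^ d)).c₄ ^ 3 ≠ algebraMap k (RatFunc k) c * (legendre (u ^ d)).Δ := by
  obtain ⟨c₀, v, e, -, hv, -, he, huv⟩ := hu.at_zero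
  have hvu : v ∣ u ^ d := by
    rw [huv]
    exact dvd_pow (Dvd.dvd.mul_left (dvd_pow_self v he.pos.ne') _) hd
  rw [legendre_Δ, legendre_c4]
  have e : algebraMap k (RatFunc k) c = algebraMap k[X] (RatFunc k) (C c) := by
    rw [RatFunc.algebraMap_C, RatFunc.algebraMap_eq_C]
  rw [e, ← map_pow, ← map_mul]
  intro h
  have h1 := RatFunc.algebraMap_injective k h
  have h3 : v ∣ (16 * ((u ^ d) ^ 2 - u ^ d + 1)) ^ 3 := by
    rw [h1]
    obtain ⟨r, hr⟩ := hvu
    rw [hr]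
    exact ⟨C c * (16 * v * r ^ 2 * (v * r - 1) ^ 2), by ring⟩
  have h4 := hv.prime.dvd_of_dvd_pow h3
  have h16 : IsUnit (16 : k[X]) := Two.isUnit_sixteen h2
  have h5 : v ∣ (u ^ d) ^ 2 - u ^ d + 1 := by
    rcases hv.prime.dvd_or_dvd h4 with h6 | h6
    · exact absurd (isUnit_of_dvd_unit h6 h16) hv.not_isUnit
    · exact h6
  have h6 : v ∣ 1 := by
    have h7 : v ∣ (u ^ d) ^ 2 - u ^ d := dvd_sub (dvd_pow hvu two_ne_zero) hvu
    have h8 := dvd_sub h5 h7
    rwa [add_sub_cancel_left] at h8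
  exact hv.not_isUnit (isUnit_of_dvd_one h6)

end Pool.Agent.BSDFF.Odd
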