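import Pool.Agent.Lib.MP_48b749_nt.Odd.SelStruct
import Pool.Agent.Lib.MP_48b749_nt.LegDescent

/-!
Module SB2. The `2`-Selmer group of `y ^ 2 = x (x + 1) (x + u ^ d)` has at most
`2 ^ (numFactors k d + 1)` elements.
-/

set_option autoImplicit false

open Polynomial

namespace Pool.Agent.BSDFF.Odd

variable {k : Type} [Field k]

/-- the classes modulo squares of the pairs `(b₁, b₂)` whose coverings are soluble at all places -/
def SelSet (w : RatFunc k) : Set (SqGrp (RatFunc k) × SqGrp (RatFunc k)) :=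
  {c | ∃ b₁ b₂ : RatFunc k, b₁ ≠ 0 ∧ b₂ ≠ 0 ∧ c = (sqClass b₁, sqClass b₂) ∧
    ∀ v : Place k (RatFunc k),
      CoveringHasPoint (v.toCompletion w) (v.toCompletion b₁) (v.toCompletion b₂)}

/-- solubility only depends on the classes modulo squares -/
theorem covering_mul_sq {F : Type} [Field F] {w b₁ b₂ c₁ c₂ : F} (hc₁ : c₁ ≠ 0) (hc₂ : c₂ ≠ 0)
    (h : CoveringHasPoint w b₁ b₂) : CoveringHasPoint w (b₁ * c₁ ^ 2) (b₂ * c₂ ^ 2) := by
  obtain ⟨z₀, z₁, z₂, z₃, hz, h1, h2⟩ := h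
  refine ⟨z₀, z₁ / c₁, z₂ / c₂, z₃ / (c₁ * c₂), ?_, ?_, ?_⟩
  · rcases hz with hz | hz | hz | hz
    · exact Or.inl hz
    · exact Or.inr (Or.inl (div_ne_zero hz hc₁))
    · exact Or.inr (Or.inr (Or.inl (div_ne_zero hz hc₂)))
    · exact Or.inr (Or.inr (Or.inr (div_ne_zero hz (mul_ne_zero hc₁ hc₂))))
  · have e1 : b₁ * c₁ ^ 2 * (z₁ / c₁) ^ 2 = b₁ * z₁ ^ 2 := by field_simp
    have e2 : b₂ * c₂ ^ 2 * (z₂ / c₂) ^ 2 = b₂ * z₂ ^ 2 := by field_simp
    rw [e1, e2, h1]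
  · have e1 : b₁ * c₁ ^ 2 * (z₁ / c₁) ^ 2 = b₁ * z₁ ^ 2 := by field_simp
    have e2 : b₁ * c₁ ^ 2 * (b₂ * c₂ ^ 2) * (z₃ / (c₁ * c₂)) ^ 2 = b₁ * b₂ * z₃ ^ 2 := by
      field_simp
    rw [e1, e2, h2]

private theorem sq_of_mk {f g : k[X]} (hf : Irreducible f) (hodd : Odd f.natDegree)
    (hfg : ¬ f ∣ g) {c c' : k} (h : IsSquare (AdjoinRoot.mk f (C c * g)))
    (h' : IsSquare (AdjoinRoot.mk f (C c' * g))) : IsSquare (c * c') := by
  have : Fact (Irreducible f) := ⟨hf⟩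
  have hg : AdjoinRoot.mk f g ≠ 0 := fun h0 => hfg (AdjoinRoot.mk_eq_zero.1 h0)
  obtain ⟨s, hs⟩ := h
  obtain ⟨s', hs'⟩ := h'
  have hfin : FiniteDimensional k (AdjoinRoot f) :=
    (AdjoinRoot.powerBasis hf.ne_zero).finite
  have hfr : Module.finrank k (AdjoinRoot f) = f.natDegree := by
    rw [(AdjoinRoot.powerBasis hf.ne_zero).finrank, AdjoinRoot.powerBasis_dim]
  refine isSquare_of_odd (L := AdjoinRoot f) (by rwa [hfr]) ?_
  refine ⟨s * s' / AdjoinRoot.mk f g, ?_⟩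
  have h1 : algebraMap k (AdjoinRoot f) (c * c') = AdjoinRoot.mk f (C c) * AdjoinRoot.mk f (C c') := by
    rw [← map_mul, ← C_mul]
    rfl
  rw [map_mul] at hs hs'
  rw [h1]
  field_simp
  linear_combination (AdjoinRoot.mk f (C c') * AdjoinRoot.mk f g) * hs + (s * s) * hs'

private theorem class_eq {g : k[X]} (hg : g ≠ 0) {c c' : k} (hc : c ≠ 0) (hc' : c' ≠ 0)
    (h : IsSquare (c * c')) :
    sqClass (algebraMap k[X] (RatFunc k) (C c * g)) =
      sqClass (algebraMap k[X] (RatFunc k) (C c' * g)) := by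
  have hinj := IsFractionRing.injective k[X] (RatFunc k)
  have hne : ∀ {f : k[X]}, f ≠ 0 → algebraMap k[X] (RatFunc k) f ≠ 0 := fun {f} hf h0 =>
    hf (hinj (h0.trans (map_zero _).symm))
  have hC : C c ≠ 0 := C_ne_zero.2 hc
  have hC' : C c' ≠ 0 := C_ne_zero.2 hc'
  have h1 : sqClass (algebraMap k[X] (RatFunc k) (C c)) +
      sqClass (algebraMap k[X] (RatFunc k) (C c')) = 0 := by
    rw [← sqClass_mul (hne hC) (hne hC'), ← map_mul, ← C_mul,
      sqClass_eq_zero_iff (hne (C_ne_zero.2 (mul_ne_zero hc hc')))]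
    obtain ⟨s, hs⟩ := h
    exact ⟨algebraMap k[X] (RatFunc k) (C s), by rw [hs, C_mul, map_mul]⟩
  have h2 := modSq_two (sqClass (algebraMap k[X] (RatFunc k) (C c')))
  rw [map_mul, map_mul, sqClass_mul (hne hC) (hne hg), sqClass_mul (hne hC') (hne hg)]
  congr 1
  rw [← h2] at h1
  exact add_right_cancel h1

open Classical in
/-- the data attached to a class -/
private def SelData (u v : k[X]) (T : Finset k[X]) (c : SqGrp (RatFunc k) × SqGrp (RatFunc k))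
    (x : Bool × Finset k[X]) : Prop :=
  x.2 ⊆ T ∧ ∃ c₁ c₂ : k, c₁ ≠ 0 ∧ c₂ ≠ 0 ∧
    c = (sqClass (algebraMap k[X] (RatFunc k) (C c₁ * (if x.1 then v else 1))),
      sqClass (algebraMap k[X] (RatFunc k) (C c₂ * ∏ m ∈ x.2, m.comp u))) ∧
    IsSquare (AdjoinRoot.mk v (C c₂ * ∏ m ∈ x.2, m.comp u)) ∧
    ((X - 1 ∉ x.2 ∧ IsSquare (AdjoinRoot.mk (u - 1) (C c₁ * (if x.1 then v else 1)))) ∨
      (X - 1 ∈ x.2 ∧ IsSquare (AdjoinRoot.mk (u - 1) (-(C c₁ * (if x.1 then v else 1))))))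

theorem selSet_card_le {d : ℕ} (hdk : (d : k) ≠ 0) {u : k[X]} (hu : OddNonsplit d u) :
    (SelSet (algebraMap k[X] (RatFunc k) (u ^ d))).Finite ∧
      (SelSet (algebraMap k[X] (RatFunc k) (u ^ d))).ncard ≤ 2 ^ (numFactors k d + 1) := by
  classical
  obtain ⟨c₀, v, e, hc₀, hv, hvo, he, huv⟩ := hu.at_zero
  obtain ⟨T, hT, hcard, hprod⟩ := exists_factors (k := k) hdk
  have hd0 : d ≠ 0 := by
    rintro rfl
    exact hdk Nat.cast_zero
  have hinj := IsFractionRing.injective k[X] (RatFunc k)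
  have hne : ∀ {f : k[X]}, f ≠ 0 → algebraMap k[X] (RatFunc k) f ≠ 0 := fun {f} hf h0 =>
    hf (hinj (h0.trans (map_zero _).symm))
  have hvu : v ∣ u := by
    rw [huv]
    exact (dvd_pow_self v he.pos.ne').mul_left _
  have hu1 : Irreducible (u - 1) := by
    have h1 : Irreducible (X - 1 : k[X]) := by
      rw [← C_1]
      exact irreducible_X_sub_C (1 : k)
    have h2 := hu.at_roots (X - 1) h1 (sub_one_dvd_pow_sub_one _ _)
    rwa [sub_comp, X_comp, one_comp] at h2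
  have hdeg : u.natDegree = e * v.natDegree := by
    rw [huv, natDegree_C_mul hc₀, natDegree_pow]
  have hdego : Odd (u - 1).natDegree := by
    rw [← C_1, natDegree_sub_C, hdeg]
    exact he.mul hvo
  have hmv : ∀ m ∈ T, ¬ v ∣ m.comp u := by
    intro m hm hd
    have h1 : m.comp u ∣ u ^ d - 1 := by
      obtain ⟨g, hg⟩ := ((hT m).1 hm).2.2
      refine ⟨g.comp u, ?_⟩
      rw [← mul_comp, ← hg, sub_comp, pow_comp, X_comp, one_comp]
    have h2 : v ∣ u ^ d := hvu.trans (dvd_pow_self u hd0)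
    have h3 := (dvd_sub h2 (hd.trans h1))
    rw [sub_sub_cancel] at h3
    exact hv.not_isUnit (isUnit_of_dvd_one h3)
  have huv1 : ¬ (u - 1) ∣ v := by
    intro hd
    have h3 := dvd_sub (hd.trans hvu) (dvd_refl (u - 1))
    rw [sub_sub_cancel] at h3
    exact hu1.not_isUnit (isUnit_of_dvd_one h3)
  have hA : ∀ c ∈ SelSet (algebraMap k[X] (RatFunc k) (u ^ d)), ∃ x, SelData u v T c x := by
    rintro c ⟨b₁, b₂, hb₁, hb₂, rfl, hloc⟩
    obtain ⟨B₁, a₁, hB₁, ha₁, hba₁⟩ := exists_poly_mul_sq b₁ hb₁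
    obtain ⟨B₂, a₂, hB₂, ha₂, hba₂⟩ := exists_poly_mul_sq b₂ hb₂
    have hsol : ∀ (π : k[X]) (hπ : Irreducible π), SolubleAt hπ (u ^ d) B₁ B₂ := by
      intro π hπ
      have h1 := hloc (placeOf π hπ)
      have hz : ∀ a : RatFunc k, a ≠ 0 → ((placeOf π hπ).toCompletion a)⁻¹ ≠ 0 := fun a ha =>
        inv_ne_zero (fun h0 => ha ((map_eq_zero _).1 h0))
      have h2 := covering_mul_sq (hz a₁ ha₁) (hz a₂ ha₂) h1
      have e1 : (placeOf π hπ).toCompletion b₁ * ((placeOf π hπ).toCompletion a₁)⁻¹ ^ 2 =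
          (placeOf π hπ).toCompletion (algebraMap k[X] (RatFunc k) B₁) := by
        rw [hba₁, map_mul, map_pow, mul_assoc, ← mul_pow,
          mul_inv_cancel₀ (fun h0 => ha₁ ((map_eq_zero _).1 h0)), one_pow, mul_one]
      have e2 : (placeOf π hπ).toCompletion b₂ * ((placeOf π hπ).toCompletion a₂)⁻¹ ^ 2 =
          (placeOf π hπ).toCompletion (algebraMap k[X] (RatFunc k) B₂) := by
        rw [hba₂, map_mul, map_pow, mul_assoc, ← mul_pow,
          mul_inv_cancel₀ (fun h0 => ha₂ ((map_eq_zero _).1 h0)), one_pow, mul_one]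
      rw [e1, e2] at h2
      exact h2
    obtain ⟨c₁, c₂, M₁, M₂, b, S, hc₁, hc₂, hM₁, hM₂, hST, hBB₁, hBB₂, hs1, hs2⟩ :=
      sel_structure hdk hu hc₀ hv hvo he huv T hT hprod hB₁ hB₂ hsol
    refine ⟨(b, S), hST, c₁, c₂, hc₁, hc₂, ?_, hs1, hs2⟩
    have hcl : ∀ (b' : RatFunc k) (B a M G : _) (_ : (B : k[X]) ≠ 0) (_ : (a : RatFunc k) ≠ 0)
        (_ : (M : k[X]) ≠ 0), b' = algebraMap k[X] (RatFunc k) B * a ^ 2 → B = G * M ^ 2 →
        sqClass b' = sqClass (algebraMap k[X] (RatFunc k) G) := by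
      intro b' B a M G hB ha hM h1 h2
      have hG : G ≠ 0 := by
        rintro rfl
        rw [zero_mul] at h2
        exact hB h2
      have h3 : b' = algebraMap k[X] (RatFunc k) G * (algebraMap k[X] (RatFunc k) M * a) ^ 2 := by
        rw [h1, h2, map_mul, map_pow]
        ring
      have h4 : (algebraMap k[X] (RatFunc k) M * a) ≠ 0 := mul_ne_zero (hne hM) ha
      rw [h3, sqClass_mul (hne hG) (pow_ne_zero _ h4),
        (sqClass_eq_zero_iff (pow_ne_zero _ h4)).2 (IsSquare.sq _), add_zero]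
    rw [hcl b₁ B₁ a₁ M₁ _ hB₁ ha₁ hM₁ hba₁ hBB₁, hcl b₂ B₂ a₂ M₂ _ hB₂ ha₂ hM₂ hba₂ hBB₂]
  have hB : ∀ c c' x, SelData u v T c x → SelData u v T c' x → c = c' := by
    rintro c c' ⟨b, S⟩ ⟨hST, c₁, c₂, hc₁, hc₂, hc, hs1, hs2⟩
      ⟨-, c₁', c₂', hc₁', hc₂', hc', hs1', hs2'⟩
    have ht : ¬ (u - 1) ∣ (if b then v else 1) := by
      cases b
      · intro h1
        exact hu1.not_isUnit (isUnit_of_dvd_one h1)
      · exact huv1
    have ht0 : (if b then v else 1) ≠ 0 := fun h0 => ht (h0 ▸ dvd_zero _)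
    have hp : ¬ v ∣ ∏ m ∈ S, m.comp u := by
      intro h1
      obtain ⟨m, hm, hvm⟩ := (Prime.dvd_finsetProd_iff hv.prime _).1 h1
      exact hmv m (hST hm) hvm
    have hp0 : ∏ m ∈ S, m.comp u ≠ 0 := fun h0 => hp (h0 ▸ dvd_zero _)
    have hq2 : IsSquare (c₂ * c₂') := sq_of_mk hv hvo hp hs1 hs1'
    have hq1 : IsSquare (c₁ * c₁') := by
      rcases hs2 with ⟨h1, h2⟩ | ⟨h1, h2⟩ <;> rcases hs2' with ⟨h1', h2'⟩ | ⟨h1', h2'⟩
      · exact sq_of_mk hu1 hdego ht h2 h2'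
      · exact absurd h1' h1
      · exact absurd h1 h1'
      · refine sq_of_mk hu1 hdego (g := -(if b then v else 1)) ?_ (by rwa [mul_neg])
          (by rwa [mul_neg])
        rwa [dvd_neg]
    rw [hc, hc']
    exact Prod.ext (class_eq ht0 hc₁ hc₁' hq1) (class_eq hp0 hc₂ hc₂' hq2)
  choose! f hf using hA
  have hinjf : Set.InjOn f (SelSet (algebraMap k[X] (RatFunc k) (u ^ d))) := by
    intro c hc c' hc' hcc
    exact hB c c' (f c) (hf c hc) (hcc ▸ hf c' hc')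
  have hmaps : Set.MapsTo f (SelSet (algebraMap k[X] (RatFunc k) (u ^ d)))
      (((Finset.univ : Finset Bool) ×ˢ T.powerset : Finset (Bool × Finset k[X])) :
        Set (Bool × Finset k[X])) := by
    intro c hc
    rw [Finset.mem_coe, Finset.mem_product, Finset.mem_powerset]
    exact ⟨Finset.mem_univ _, (hf c hc).1⟩
  refine ⟨Set.Finite.of_injOn hmaps hinjf (Finset.finite_toSet _), ?_⟩
  refine (Set.ncard_le_ncard_of_injOn f hmaps hinjf (Finset.finite_toSet _)).trans ?_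
  rw [Set.ncard_coe_finset, Finset.card_product, Finset.card_powerset, hcard, Finset.card_univ,
    Fintype.card_bool, pow_succ, mul_comm]

end Pool.Agent.BSDFF.Odd
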