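import Pool.Agent.Lib.MP_48b749_nt.Odd.LocPoly
import Pool.Agent.Lib.MP_48b749_nt.Odd.Fac

/-!
Module SB1. The structure of the locally soluble classes for `y ^ 2 = x (x + 1) (x + u ^ d)`.
-/

set_option autoImplicit false

open Polynomial

namespace Pool.Agent.BSDFF.Odd

variable {k : Type} [Field k]

/-- `m (u)` divides `u ^ d - 1` for `m ∣ X ^ d - 1`. -/
private theorem comp_dvd {d : ℕ} {m u : k[X]} (hm : m ∣ X ^ d - 1) : m.comp u ∣ u ^ d - 1 := by
  obtain ⟨q, hq⟩ := hm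
  refine ⟨q.comp u, ?_⟩
  have h1 : (X ^ d - 1 : k[X]).comp u = (m * q).comp u := by rw [hq]
  rw [mul_comp] at h1
  rw [← h1]
  simp

/-- a prime divisor of `u` does not divide `u ^ d - 1` -/
private theorem not_dvd_pow_sub_one {d : ℕ} (hd : d ≠ 0) {u v : k[X]} (hv : Irreducible v)
    (hvu : v ∣ u) : ¬ v ∣ u ^ d - 1 := by
  intro h
  have h3 : v ∣ u ^ d := hvu.trans (dvd_pow_self u hd)
  have h4 : v ∣ u ^ d - (u ^ d - 1) := dvd_sub h3 h
  rw [sub_sub_cancel] at h4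
  exact hv.not_isUnit (isUnit_of_dvd_one h4)

/-- distinct elements of the set of monic irreducible factors give different `m (u)`, neither of
which divides the other -/
private theorem comp_dvd_comp {d : ℕ} {u : k[X]} (hu : OddNonsplit d u) {T : Finset k[X]}
    (hT : ∀ m : k[X], m ∈ T ↔ m.Monic ∧ Irreducible m ∧ m ∣ X ^ d - 1) {m m' : k[X]}
    (hm : m ∈ T) (hm' : m' ∈ T) (h : m.comp u ∣ m'.comp u) : m = m' := by
  by_contra hne
  obtain ⟨h1, h2, h3⟩ := (hT m).1 hm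
  obtain ⟨h1', h2', h3'⟩ := (hT m').1 hm'
  have hc := isCoprime_comp h1 h1' h2 h2' hne u
  have h4 : IsUnit (m.comp u) := hc.isUnit_of_dvd' dvd_rfl h
  exact (hu.at_roots m h2 h3).not_isUnit h4

open Classical in
theorem sel_structure {d : ℕ} (hdk : (d : k) ≠ 0) {u : k[X]} (hu : OddNonsplit d u) {c₀ : k}
    {v : k[X]} {e : ℕ} (hc₀ : c₀ ≠ 0) (hv : Irreducible v) (hvo : Odd v.natDegree) (he : Odd e)
    (huv : u = C c₀ * v ^ e) (T : Finset k[X])
    (hT : ∀ m : k[X], m ∈ T ↔ m.Monic ∧ Irreducible m ∧ m ∣ X ^ d - 1)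
    (hprod : ∏ m ∈ T, m = X ^ d - 1) {B₁ B₂ : k[X]} (hB₁ : B₁ ≠ 0) (hB₂ : B₂ ≠ 0)
    (h : ∀ (π : k[X]) (hπ : Irreducible π), SolubleAt hπ (u ^ d) B₁ B₂) :
    ∃ (c₁ c₂ : k) (M₁ M₂ : k[X]) (b : Bool) (S : Finset k[X]), c₁ ≠ 0 ∧ c₂ ≠ 0 ∧ M₁ ≠ 0 ∧
      M₂ ≠ 0 ∧ S ⊆ T ∧ B₁ = C c₁ * (if b then v else 1) * M₁ ^ 2 ∧
      B₂ = C c₂ * (∏ m ∈ S, m.comp u) * M₂ ^ 2 ∧
      IsSquare (AdjoinRoot.mk v (C c₂ * ∏ m ∈ S, m.comp u)) ∧
      ((X - 1 ∉ S ∧ IsSquare (AdjoinRoot.mk (u - 1) (C c₁ * (if b then v else 1)))) ∨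
        (X - 1 ∈ S ∧ IsSquare (AdjoinRoot.mk (u - 1) (-(C c₁ * (if b then v else 1)))))) := by
  have hd0 : d ≠ 0 := by
    rintro rfl
    exact hdk (by simp)
  have he0 : e ≠ 0 := by
    rintro rfl
    exact absurd he (by decide)
  have hvu : v ∣ u := by
    rw [huv]
    exact dvd_mul_of_dvd_right (dvd_pow_self v he0) _
  have hvud : v ∣ u ^ d := hvu.trans (dvd_pow_self u hd0)
  -- the product
  have hprodu : ∏ m ∈ T, m.comp u = u ^ d - 1 := by
    rw [← Polynomial.prod_comp, hprod]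
    simp
  have hXm : (X - 1 : k[X]).Monic := by
    have := monic_X_sub_C (1 : k)
    rwa [C_1] at this
  have hXi : Irreducible (X - 1 : k[X]) := by
    have := irreducible_X_sub_C (1 : k)
    rwa [C_1] at this
  have hXd : (X - 1 : k[X]) ∣ X ^ d - 1 := by
    have := sub_dvd_pow_sub_pow (X : k[X]) 1 d
    rwa [one_pow] at this
  have hXT : (X - 1 : k[X]) ∈ T := (hT _).2 ⟨hXm, hXi, hXd⟩
  have hXu : (X - 1 : k[X]).comp u = u - 1 := by simp
  have hui : Irreducible (u - 1) := by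
    rw [← hXu]
    exact hu.at_roots _ hXi hXd
  -- divisors of `w`
  have hdiv : ∀ π : k[X], Irreducible π → π ∣ u ^ d → π ∣ v := by
    intro π hπ h1
    have h2 : π ∣ u := hπ.prime.dvd_of_dvd_pow h1
    rw [huv] at h2
    rcases hπ.prime.dvd_or_dvd h2 with h3 | h3
    · exact absurd (isUnit_of_dvd_unit h3 (isUnit_C.2 (isUnit_iff_ne_zero.2 hc₀))) hπ.not_isUnit
    · exact hπ.prime.dvd_of_dvd_pow h3
  -- `w - 1` is squarefree
  have hsqf : Squarefree (u ^ d - 1) := by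
    rw [← hprodu]
    refine Finset.squarefree_prod_of_pairwise_isCoprime ?_ ?_
    · intro m hm m' hm' hne
      obtain ⟨h1, h2, _⟩ := (hT m).1 hm
      obtain ⟨h1', h2', _⟩ := (hT m').1 hm'
      exact (isCoprime_comp h1 h1' h2 h2' hne u).isRelPrime
    · intro m hm
      obtain ⟨_, h2, h3⟩ := (hT m).1 hm
      exact (hu.at_roots m h2 h3).squarefree
  have hsq2 : ∀ π : k[X], Irreducible π → ¬ π ^ 2 ∣ u ^ d - 1 := by
    intro π hπ h1
    rw [pow_two] at h1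
    exact hπ.not_isUnit (hsqf π h1)
  -- parities
  have hpar1 : ∀ π : k[X], Irreducible π → ¬ π ∣ v → Even (multiplicity π B₁) := by
    intro π hπ h1
    by_cases h2 : π ∣ u ^ d - 1
    · exact (place_one hπ hB₁ hB₂ h2 (hsq2 π hπ) (h π hπ)).1
    · exact (place_good hπ hB₁ hB₂ (fun h3 => h1 (hdiv π hπ h3)) h2 (h π hπ)).1
  have hpar2 : ∀ π : k[X], Irreducible π → (∀ m ∈ T, ¬ π ∣ m.comp u) →
      Even (multiplicity π B₂) := by
    intro π hπ h1
    by_cases h2 : π ∣ u ^ d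
    · exact (place_zero hπ hB₁ hB₂ h2 (h π hπ)).1
    · refine (place_good hπ hB₁ hB₂ h2 ?_ (h π hπ)).2
      rw [← hprodu]
      intro h3
      obtain ⟨m, hm, h4⟩ := (hπ.prime.dvd_finsetProd_iff _).1 h3
      exact h1 m hm h4
  -- the factorisation of `B₁`
  obtain ⟨c₁, M₁, hc₁, hM₁, hB₁'⟩ := exists_factorization {v}
    (by
      intro t ht
      rw [Finset.mem_singleton.1 ht]
      exact hv)
    (by
      intro s hs t ht _
      rw [Finset.mem_singleton.1 hs, Finset.mem_singleton.1 ht]) hB₁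
    (fun π hπ h1 => hpar1 π hπ (h1 v (Finset.mem_singleton_self v)))
  -- the factorisation of `B₂`
  have hinj : Set.InjOn (fun m : k[X] => m.comp u) (T : Set k[X]) := by
    intro m hm m' hm' hmm
    exact comp_dvd_comp hu hT hm hm' (dvd_of_eq hmm)
  obtain ⟨c₂, M₂, hc₂, hM₂, hB₂'⟩ := exists_factorization (T.image (fun m : k[X] => m.comp u))
    (by
      intro t ht
      obtain ⟨m, hm, rfl⟩ := Finset.mem_image.1 ht
      obtain ⟨_, h2, h3⟩ := (hT m).1 hm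
      exact hu.at_roots m h2 h3)
    (by
      intro s hs t ht hst
      obtain ⟨m, hm, rfl⟩ := Finset.mem_image.1 hs
      obtain ⟨m', hm', rfl⟩ := Finset.mem_image.1 ht
      rw [comp_dvd_comp hu hT hm hm' hst]) hB₂
    (fun π hπ h1 => hpar2 π hπ (fun m hm => h1 _ (Finset.mem_image_of_mem _ hm)))
  set S : Finset k[X] := T.filter (fun m => Odd (multiplicity (m.comp u) B₂)) with hS
  have hprodS : (∏ t ∈ (T.image (fun m : k[X] => m.comp u)).filter
      (fun t => Odd (multiplicity t B₂)), t) = ∏ m ∈ S, m.comp u := by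
    rw [Finset.filter_image, Finset.prod_image]
    exact hinj.mono (fun m hm => (Finset.mem_filter.1 hm).1)
  rw [hprodS] at hB₂'
  set b : Bool := decide (Odd (multiplicity v B₁)) with hb
  have hprodv : (∏ t ∈ ({v} : Finset k[X]).filter (fun t => Odd (multiplicity t B₁)), t) =
      if b then v else 1 := by
    rw [Finset.filter_singleton, hb]
    by_cases h1 : Odd (multiplicity v B₁)
    · simp [h1]
    · simp [h1]
  rw [hprodv] at hB₁'
  have hST : S ⊆ T := Finset.filter_subset _ _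
  -- the condition at `v`
  have hvS : ¬ v ∣ C c₂ * ∏ m ∈ S, m.comp u := by
    intro h1
    rcases hv.prime.dvd_or_dvd h1 with h2 | h2
    · exact absurd (isUnit_of_dvd_unit h2 (isUnit_C.2 (isUnit_iff_ne_zero.2 hc₂))) hv.not_isUnit
    · obtain ⟨m, hm, h3⟩ := (hv.prime.dvd_finsetProd_iff _).1 h2
      exact not_dvd_pow_sub_one hd0 hv hvu (h3.trans (comp_dvd ((hT m).1 (hST hm)).2.2))
  have hcv : IsSquare (AdjoinRoot.mk v (C c₂ * ∏ m ∈ S, m.comp u)) :=
    (place_zero hv hB₁ hB₂ hvud (h v hv)).2 _ M₂ hB₂' hvS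
  -- the condition at `u - 1`
  have hu1 : ¬ (u - 1) ∣ C c₁ * (if b then v else 1) := by
    intro h1
    rcases hui.prime.dvd_or_dvd h1 with h2 | h2
    · exact absurd (isUnit_of_dvd_unit h2 (isUnit_C.2 (isUnit_iff_ne_zero.2 hc₁))) hui.not_isUnit
    · have h3 : (u - 1) ∣ v := by
        by_cases h4 : b = true
        · rwa [if_pos h4] at h2
        · rw [if_neg h4] at h2
          exact absurd (isUnit_of_dvd_one h2) hui.not_isUnit
      have h4 : v ∣ u - 1 := (hui.associated_of_dvd hv h3).symm.dvd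
      have h5 : v ∣ u - (u - 1) := dvd_sub hvu h4
      rw [sub_sub_cancel] at h5
      exact hv.not_isUnit (isUnit_of_dvd_one h5)
  have hXS : (X - 1 : k[X]) ∈ S ↔ Odd (multiplicity (u - 1) B₂) := by
    rw [hS, Finset.mem_filter, hXu]
    exact and_iff_right hXT
  have hw1 : (u - 1) ∣ u ^ d - 1 := by
    have := comp_dvd (u := u) hXd
    rwa [hXu] at this
  refine ⟨c₁, c₂, M₁, M₂, b, S, hc₁, hc₂, hM₁, hM₂, hST, hB₁', hB₂', hcv, ?_⟩
  rcases (place_one hui hB₁ hB₂ hw1 (hsq2 _ hui) (h _ hui)).2 with ⟨h1, h2⟩ | ⟨h1, h2⟩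
  · left
    refine ⟨fun h3 => ?_, h2 _ M₁ hB₁' hu1⟩
    exact (Nat.not_odd_iff_even.2 h1) (hXS.1 h3)
  · right
    exact ⟨hXS.2 (Nat.not_even_iff_odd.1 h1), h2 _ M₁ hB₁' hu1⟩

end Pool.Agent.BSDFF.Odd
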